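import Mathlib

set_option autoImplicit false

namespace Pool.Agent.V11268.Monogenic

open Polynomial IntermediateField ComplexConjugate

/-- A polynomial `f` with integer coefficients is monogenic if for every complex root `θ` of `f`
each algebraic integer of the field `ℚ(θ)` lies in `ℤ[θ]`. -/
def Monogenic (f : ℤ[X]) : Prop :=
  ∀ θ : ℂ, aeval θ f = 0 → ∀ x ∈ ℚ⟮θ⟯, IsIntegral ℤ x → x ∈ Algebra.adjoin ℤ {θ}

/-- The subfield of real numbers inside `ℂ`. -/
noncomputable def realField : IntermediateField ℚ ℂ :=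
  (IsScalarTower.toAlgHom ℚ ℝ ℂ).fieldRange

theorem mem_realField_of_conj {z : ℂ} (hz : conj z = z) : z ∈ realField := by
  obtain ⟨r, hr⟩ := Complex.conj_eq_iff_real.mp hz
  exact ⟨r, by rw [hr]; rfl⟩

theorem conj_of_mem_realField {z : ℂ} (hz : z ∈ realField) : conj z = z := by
  obtain ⟨r, hr⟩ := hz
  have hr' : (r : ℂ) = z := hr
  rw [← hr', Complex.conj_ofReal]

theorem conj_of_pow {ζ : ℂ} {d : ℕ} (hd : d ≠ 0) (h : ζ ^ d = 1) : conj ζ = ζ⁻¹ := by
  have hn : ‖ζ‖ = 1 := Complex.norm_eq_one_of_pow_eq_one h hd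
  have h0 : ζ ≠ 0 := by
    rintro rfl
    rw [zero_pow hd] at h
    exact zero_ne_one h
  refine eq_inv_of_mul_eq_one_left ?_
  rw [Complex.conj_mul', hn]
  norm_num

/-- For a primitive `d`-th root of unity `ζ` with `d > 1` odd, the order `ℤ[ζ - ζ⁻¹]` is not the
full ring of integers of the field it generates. -/
theorem exists_not_mem {d : ℕ} (hd : Odd d) (h1 : 1 < d) {ζ : ℂ} (hζ : IsPrimitiveRoot ζ d) :
    ∃ x ∈ ℚ⟮ζ - ζ⁻¹⟯, IsIntegral ℤ x ∧ x ∉ Algebra.adjoin ℤ {ζ - ζ⁻¹} := by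
  have hd0 : d ≠ 0 := by omega
  have hζ0 : ζ ≠ 0 := hζ.ne_zero hd0
  have hinv : ζ⁻¹ = ζ ^ (d - 1) := by
    symm
    refine eq_inv_of_mul_eq_one_left ?_
    rw [← pow_succ, Nat.sub_add_cancel (by omega), hζ.pow_eq_one]
  obtain ⟨θ, hθ⟩ : ∃ θ, θ = ζ - ζ⁻¹ := ⟨_, rfl⟩
  rw [← hθ]
  have hζint : IsIntegral ℤ ζ := hζ.isIntegral (by omega)
  have hζiint : IsIntegral ℤ ζ⁻¹ := by rw [hinv]; exact hζint.pow _
  have hθint : IsIntegral ℤ θ := by rw [hθ]; exact hζint.sub hζiint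
  have hconj : conj θ = -θ := by
    rw [hθ, map_sub, map_inv₀, conj_of_pow hd0 hζ.pow_eq_one, inv_inv]; ring
  have hθ0 : θ ≠ 0 := by
    intro h0
    have h2 : ζ ^ 2 = 1 := by
      have : ζ - ζ⁻¹ = 0 := by rw [← hθ, h0]
      field_simp at this
      linear_combination this
    have h3 : d ∣ 2 := hζ.dvd_of_pow_eq_one 2 h2
    have h4 := Nat.le_of_dvd (by norm_num) h3
    obtain ⟨k, hk⟩ := hd
    omega
  have hηint : IsIntegral ℤ (θ ^ 2) := hθint.pow 2
  -- `θ` is not in the real field `ℚ(θ²)`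
  have hnot : θ ∉ ℚ⟮θ ^ 2⟯ := by
    intro hmem
    have hle : ℚ⟮θ ^ 2⟯ ≤ realField := by
      rw [adjoin_simple_le_iff]
      apply mem_realField_of_conj
      rw [map_pow, hconj]; ring
    have h2 := conj_of_mem_realField (hle hmem)
    rw [hconj] at h2
    apply hθ0
    linear_combination -(1 / 2 : ℂ) * h2
  have hle : ℚ⟮θ ^ 2⟯ ≤ ℚ⟮θ⟯ := by
    rw [adjoin_simple_le_iff]
    exact pow_mem (mem_adjoin_simple_self ℚ θ) 2
  have hθQ : IsIntegral ℚ θ := hθint.tower_top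
  have hηQ : IsIntegral ℚ (θ ^ 2) := hηint.tower_top
  have hdeg : (minpoly ℤ (θ ^ 2)).natDegree < (minpoly ℤ θ).natDegree := by
    have e1 : (minpoly ℤ (θ ^ 2)).natDegree = (minpoly ℚ (θ ^ 2)).natDegree := by
      rw [minpoly.isIntegrallyClosed_eq_field_fractions' ℚ hηint,
        (minpoly.monic hηint).natDegree_map]
    have e2 : (minpoly ℤ θ).natDegree = (minpoly ℚ θ).natDegree := by
      rw [minpoly.isIntegrallyClosed_eq_field_fractions' ℚ hθint,
        (minpoly.monic hθint).natDegree_map]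
    rw [e1, e2, ← adjoin.finrank hθQ, ← adjoin.finrank hηQ]
    by_contra hcon
    have : FiniteDimensional ℚ ℚ⟮θ⟯ := adjoin.finiteDimensional hθQ
    have heq := IntermediateField.eq_of_le_of_finrank_le hle (not_lt.mp hcon)
    exact hnot (heq ▸ mem_adjoin_simple_self ℚ θ)
  set h := minpoly ℤ (θ ^ 2) with hh
  have hmonic : h.Monic := minpoly.monic hηint
  -- the conjugate `ζ + ζ⁻¹ - 2` of `θ²`
  have hroot : aeval (ζ + ζ⁻¹ - 2) h = 0 := by
    obtain ⟨k, hk⟩ := hd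
    have hcop : Nat.Coprime (k + 1) d := by
      rw [hk]
      have : 2 * k + 1 = (k + 1) + k := by ring
      rw [this, Nat.coprime_self_add_right]
      simp
    have hmin := hζ.minpoly_eq_pow_coprime hcop
    have hQ : aeval ζ (h.comp ((X - X ^ (d - 1)) ^ 2)) = 0 := by
      rw [aeval_comp]
      simp only [map_pow, map_sub, aeval_X]
      rw [← hinv, ← hθ, hh, minpoly.aeval]
    have hdvd : minpoly ℤ (ζ ^ (k + 1)) ∣ h.comp ((X - X ^ (d - 1)) ^ 2) := by
      rw [← hmin]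
      exact minpoly.isIntegrallyClosed_dvd hζint hQ
    have h3 := aeval_eq_zero_of_dvd_aeval_eq_zero hdvd (minpoly.aeval ℤ (ζ ^ (k + 1)))
    rw [aeval_comp] at h3
    simp only [map_pow, map_sub, aeval_X] at h3
    have h4 : (ζ ^ (k + 1)) ^ (d - 1) = (ζ ^ (k + 1))⁻¹ := by
      rw [← pow_mul, mul_comm, pow_mul, ← hinv, inv_pow]
    have h5 : (ζ ^ (k + 1)) ^ 2 = ζ := by
      rw [← pow_mul]
      have : (k + 1) * 2 = d + 1 := by omega
      rw [this, pow_succ, hζ.pow_eq_one, one_mul]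
    have h6 : (ζ ^ (k + 1) - (ζ ^ (k + 1)) ^ (d - 1)) ^ 2 = ζ + ζ⁻¹ - 2 := by
      rw [h4]
      have h7 : ((ζ ^ (k + 1))⁻¹) ^ 2 = ζ⁻¹ := by rw [inv_pow, h5]
      have h8 : ζ ^ (k + 1) * (ζ ^ (k + 1))⁻¹ = 1 := mul_inv_cancel₀ (pow_ne_zero _ hζ0)
      linear_combination h5 + h7 - 2 * h8
    rw [h6] at h3
    exact h3
  -- divisibility by two
  have hdiv : ∃ x : ℂ, IsIntegral ℤ x ∧ aeval θ h = 2 * x := by
    let θ' : integralClosure ℤ ℂ := ⟨θ, hθint⟩
    have hτ : IsIntegral ℤ (ζ + ζ⁻¹ - 2) :=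
      (hζint.add hζiint).sub (by
        have : (2 : ℂ) = algebraMap ℤ ℂ 2 := by simp
        rw [this]; exact isIntegral_algebraMap)
    let τ' : integralClosure ℤ ℂ := ⟨ζ + ζ⁻¹ - 2, hτ⟩
    obtain ⟨k, hk⟩ := sub_dvd_eval_sub θ' τ' (h.map (algebraMap ℤ (integralClosure ℤ ℂ)))
    have hk' : aeval θ h - aeval (ζ + ζ⁻¹ - 2) h = (θ - (ζ + ζ⁻¹ - 2)) * (k : ℂ) := by
      have := congrArg (algebraMap (integralClosure ℤ ℂ) ℂ) hk
      rw [eval_map_algebraMap, eval_map_algebraMap, map_sub, map_mul,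
        ← aeval_algebraMap_apply, ← aeval_algebraMap_apply] at this
      exact this
    rw [hroot, sub_zero] at hk'
    refine ⟨(1 - ζ⁻¹) * (k : ℂ), (isIntegral_one.sub hζiint).mul k.2, ?_⟩
    rw [hk', hθ]; ring
  obtain ⟨x, hxint, hx⟩ := hdiv
  refine ⟨x, ?_, hxint, ?_⟩
  · have : x = (2 : ℂ)⁻¹ * aeval θ h := by rw [hx]; ring
    rw [this]
    refine mul_mem (inv_mem (ofNat_mem _ 2)) ?_
    have h2 : aeval θ h = aeval θ (h.map (algebraMap ℤ ℚ)) := by
      rw [aeval_map_algebraMap]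
    rw [h2]
    exact aeval_mem_adjoin_singleton ℚ θ |> fun hm => (algebra_adjoin_le_adjoin ℚ {θ}) hm
  · intro hmem
    rw [Algebra.adjoin_singleton_eq_range_aeval] at hmem
    obtain ⟨r, hr⟩ := hmem
    set f := minpoly ℤ θ with hf
    have hfm : f.Monic := minpoly.monic hθint
    have hr2 : aeval θ (r %ₘ f) = x := by
      rw [← hr]
      have := congrArg (aeval θ) (modByMonic_add_div r f)
      rw [map_add, map_mul, hf, minpoly.aeval, zero_mul, add_zero] at this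
      exact this
    have hzero : aeval θ (h - C 2 * (r %ₘ f)) = 0 := by
      rw [map_sub, map_mul, hr2, hx, aeval_C]
      simp
    have hlt : (h - C 2 * (r %ₘ f)).degree < f.degree := by
      refine lt_of_le_of_lt (degree_sub_le _ _) (max_lt ?_ ?_)
      · rw [degree_eq_natDegree hmonic.ne_zero, degree_eq_natDegree hfm.ne_zero]
        exact_mod_cast hdeg
      · rw [degree_C_mul (by norm_num)]
        exact degree_modByMonic_lt _ hfm
    have hdvd : f ∣ h - C 2 * (r %ₘ f) := minpoly.isIntegrallyClosed_dvd hθint hzero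
    have h0 : h - C 2 * (r %ₘ f) = 0 := by
      by_contra hne
      exact absurd (degree_le_of_dvd hdvd hne) (not_le.mpr hlt)
    have h2 : h = C 2 * (r %ₘ f) := by linear_combination h0
    have h3 : h.coeff h.natDegree = 2 * (r %ₘ f).coeff h.natDegree := by
      conv_lhs => rw [h2]
      rw [coeff_C_mul, ← h2]
    rw [coeff_natDegree, hmonic.leadingCoeff] at h3
    omega

end Pool.Agent.V11268.Monogenic
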