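import Mathlib
import Pool.Agent.V11268.Monogenic

set_option autoImplicit false

namespace Pool.Agent.V11268.LucasFib

open Polynomial IntermediateField

/-- The Lucas polynomials: `L 0 = 2`, `L 1 = X`, `L (n + 2) = X * L (n + 1) + L n`. -/
noncomputable def L : ℕ → ℤ[X]
  | 0 => 2
  | 1 => X
  | (n + 2) => X * L (n + 1) + L n

/-- The Fibonacci polynomials: `F 0 = 0`, `F 1 = 1`, `F (n + 2) = X * F (n + 1) + F n`. -/
noncomputable def F : ℕ → ℤ[X]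
  | 0 => 0
  | 1 => 1
  | (n + 2) => X * F (n + 1) + F n

theorem aeval_L (z : ℂ) (hz : z ≠ 0) (n : ℕ) : aeval (z - z⁻¹) (L n) = z ^ n + (-z⁻¹) ^ n := by
  induction n using Nat.twoStepInduction with
  | zero => rw [L, map_ofNat]; norm_num
  | one => rw [L]; simp; ring
  | more n ih1 ih2 =>
    rw [L, map_add, map_mul, aeval_X, ih1, ih2]
    have h : z * z⁻¹ = 1 := mul_inv_cancel₀ hz
    have e1 : z ^ (n + 1) = z ^ n * z := pow_succ _ _
    have e2 : (-z⁻¹) ^ (n + 1) = (-z⁻¹) ^ n * (-z⁻¹) := pow_succ _ _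
    have e3 : z ^ (n + 2) = z ^ n * (z * z) := by ring
    have e4 : (-z⁻¹) ^ (n + 2) = (-z⁻¹) ^ n * (z⁻¹ * z⁻¹) := by ring
    rw [e1, e2, e3, e4]
    linear_combination (-(z ^ n) - (-z⁻¹) ^ n) * h

theorem aeval_F (z : ℂ) (hz : z ≠ 0) (n : ℕ) :
    (z + z⁻¹) * aeval (z - z⁻¹) (F n) = z ^ n - (-z⁻¹) ^ n := by
  induction n using Nat.twoStepInduction with
  | zero => rw [F]; simp
  | one => rw [F]; simp
  | more n ih1 ih2 =>
    rw [F, map_add, map_mul, aeval_X]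
    have h : z * z⁻¹ = 1 := mul_inv_cancel₀ hz
    have e1 : z ^ (n + 1) = z ^ n * z := pow_succ _ _
    have e2 : (-z⁻¹) ^ (n + 1) = (-z⁻¹) ^ n * (-z⁻¹) := pow_succ _ _
    have e3 : z ^ (n + 2) = z ^ n * (z * z) := by ring
    have e4 : (-z⁻¹) ^ (n + 2) = (-z⁻¹) ^ n * (z⁻¹ * z⁻¹) := by ring
    rw [e1, e2] at ih2
    rw [e3, e4]
    linear_combination ih1 + (z - z⁻¹) * ih2 + (-(z ^ n) + (-z⁻¹) ^ n) * h

end Pool.Agent.V11268.LucasFib
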