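import Mathlib

/-! Skew brace construction, part 1: the group `Q = C28 ⋊ C6` and its two maps to `SL₃(𝔽₂)`. -/

set_option autoImplicit false

namespace Pool.Agent.V11268.SB

/-- Homomorphism out of a cyclic group. -/
def cyc (n : ℕ) [NeZero n] {H : Type*} [Group H] (x : H) (hx : x ^ n = 1) :
    Multiplicative (ZMod n) →* H where
  toFun a := x ^ (Multiplicative.toAdd a).val
  map_one' := by simp
  map_mul' a b := by
    rw [toAdd_mul, ZMod.val_add, ← pow_eq_pow_mod _ hx, pow_add]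

abbrev C28 := Multiplicative (ZMod 28)
abbrev C6 := Multiplicative (ZMod 6)

lemma c28 (a : C28) : a ^ 28 = 1 := by
  have h := pow_card_eq_one (x := a)
  rwa [Fintype.card_multiplicative, ZMod.card] at h

/-- The automorphism `a ↦ a ^ 11`. -/
def m11 : MulAut C28 where
  toFun a := a ^ 11
  invFun a := a ^ 23
  left_inv a := by
    change (a ^ 11) ^ 23 = a
    rw [← pow_mul, show 11 * 23 = 28 * 9 + 1 from rfl, pow_add, pow_mul, c28, one_pow, one_mul,
      pow_one]
  right_inv a := by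
    change (a ^ 23) ^ 11 = a
    rw [← pow_mul, show 23 * 11 = 28 * 9 + 1 from rfl, pow_add, pow_mul, c28, one_pow, one_mul,
      pow_one]
  map_mul' a b := mul_pow a b 11

lemma m11_pow_apply (m : ℕ) (a : C28) : (m11 ^ m) a = a ^ (11 ^ m) := by
  induction m with
  | zero => simp
  | succ m ih =>
    have h1 : (m11 ^ (m + 1)) a = ((m11 ^ m) a) ^ 11 := by
      rw [pow_succ']; rfl
    rw [h1, ih, ← pow_mul, pow_succ]

lemma m11_pow : m11 ^ 6 = 1 := by
  ext a
  rw [m11_pow_apply, show 11 ^ 6 = 28 * 63270 + 1 from rfl, pow_add, pow_mul, c28, one_pow,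
    one_mul, pow_one]
  rfl

/-- The action of `C6` on `C28`. -/
def psi : C6 →* MulAut C28 := cyc 6 m11 m11_pow

/-- The group of order 168 isomorphic to `(7:3) × D8`. -/
abbrev Q := C28 ⋊[psi] C6

section lift
variable {H : Type*} [Group H]

lemma lift_aux (x g : H) (hx : x ^ 28 = 1) (h : g * x * g⁻¹ = x ^ 11) (m : ℕ) (a : C28) :
    cyc 28 x hx ((m11 ^ m) a) = g ^ m * cyc 28 x hx a * (g ^ m)⁻¹ := by
  induction m with
  | zero => simp
  | succ m ih =>
    have h1 : (m11 ^ (m + 1)) a = ((m11 ^ m) a) ^ 11 := by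
      rw [pow_succ']; rfl
    have h2 : ∀ b : C28, (cyc 28 x hx b) ^ 11 = g * cyc 28 x hx b * g⁻¹ := by
      intro b
      change (x ^ (Multiplicative.toAdd b).val) ^ 11 = g * x ^ (Multiplicative.toAdd b).val * g⁻¹
      rw [← conj_pow, h, ← pow_mul, ← pow_mul, mul_comm]
    rw [h1, map_pow, h2, ih, pow_succ']
    group

/-- Universal property of `Q`. -/
def liftQ (x g : H) (hx : x ^ 28 = 1) (hg : g ^ 6 = 1) (h : g * x * g⁻¹ = x ^ 11) : Q →* H :=
  SemidirectProduct.lift (cyc 28 x hx) (cyc 6 g hg) (by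
    intro c
    ext a
    change cyc 28 x hx ((m11 ^ (Multiplicative.toAdd c).val) a) =
      g ^ (Multiplicative.toAdd c).val * cyc 28 x hx a * (g ^ (Multiplicative.toAdd c).val)⁻¹
    exact lift_aux x g hx h _ _)

lemma liftQ_apply (x g : H) (hx : x ^ 28 = 1) (hg : g ^ 6 = 1) (h : g * x * g⁻¹ = x ^ 11)
    (q : Q) : liftQ x g hx hg h q =
      x ^ (Multiplicative.toAdd q.left).val * g ^ (Multiplicative.toAdd q.right).val := rfl

end lift

abbrev T := Matrix.SpecialLinearGroup (Fin 3) (ZMod 2)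

def mX : T := ⟨!![0,0,1;1,0,1;0,1,0], by decide⟩
def mF : T := ⟨!![1,0,0;0,0,1;0,1,1], by decide⟩
def mY : T := mF * mF
def mR : T := ⟨!![1,1,0;0,1,1;0,0,1], by decide⟩
def mS : T := ⟨!![1,1,0;0,1,0;0,0,1], by decide⟩

lemma mX7 : mX ^ 7 = 1 := by decide
lemma mY3 : mY ^ 3 = 1 := by decide
lemma mR4 : mR ^ 4 = 1 := by decide
lemma mS2 : mS ^ 2 = 1 := by decide
lemma mYX : mY * mX * mY⁻¹ = mX ^ 4 := by decide
lemma mSR : mS * mR * mS⁻¹ = mR ^ 3 := by decide

lemma mX28 : mX ^ 28 = 1 := by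
  rw [show 28 = 7 * 4 from rfl, pow_mul, mX7, one_pow]
lemma mY6 : mY ^ 6 = 1 := by
  rw [show 6 = 3 * 2 from rfl, pow_mul, mY3, one_pow]
lemma mR28 : mR ^ 28 = 1 := by
  rw [show 28 = 4 * 7 from rfl, pow_mul, mR4, one_pow]
lemma mS6 : mS ^ 6 = 1 := by
  rw [show 6 = 2 * 3 from rfl, pow_mul, mS2, one_pow]
lemma mYX11 : mY * mX * mY⁻¹ = mX ^ 11 := by
  rw [mYX, show 11 = 7 + 4 from rfl, pow_add, mX7, one_mul]
lemma mSR11 : mS * mR * mS⁻¹ = mR ^ 11 := by
  rw [mSR, show 11 = 4 + (4 + 3) from rfl, pow_add, pow_add, mR4, one_mul, one_mul]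

def al : Q →* T := liftQ mX mY mX28 mY6 mYX11
def be : Q →* T := liftQ mR mS mR28 mS6 mSR11

set_option maxRecDepth 100000 in
lemma key : ∀ i : Fin 7, ∀ j : Fin 3, ∀ k : Fin 4, ∀ l : Fin 2,
    mX ^ i.val * mY ^ j.val = mR ^ k.val * mS ^ l.val → i = 0 ∧ j = 0 ∧ k = 0 ∧ l = 0 := by
  decide +kernel

lemma al_eq_be {t : Q} (h : al t = be t) : t = 1 := by
  have h1 : mX ^ (Multiplicative.toAdd t.left).val * mY ^ (Multiplicative.toAdd t.right).val =
    mR ^ (Multiplicative.toAdd t.left).val * mS ^ (Multiplicative.toAdd t.right).val := h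
  set i := (Multiplicative.toAdd t.left).val with hi
  set j := (Multiplicative.toAdd t.right).val with hj
  have hi2 : i < 28 := ZMod.val_lt _
  have hj2 : j < 6 := ZMod.val_lt _
  rw [pow_eq_pow_mod i mX7, pow_eq_pow_mod j mY3, pow_eq_pow_mod i mR4,
    pow_eq_pow_mod j mS2] at h1
  obtain ⟨k1, k2, k3, k4⟩ := key ⟨i % 7, Nat.mod_lt _ (by norm_num)⟩
    ⟨j % 3, Nat.mod_lt _ (by norm_num)⟩ ⟨i % 4, Nat.mod_lt _ (by norm_num)⟩
    ⟨j % 2, Nat.mod_lt _ (by norm_num)⟩ h1
  rw [Fin.ext_iff] at k1 k2 k3 k4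
  simp only [Fin.val_zero] at k1 k2 k3 k4
  have hi0 : i = 0 := by omega
  have hj0 : j = 0 := by omega
  have e1 : Multiplicative.toAdd t.left = 0 := (ZMod.val_eq_zero _).1 hi0
  have e2 : Multiplicative.toAdd t.right = 0 := (ZMod.val_eq_zero _).1 hj0
  exact SemidirectProduct.ext e1 e2

/-- The bijection between `Q` and `T`. -/
def eQ (q : Q) : T := al q * (be q)⁻¹

lemma eQ_inj : Function.Injective eQ := by
  intro q1 q2 h
  have h1 : al (q2⁻¹ * q1) = be (q2⁻¹ * q1) := by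
    rw [map_mul, map_mul, map_inv, map_inv]
    have h2 : al q1 * (be q1)⁻¹ = al q2 * (be q2)⁻¹ := h
    rw [mul_inv_eq_iff_eq_mul] at h2
    rw [h2]; group
  have h3 := al_eq_be h1
  rw [inv_mul_eq_one] at h3
  exact h3.symm

lemma card_Q : Nat.card Q = 168 := by
  rw [SemidirectProduct.card]
  simp [Nat.card_eq_fintype_card, ZMod.card]

lemma card_T_le : Nat.card T ≤ 168 := by
  have h1 : Nat.card (Matrix.GeneralLinearGroup (Fin 3) (ZMod 2)) = 168 := by
    rw [Matrix.card_GL_field]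
    simp [Fin.prod_univ_succ]
  rw [← h1]
  refine Nat.card_le_card_of_injective
    (fun A : T => Matrix.SpecialLinearGroup.toGL A) ?_
  intro A B h
  apply Subtype.ext
  exact congrArg (fun M : Matrix.GeneralLinearGroup (Fin 3) (ZMod 2) => M.1) h

lemma eQ_bij : Function.Bijective eQ := by
  rw [Nat.bijective_iff_injective_and_card]
  refine ⟨eQ_inj, le_antisymm (Nat.card_le_card_of_injective _ eQ_inj) ?_⟩
  rw [card_Q]; exact card_T_le

end Pool.Agent.V11268.SB
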