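import Mathlib

/-! Skew brace construction, part 2: automorphisms of `PSL₅₆(𝔽)`. -/

set_option autoImplicit false

open Matrix

namespace Pool.Agent.V11268.SB

abbrev SLn (F : Type*) [Field F] := Matrix.SpecialLinearGroup (Fin 56) F
abbrev PSLn (F : Type*) [Field F] := Matrix.ProjectiveSpecialLinearGroup (Fin 56) F

variable {F : Type*} [Field F]

/-- Field automorphisms act on `SL`. -/
def fmap : RingAut F →* MulAut (SLn F) where
  toFun f :=
    { toFun := Matrix.SpecialLinearGroup.map (f : F →+* F)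
      invFun := Matrix.SpecialLinearGroup.map (f.symm : F →+* F)
      left_inv := by
        intro A; apply Subtype.ext; ext i j
        simp
      right_inv := by
        intro A; apply Subtype.ext; ext i j
        simp
      map_mul' := map_mul _ }
  map_one' := by
    ext A : 1; apply Subtype.ext; ext i j; rfl
  map_mul' f g := by
    ext A : 1; apply Subtype.ext; ext i j; rfl

lemma fmap_coe (f : RingAut F) (A : SLn F) :
    ((fmap f A : SLn F) : Matrix (Fin 56) (Fin 56) F) = (A : Matrix (Fin 56) (Fin 56) F).map f :=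
  rfl

/-- Diagonal matrix with one entry `μ`. -/
def dg (μ : F) : Matrix (Fin 56) (Fin 56) F := Matrix.diagonal (fun i => if i = 0 then μ else 1)

lemma dg_mul (a b : F) : dg a * dg b = dg (a * b) := by
  unfold dg
  rw [Matrix.diagonal_mul_diagonal]
  congr 1
  ext i
  split_ifs <;> simp

lemma dg_one : dg (1 : F) = 1 := by
  unfold dg
  simp

lemma det_dg (a : F) : (dg a).det = a := by
  unfold dg
  rw [Matrix.det_diagonal, Finset.prod_ite_eq' Finset.univ 0]
  simp

lemma dg_map (f : RingAut F) (a : F) : (dg a).map f = dg (f a) := by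
  unfold dg
  rw [Matrix.diagonal_map (map_zero f)]
  congr 1
  ext i
  by_cases h : i = 0 <;> simp [h]

lemma map_mul_ra (f : RingAut F) (M N : Matrix (Fin 56) (Fin 56) F) :
    (M * N).map f = M.map f * N.map f := by
  ext i j
  simp only [Matrix.map_apply, Matrix.mul_apply]
  rw [map_sum]
  simp

/-- Conjugation by a diagonal matrix. -/
def cmap : Fˣ →* MulAut (SLn F) where
  toFun μ :=
    { toFun := fun A => ⟨dg (μ : F) * A * dg ((μ⁻¹ : Fˣ) : F), by
        rw [Matrix.det_mul, Matrix.det_mul, det_dg, det_dg, A.2]; simp⟩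
      invFun := fun A => ⟨dg ((μ⁻¹ : Fˣ) : F) * A * dg (μ : F), by
        rw [Matrix.det_mul, Matrix.det_mul, det_dg, det_dg, A.2]; simp⟩
      left_inv := by
        intro A; apply Subtype.ext
        change dg ((μ⁻¹ : Fˣ) : F) * (dg (μ : F) * A * dg ((μ⁻¹ : Fˣ) : F)) * dg (μ : F) = A
        rw [← mul_assoc, ← mul_assoc, dg_mul, mul_assoc, dg_mul]
        simp [dg_one]
      right_inv := by
        intro A; apply Subtype.ext
        change dg (μ : F) * (dg ((μ⁻¹ : Fˣ) : F) * A * dg (μ : F)) * dg ((μ⁻¹ : Fˣ) : F) = A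
        rw [← mul_assoc, ← mul_assoc, dg_mul, mul_assoc, dg_mul]
        simp [dg_one]
      map_mul' := by
        intro A B; apply Subtype.ext
        change dg (μ : F) * (A * B : Matrix (Fin 56) (Fin 56) F) * dg ((μ⁻¹ : Fˣ) : F) =
          (dg (μ : F) * A * dg ((μ⁻¹ : Fˣ) : F)) * (dg (μ : F) * B * dg ((μ⁻¹ : Fˣ) : F))
        have h : dg ((μ⁻¹ : Fˣ) : F) * dg (μ : F) = 1 := by
          rw [dg_mul]; simp [dg_one]
        calc dg (μ : F) * (A * B : Matrix (Fin 56) (Fin 56) F) * dg ((μ⁻¹ : Fˣ) : F)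
            = dg (μ : F) * A * 1 * B * dg ((μ⁻¹ : Fˣ) : F) := by
              simp only [mul_one, mul_assoc]
          _ = _ := by rw [← h]; simp only [mul_assoc] }
  map_one' := by
    ext A : 1; apply Subtype.ext
    change dg ((1 : Fˣ) : F) * A * dg ((1⁻¹ : Fˣ) : F) = A
    simp [dg_one]
  map_mul' μ ν := by
    ext A : 1; apply Subtype.ext
    change dg ((μ * ν : Fˣ) : F) * A * dg (((μ * ν)⁻¹ : Fˣ) : F) =
      dg (μ : F) * (dg (ν : F) * A * dg ((ν⁻¹ : Fˣ) : F)) * dg ((μ⁻¹ : Fˣ) : F)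
    have h1 : dg ((μ * ν : Fˣ) : F) = dg (μ : F) * dg (ν : F) := by rw [dg_mul]; simp
    have h2 : dg (((μ * ν)⁻¹ : Fˣ) : F) = dg ((ν⁻¹ : Fˣ) : F) * dg ((μ⁻¹ : Fˣ) : F) := by
      rw [dg_mul, _root_.mul_inv_rev]; simp
    rw [h1, h2]; simp only [mul_assoc]

lemma cmap_coe (μ : Fˣ) (A : SLn F) :
    ((cmap μ A : SLn F) : Matrix (Fin 56) (Fin 56) F) =
      dg (μ : F) * (A : Matrix (Fin 56) (Fin 56) F) * dg ((μ⁻¹ : Fˣ) : F) :=
  rfl

lemma fmap_cmap (f : RingAut F) (μ : Fˣ) :
    fmap f * cmap μ * (fmap f)⁻¹ = cmap (Units.map (f : F →* F) μ) := by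
  rw [mul_inv_eq_iff_eq_mul]
  ext A : 1
  apply Subtype.ext
  change (dg (μ : F) * (A : Matrix (Fin 56) (Fin 56) F) * dg ((μ⁻¹ : Fˣ) : F)).map f =
    dg (f (μ : F)) * ((A : Matrix (Fin 56) (Fin 56) F).map f) *
      dg (((Units.map (f : F →* F) μ)⁻¹ : Fˣ) : F)
  have h : (((Units.map (f : F →* F) μ)⁻¹ : Fˣ) : F) = f ((μ⁻¹ : Fˣ) : F) := by
    rw [← map_inv]; rfl
  rw [h]
  refine (map_mul_ra f _ _).trans ?_
  rw [dg_map]
  congr 1
  refine (map_mul_ra f _ _).trans ?_
  rw [dg_map]

/-- Automorphisms descend to the quotient by the centre. -/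
def pmap (G : Type*) [Group G] : MulAut G →* MulAut (G ⧸ Subgroup.center G) where
  toFun e := QuotientGroup.congr (Subgroup.center G) (Subgroup.center G) e
    (Subgroup.characteristic_iff_map_eq.1 inferInstance e)
  map_one' := by
    ext a : 1
    induction a using QuotientGroup.induction_on with
    | H a => rfl
  map_mul' e f := by
    ext a : 1
    induction a using QuotientGroup.induction_on with
    | H a => rfl

lemma pmap_mk (G : Type*) [Group G] (e : MulAut G) (a : G) :
    pmap G e (QuotientGroup.mk a) = QuotientGroup.mk (e a) := rfl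

lemma pow_iter (f : RingAut F) (h11 : ∀ a : F, f a = a ^ 11) (j : ℕ) (a : F) :
    (f ^ j) a = a ^ (11 ^ j) := by
  induction j with
  | zero => simp
  | succ j ih =>
    have h1 : (f ^ (j + 1)) a = f ((f ^ j) a) := by rw [pow_succ']; rfl
    rw [h1, ih, h11, ← pow_mul, pow_succ]

/-- The key matrix computation: no nontrivial element of the complement acts as an inner
automorphism modulo scalars. -/
theorem matrix_key [Finite F] (hcard : Nat.card F = 11 ^ 6) [CharP F 11]
    (ζ : Fˣ) (hζ : orderOf ζ = 28) (f : RingAut F) (h11 : ∀ a : F, f a = a ^ 11)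
    (i j : ℕ) (hi : i < 28) (hj : j < 6) (B : SLn F)
    (h : ∀ A : SLn F, ∃ r : F, dg ((ζ ^ i : Fˣ) : F) * (A : Matrix (Fin 56) (Fin 56) F).map (f ^ j) *
      dg (((ζ ^ i)⁻¹ : Fˣ) : F) = r • ((B : Matrix (Fin 56) (Fin 56) F) * A *
        ((B⁻¹ : SLn F) : Matrix (Fin 56) (Fin 56) F))) : i = 0 ∧ j = 0 := by
  set u : F := ((ζ ^ i : Fˣ) : F) with hu
  set v : F := (((ζ ^ i)⁻¹ : Fˣ) : F) with hv
  have huv : u * v = 1 := by rw [hu, hv]; simp
  have hvu : v * u = 1 := by rw [mul_comm]; exact huv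
  have hBB : (B : Matrix (Fin 56) (Fin 56) F) * ((B⁻¹ : SLn F) : Matrix (Fin 56) (Fin 56) F) = 1 := by
    rw [← Matrix.SpecialLinearGroup.coe_mul, mul_inv_cancel, Matrix.SpecialLinearGroup.coe_one]
  have hBB' : ((B⁻¹ : SLn F) : Matrix (Fin 56) (Fin 56) F) * (B : Matrix (Fin 56) (Fin 56) F) = 1 := by
    rw [← Matrix.SpecialLinearGroup.coe_mul, inv_mul_cancel, Matrix.SpecialLinearGroup.coe_one]
  have h56 : (56 : F) = 1 := by
    have : ((11 : ℕ) : F) = 0 := CharP.cast_eq_zero F 11
    have h2 : (56 : F) = 5 * ((11 : ℕ) : F) + 1 := by norm_num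
    rw [h2, this]; ring
  set C : Matrix (Fin 56) (Fin 56) F := dg v * (B : Matrix (Fin 56) (Fin 56) F) with hC
  -- the intertwining relation
  have hrel : ∀ (k l : Fin 56), k ≠ l → ∀ t : F,
      Matrix.single k l ((f ^ j) t) * C = C * Matrix.single k l t := by
    intro k l hkl t
    obtain ⟨r, hr⟩ := h (Matrix.SpecialLinearGroup.transvection hkl t)
    rw [Matrix.SpecialLinearGroup.transvection_coe] at hr
    have hmap : ((1 : Matrix (Fin 56) (Fin 56) F) + Matrix.single k l t).map (f ^ j) =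
        1 + Matrix.single k l ((f ^ j) t) := by
      ext a b
      simp only [Matrix.map_apply, Matrix.add_apply, map_add, Matrix.one_apply, Matrix.single_apply]
      congr 1 <;> split_ifs <;> simp
    rw [hmap] at hr
    have htr := congrArg Matrix.trace hr
    rw [Matrix.trace_mul_comm, ← mul_assoc, dg_mul, hvu, dg_one, one_mul, Matrix.trace_smul,
      Matrix.trace_mul_comm, ← mul_assoc, hBB', one_mul, Matrix.trace_add, Matrix.trace_add,
      Matrix.trace_single_eq_of_ne _ _ _ hkl, Matrix.trace_single_eq_of_ne _ _ _ hkl,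
      Matrix.trace_one] at htr
    simp only [Fintype.card_fin, Nat.cast_ofNat, add_zero, smul_eq_mul, h56, mul_one] at htr
    rw [← htr, one_smul] at hr
    -- hr : dg u * (1 + single) * dg v = B * (1 + single) * B⁻¹
    have h3 : dg v * (dg u * (1 + Matrix.single k l ((f ^ j) t)) * dg v) *
        (B : Matrix (Fin 56) (Fin 56) F) =
        dg v * ((B : Matrix (Fin 56) (Fin 56) F) * (1 + Matrix.single k l t) *
          ((B⁻¹ : SLn F) : Matrix (Fin 56) (Fin 56) F)) * (B : Matrix (Fin 56) (Fin 56) F) := by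
      rw [hr]
    have h4 : dg v * (dg u * (1 + Matrix.single k l ((f ^ j) t)) * dg v) *
        (B : Matrix (Fin 56) (Fin 56) F) = (1 + Matrix.single k l ((f ^ j) t)) * C := by
      rw [hC, ← mul_assoc, ← mul_assoc, dg_mul, hvu, dg_one, one_mul, mul_assoc]
    have h5 : dg v * ((B : Matrix (Fin 56) (Fin 56) F) * (1 + Matrix.single k l t) *
          ((B⁻¹ : SLn F) : Matrix (Fin 56) (Fin 56) F)) * (B : Matrix (Fin 56) (Fin 56) F) =
          C * (1 + Matrix.single k l t) := by
      rw [mul_assoc, mul_assoc, hBB', mul_one, ← mul_assoc]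
    rw [h4, h5, add_mul, mul_add, one_mul, mul_one] at h3
    exact add_left_cancel h3
  have hscal : C ∈ Set.range (Matrix.scalar (Fin 56)) := by
    rw [Matrix.mem_range_scalar_iff_commute_single]
    intro k l hkl
    have := hrel k l hkl 1
    rw [map_one] at this
    exact this
  obtain ⟨c, hc⟩ := hscal
  have hBC : (B : Matrix (Fin 56) (Fin 56) F) = dg u * C := by
    rw [hC, ← mul_assoc, dg_mul, huv, dg_one, one_mul]
  have hdet : u * c ^ 56 = 1 := by
    have h1 := B.2
    rw [hBC, Matrix.det_mul, det_dg, ← hc, Matrix.scalar_apply, Matrix.det_diagonal,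
      Finset.prod_const, Finset.card_univ, Fintype.card_fin] at h1
    exact h1
  have hc0 : c ≠ 0 := by
    rintro rfl
    simp at hdet
  have hfix : ∀ t : F, (f ^ j) t = t := by
    intro t
    have h1 := hrel 0 1 (by decide) t
    have h2 := congrFun (congrFun h1 0) 1
    rw [Matrix.single_mul_apply_same, Matrix.mul_single_apply_same, ← hc, Matrix.scalar_apply,
      Matrix.diagonal_apply_eq, Matrix.diagonal_apply_eq, mul_comm c t] at h2
    exact mul_right_cancel₀ hc0 h2
  have : Fintype F := Fintype.ofFinite F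
  have hcardU : Nat.card Fˣ = 11 ^ 6 - 1 := by
    rw [Nat.card_units, hcard]
  have hj0 : j = 0 := by
    obtain ⟨g0, hg0⟩ := IsCyclic.exists_ofOrder_eq_natCard (α := Fˣ)
    have h1 : (g0 : F) ^ (11 ^ j) = g0 := by
      rw [← pow_iter f h11 j]; exact hfix _
    have h2 : g0 ^ (11 ^ j) = g0 := by
      apply Units.ext; simpa using h1
    have hpos : 1 ≤ 11 ^ j := Nat.one_le_pow _ _ (by norm_num)
    have h3 : g0 ^ (11 ^ j - 1) = 1 := by
      have h4 : g0 ^ (11 ^ j - 1) * g0 = 1 * g0 := by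
        rw [← pow_succ, Nat.sub_add_cancel hpos, h2, one_mul]
      exact mul_right_cancel h4
    have h5 : 11 ^ 6 - 1 ∣ 11 ^ j - 1 := by
      rw [← hcardU, ← hg0]; exact orderOf_dvd_of_pow_eq_one h3
    interval_cases j <;> first | rfl | (exfalso; revert h5; decide)
  refine ⟨?_, hj0⟩
  -- the determinant condition
  set cu : Fˣ := Units.mk0 c hc0 with hcu
  have h1 : ζ ^ i * cu ^ 56 = 1 := by
    apply Units.ext
    rw [Units.val_mul, Units.val_pow_eq_pow_val cu, Units.val_one]
    exact hdet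
  have h2 : cu ^ 1568 = 1 := by
    have h3 : (ζ ^ i * cu ^ 56) ^ 28 = 1 := by rw [h1, one_pow]
    rw [mul_pow, ← pow_mul, ← pow_mul, mul_comm i 28, pow_mul, ← hζ, pow_orderOf_eq_one, one_pow,
      one_mul] at h3
    rw [hζ] at h3
    exact h3
  have h3 : cu ^ (11 ^ 6 - 1) = 1 := by
    rw [← hcardU]; exact pow_card_eq_one'
  have h4 : cu ^ 56 = 1 := by
    have h5 : orderOf cu ∣ Nat.gcd 1568 (11 ^ 6 - 1) :=
      Nat.dvd_gcd (orderOf_dvd_of_pow_eq_one h2) (orderOf_dvd_of_pow_eq_one h3)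
    have h6 : Nat.gcd 1568 (11 ^ 6 - 1) = 56 := by norm_num
    rw [h6] at h5
    exact orderOf_dvd_iff_pow_eq_one.1 h5
  rw [h4, mul_one] at h1
  have h5 : 28 ∣ i := by
    rw [← hζ]; exact orderOf_dvd_of_pow_eq_one h1
  omega

end Pool.Agent.V11268.SB
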