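import Mathlib

set_option linter.unusedSectionVars false

open CategoryTheory CategoryTheory.Limits CategoryTheory.MonoidalCategory

namespace V11268.TT

universe v u w

variable (k : Type w) [Field k] (C : Type u) [Category.{v} C] [Abelian C] [Linear k C]
  [MonoidalCategory C] [MonoidalPreadditive C] [MonoidalLinear k C] [RigidCategory C]
  [SymmetricCategory C]

/-- The finiteness conditions of a finite (symmetric) tensor category over `k`: finite-dimensional
hom spaces, objects of finite length, finitely many isomorphism classes of simple objects, enough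
projectives, and `End(𝟙) = k`. -/
structure IsFiniteTensorCategory : Prop where
  hom_finite : ∀ X Y : C, Module.Finite k (X ⟶ Y)
  artinian : ∀ X : C, IsArtinianObject X
  noetherian : ∀ X : C, IsNoetherianObject X
  simples : ∃ (n : ℕ) (S : Fin n → C), ∀ X : C, Simple X → ∃ i, Nonempty (X ≅ S i)
  enoughProjectives : EnoughProjectives C
  end_unit : Function.Bijective (algebraMap k (End (𝟙_ C)))

end V11268.TT

namespace V11268.TT

universe v u w

section
variable {C : Type u} [Category.{v} C] [Abelian C]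
  [MonoidalCategory C] [MonoidalPreadditive C] [RigidCategory C]

instance tensorLeft_preservesMono (X : C) : (tensorLeft X).PreservesMonomorphisms :=
  Functor.preservesMonomorphisms_of_adjunction (tensorLeftAdjunction X Xᘁ)

instance tensorRight_preservesMono (X : C) : (tensorRight X).PreservesMonomorphisms :=
  Functor.preservesMonomorphisms_of_adjunction (tensorRightAdjunction (ᘁX) X)

instance tensorLeft_preservesEpi (X : C) : (tensorLeft X).PreservesEpimorphisms :=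
  Functor.preservesEpimorphisms_of_adjunction (tensorLeftAdjunction (ᘁX) X)

instance tensorRight_preservesEpi (X : C) : (tensorRight X).PreservesEpimorphisms :=
  Functor.preservesEpimorphisms_of_adjunction (tensorRightAdjunction X Xᘁ)

instance mono_whiskerLeft (X : C) {Y Z : C} (f : Y ⟶ Z) [Mono f] : Mono (X ◁ f) :=
  inferInstanceAs (Mono ((tensorLeft X).map f))

instance mono_whiskerRight (X : C) {Y Z : C} (f : Y ⟶ Z) [Mono f] : Mono (f ▷ X) :=
  inferInstanceAs (Mono ((tensorRight X).map f))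

instance epi_whiskerLeft (X : C) {Y Z : C} (f : Y ⟶ Z) [Epi f] : Epi (X ◁ f) :=
  inferInstanceAs (Epi ((tensorLeft X).map f))

instance epi_whiskerRight (X : C) {Y Z : C} (f : Y ⟶ Z) [Epi f] : Epi (f ▷ X) :=
  inferInstanceAs (Epi ((tensorRight X).map f))

lemma coev_ne_zero {X : C} (hX : ¬ IsZero X) : η_ X Xᘁ ≠ 0 := by
  intro h
  apply hX
  rw [IsZero.iff_id_eq_zero]
  have h1 := ExactPairing.evaluation_coevaluation X Xᘁ
  rw [h] at h1
  simp only [MonoidalPreadditive.zero_whiskerRight, zero_comp] at h1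
  have h2 : (λ_ X).inv ≫ ((λ_ X).hom ≫ (ρ_ X).inv) ≫ (ρ_ X).hom = 0 := by
    rw [← h1]; simp
  simpa using h2

end

section
variable {k : Type w} [Field k] {C : Type u} [Category.{v} C] [Abelian C] [Linear k C]
  [MonoidalCategory C] [MonoidalPreadditive C] [MonoidalLinear k C] [RigidCategory C]

lemma unit_not_isZero (h : Function.Bijective (algebraMap k (End (𝟙_ C)))) :
    ¬ IsZero (𝟙_ C) := by
  intro hz
  have h1 : (1 : End (𝟙_ C)) = 0 := hz.eq_of_src _ _
  have h2 : algebraMap k (End (𝟙_ C)) 1 = algebraMap k (End (𝟙_ C)) 0 := by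
    rw [map_one, map_zero, h1]
  exact one_ne_zero (h.1 h2)

lemma isIso_of_ne_zero (h : Function.Bijective (algebraMap k (End (𝟙_ C))))
    (f : 𝟙_ C ⟶ 𝟙_ C) (hf : f ≠ 0) : IsIso f := by
  obtain ⟨c, hc⟩ := h.2 f
  have hc0 : c ≠ 0 := by
    rintro rfl
    apply hf
    rw [← hc, map_zero]
  have hc' : f = c • 𝟙 (𝟙_ C) := by
    rw [← hc, Algebra.algebraMap_eq_smul_one]
    rfl
  refine ⟨c⁻¹ • 𝟙 (𝟙_ C), ?_, ?_⟩
  · rw [hc']; simp [smul_smul, hc0]
  · rw [hc']; simp [smul_smul, hc0]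

/-- the dual of a morphism `X ⟶ 𝟙` -/
noncomputable def dualMap {X : C} (i : X ⟶ 𝟙_ C) : 𝟙_ C ⟶ Xᘁ :=
  η_ X Xᘁ ≫ (i ▷ Xᘁ) ≫ (λ_ Xᘁ).hom

lemma epi_dualMap {X : C} (i : X ⟶ 𝟙_ C) [Mono i] : Epi (dualMap i) := by
  apply Preadditive.epi_of_cancel_zero
  intro W h hw
  have h1 : (η_ X Xᘁ ≫ (X ◁ h)) ≫ (i ▷ W) = 0 := by
    have h2 : (η_ X Xᘁ ≫ (X ◁ h)) ≫ (i ▷ W) ≫ (λ_ W).hom = dualMap i ≫ h := by
      simp only [dualMap, Category.assoc]
      rw [whisker_exchange_assoc]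
      simp
    rw [hw] at h2
    rw [← Category.assoc] at h2
    exact (cancel_mono (λ_ W).hom).1 (by rw [h2, zero_comp])
  have h3 : η_ X Xᘁ ≫ (X ◁ h) = 0 := (cancel_mono (i ▷ W)).1 (by rw [h1, zero_comp])
  have h4 := (tensorLeftHomEquiv (𝟙_ C) X Xᘁ W).injective (a₁ := (ρ_ Xᘁ).hom ≫ h) (a₂ := 0) (by
    simp only [tensorLeftHomEquiv, Equiv.coe_fn_mk, comp_zero, MonoidalPreadditive.whiskerLeft_zero]
    have : (λ_ (𝟙_ C)).inv ≫ η_ X Xᘁ ▷ 𝟙_ C ≫ (α_ X Xᘁ (𝟙_ C)).hom ≫ X ◁ ((ρ_ Xᘁ).hom ≫ h)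
        = η_ X Xᘁ ≫ (X ◁ h) := by
      rw [MonoidalCategory.whiskerLeft_comp]
      have e1 : (α_ X Xᘁ (𝟙_ C)).hom ≫ X ◁ (ρ_ Xᘁ).hom ≫ X ◁ h
        = (ρ_ (X ⊗ Xᘁ)).hom ≫ X ◁ h := by
        rw [rightUnitor_tensor_hom, Category.assoc]
      rw [e1, rightUnitor_naturality_assoc, ← unitors_equal]
      simp
    rw [this, h3])
  exact (cancel_epi (ρ_ Xᘁ).hom).1 (by rw [h4, comp_zero])

theorem unit_simple [∀ X : C, IsArtinianObject X]
    (h : Function.Bijective (algebraMap k (End (𝟙_ C)))) : Simple (𝟙_ C) := by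
  obtain ⟨Y, hY⟩ := exists_simple_subobject (unit_not_isZero (C := C) h)
  let X : C := (Y : C)
  let i : X ⟶ 𝟙_ C := Y.arrow
  have : Mono i := inferInstanceAs (Mono Y.arrow)
  have : Simple X := hY
  have := epi_dualMap i
  let e : X ⟶ X ⊗ Xᘁ := (ρ_ X).inv ≫ X ◁ dualMap i
  have : Epi e := epi_comp _ _
  have hX : ¬ IsZero X := fun hz => Simple.not_isZero X hz
  have he : e ≠ 0 := by
    intro h0
    have hz : IsZero (X ⊗ Xᘁ) := by
      rw [IsZero.iff_id_eq_zero]
      exact (cancel_epi e).1 (by rw [h0, zero_comp, zero_comp])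
    exact coev_ne_zero hX (hz.eq_of_tgt _ _)
  have : IsIso e := isIso_of_epi_of_nonzero he
  let c : 𝟙_ C ⟶ X := η_ X Xᘁ ≫ inv e
  have hc : c ≠ 0 := by
    intro h0
    apply coev_ne_zero hX
    have : c ≫ e = η_ X Xᘁ := by simp [c]
    rw [← this, h0, zero_comp]
  have hci : c ≫ i ≠ 0 := by
    intro h0
    exact hc ((cancel_mono i).1 (by rw [h0, zero_comp]))
  have := isIso_of_ne_zero h (c ≫ i) hci
  have : IsIso i := by
    have : IsSplitEpi i := ⟨⟨⟨inv (c ≫ i) ≫ c, by simp⟩⟩⟩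
    exact isIso_of_mono_of_isSplitEpi i
  exact Simple.of_iso (asIso i).symm

theorem tensor_ne_zero [Simple (𝟙_ C)] {A B : C} (f : 𝟙_ C ⟶ A) (g : 𝟙_ C ⟶ B) (hf : f ≠ 0)
    (hg : g ≠ 0) : f ⊗ₘ g ≠ 0 := by
  have := mono_of_nonzero_from_simple hf
  have := mono_of_nonzero_from_simple hg
  intro h
  rw [MonoidalCategory.tensorHom_def] at h
  have : Mono (f ▷ 𝟙_ C ≫ A ◁ g) := mono_comp _ _
  have hz : IsZero (𝟙_ C ⊗ 𝟙_ C) := by
    rw [IsZero.iff_id_eq_zero]
    exact (cancel_mono (f ▷ 𝟙_ C ≫ A ◁ g)).1 (by rw [h, comp_zero, comp_zero])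
  exact Simple.not_isZero (𝟙_ C) (hz.of_iso (λ_ (𝟙_ C)).symm)

end

end V11268.TT
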