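import Mathlib
import Pool.Agent.V11268.TTUnit

set_option linter.unusedSectionVars false

open CategoryTheory CategoryTheory.Limits CategoryTheory.MonoidalCategory HomologicalComplex

namespace V11268.TT

universe v u w

section
variable {C : Type u} [Category.{v} C] [Abelian C]

/-- A bounded cochain complex. -/
class IsBdd (K : CochainComplex C ℤ) : Prop where
  out : ∃ a b : ℤ, ∀ n : ℤ, (n < a ∨ b < n) → IsZero (K.X n)

lemma hasCoproduct_of_finite {ι : Type*} (f : ι → C) (S : Set ι) (hS : S.Finite)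
    (h : ∀ i, i ∉ S → IsZero (f i)) : HasCoproduct f := by
  classical
  have : Finite S := hS
  let g : S → C := fun i => f i.1
  have hg : HasCoproduct g := inferInstance
  refine ⟨⟨⟨Cofan.mk (∐ g) (fun i => if hi : i ∈ S then Sigma.ι g ⟨i, hi⟩ else 0), ?_⟩⟩⟩
  refine Cofan.IsColimit.mk _ (fun s => (Limits.Sigma.desc (f := g) (fun i => s.inj i.1) : ∐ g ⟶ s.pt)) ?_ ?_
  · intro s j
    by_cases hj : j ∈ S
    · simp [hj, g]
    · exact (h j hj).eq_of_src _ _
  · intro s m hm
    refine Limits.Sigma.hom_ext (f := g) m _ ?_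
    rintro ⟨j, hj⟩
    have := hm j
    simp only [cofan_mk_inj, hj, dite_true] at this
    rw [this]
    simp [g]

variable [MonoidalCategory C] [MonoidalPreadditive C]

lemma isZero_tensor_left {X Y : C} (h : IsZero X) : IsZero (X ⊗ Y) := by
  rw [IsZero.iff_id_eq_zero] at h ⊢
  rw [← id_whiskerRight, h, MonoidalPreadditive.zero_whiskerRight]

lemma isZero_tensor_right {X Y : C} (h : IsZero Y) : IsZero (X ⊗ Y) := by
  rw [IsZero.iff_id_eq_zero] at h ⊢
  rw [← whiskerLeft_id, h, MonoidalPreadditive.whiskerLeft_zero]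

instance hasTensor_of_isBdd (K L : CochainComplex C ℤ) [hK : IsBdd K] [hL : IsBdd L] :
    HasTensor K L := by
  obtain ⟨a, b, hab⟩ := hK.out
  obtain ⟨a', b', hab'⟩ := hL.out
  intro n
  let T : Set ((ComplexShape.π (ComplexShape.up ℤ) (ComplexShape.up ℤ) (ComplexShape.up ℤ)) ⁻¹'
    ({n} : Set ℤ)) := Subtype.val ⁻¹' ((Set.Icc a b) ×ˢ (Set.Icc a' b'))
  refine hasCoproduct_of_finite _ T ?_ ?_
  · exact Set.Finite.preimage Subtype.val_injective.injOn
      ((Set.finite_Icc a b).prod (Set.finite_Icc a' b'))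
  · rintro ⟨⟨p, q⟩, hpq⟩ hi
    simp only [T, Set.mem_preimage, Set.mem_prod, Set.mem_Icc, not_and_or, not_le] at hi
    rcases hi with hi | hi
    · exact isZero_tensor_left (hab p hi)
    · exact isZero_tensor_right (hab' q hi)

/-- the object `A` placed in degree `0` -/
noncomputable abbrev sg (A : C) : CochainComplex C ℤ :=
  (HomologicalComplex.single C (ComplexShape.up ℤ) 0).obj A

instance isBdd_sg (A : C) : IsBdd (sg A) where
  out := ⟨0, 0, fun n hn => HomologicalComplex.isZero_single_obj_X _ _ _ _ (by omega)⟩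

lemma sg_d (A : C) (i j : ℤ) : (sg A).d i j = 0 := by simp

/-- the maps `K^i ⟶ opcycles^0` that vanish for `i ≠ 0` -/
noncomputable def pOp (K : CochainComplex C ℤ) (i : ℤ) : K.X i ⟶ K.opcycles 0 :=
  if h : i = 0 then (K.XIsoOfEq h).hom ≫ K.pOpcycles 0 else 0

lemma pOp_zero (K : CochainComplex C ℤ) : pOp K 0 = K.pOpcycles 0 := by
  simp [pOp]

lemma d_pOp (K : CochainComplex C ℤ) (i j : ℤ) : K.d i j ≫ pOp K j = 0 := by
  by_cases h : j = 0
  · subst h
    rw [pOp_zero]
    simp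
  · simp [pOp, h]

/-- the map `(K ⊗ L)^0 ⟶ opcycles^0 K ⊗ opcycles^0 L` -/
noncomputable def phi (K L : CochainComplex C ℤ) [HasTensor K L] (n : ℤ) :
    (tensorObj K L).X n ⟶ K.opcycles 0 ⊗ L.opcycles 0 :=
  mapBifunctorDesc (fun i j _ => pOp K i ⊗ₘ pOp L j)

lemma ι_phi (K L : CochainComplex C ℤ) [HasTensor K L] (i j n : ℤ) (h : i + j = n) :
    ιTensorObj K L i j n h ≫ phi K L n = pOp K i ⊗ₘ pOp L j := by
  simp [phi, ιTensorObj]

lemma d_phi (K L : CochainComplex C ℤ) [HasTensor K L] (m n : ℤ) :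
    (tensorObj K L).d m n ≫ phi K L n = 0 := by
  by_cases hmn : m + 1 = n
  · apply mapBifunctor.hom_ext
    intro i j h
    rw [mapBifunctor.d_eq, Preadditive.add_comp, Preadditive.comp_add, comp_zero,
      mapBifunctor.ι_D₁_assoc, mapBifunctor.ι_D₂_assoc]
    have h' : i + j = m := h
    rw [mapBifunctor.d₁_eq K L (curriedTensor C) (ComplexShape.up ℤ)
      (show (ComplexShape.up ℤ).Rel i (i + 1) from rfl) j n (show (i + 1) + j = n by omega),
      mapBifunctor.d₂_eq K L (curriedTensor C) (ComplexShape.up ℤ) i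
      (show (ComplexShape.up ℤ).Rel j (j + 1) from rfl) n (show i + (j + 1) = n by omega)]
    have e1 := ι_phi K L (i + 1) j n (by omega)
    have e2 := ι_phi K L i (j + 1) n (by omega)
    simp only [ιTensorObj] at e1 e2
    rw [Linear.units_smul_comp, Linear.units_smul_comp, Category.assoc, Category.assoc, e1, e2]
    have e3 : ((curriedTensor C).map (K.d i (i + 1))).app (L.X j) ≫ (pOp K (i + 1) ⊗ₘ pOp L j)
        = 0 := by
      simp only [curriedTensor_map_app]
      rw [← tensorHom_id, MonoidalCategory.tensorHom_comp_tensorHom, d_pOp]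
      simp
    have e4 : ((curriedTensor C).obj (K.X i)).map (L.d j (j + 1)) ≫ (pOp K i ⊗ₘ pOp L (j + 1))
        = 0 := by
      simp only [curriedTensor_obj_map]
      rw [← id_tensorHom, MonoidalCategory.tensorHom_comp_tensorHom, d_pOp]
      simp
    rw [e3, e4]
    simp
  · rw [(tensorObj K L).shape m n hmn, zero_comp]

lemma comp_pOpcycles_eq_zero {T U : CochainComplex C ℤ} (F : T ⟶ U) (hF : homologyMap F 0 = 0)
    {A : C} (k : A ⟶ T.X 0) (hk : k ≫ T.d 0 1 = 0) : k ≫ F.f 0 ≫ U.pOpcycles 0 = 0 := by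
  have h1 : k = T.liftCycles k 1 (by simp) hk ≫ T.iCycles 0 := by simp
  rw [h1, Category.assoc, ← cyclesMap_i_assoc, ← homology_π_ι, ← homologyπ_naturality_assoc, hF]
  simp

lemma homologyMap_eq_zero {T K : CochainComplex C ℤ} (a : T ⟶ K)
    (h : a.f 0 ≫ K.pOpcycles 0 = 0) : homologyMap a 0 = 0 := by
  rw [← cancel_mono (K.homologyι 0), zero_comp, homologyι_naturality]
  have : opcyclesMap a 0 = 0 := by
    rw [← cancel_epi (T.pOpcycles 0), p_opcyclesMap, h, comp_zero]
  rw [this, comp_zero]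

lemma tensor_sg_d (A B : C) (m n : ℤ) : (tensorObj (sg A) (sg B)).d m n = 0 := by
  by_cases hmn : m + 1 = n
  · apply mapBifunctor.hom_ext
    intro i j h
    rw [mapBifunctor.d_eq, Preadditive.comp_add, comp_zero,
      mapBifunctor.ι_D₁, mapBifunctor.ι_D₂]
    have h' : i + j = m := h
    rw [mapBifunctor.d₁_eq (sg A) (sg B) (curriedTensor C) (ComplexShape.up ℤ)
      (show (ComplexShape.up ℤ).Rel i (i + 1) from rfl) j n (show (i + 1) + j = n by omega),
      mapBifunctor.d₂_eq (sg A) (sg B) (curriedTensor C) (ComplexShape.up ℤ) i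
      (show (ComplexShape.up ℤ).Rel j (j + 1) from rfl) n (show i + (j + 1) = n by omega)]
    rw [sg_d, sg_d]
    simp
  · rw [(tensorObj (sg A) (sg B)).shape m n hmn]

variable [RigidCategory C] [Simple (𝟙_ C)]

/-- **Detection**: if `H^0(a ⊗ b) = 0` then `H^0(a) = 0` or `H^0(b) = 0`. -/
theorem detect (K L : CochainComplex C ℤ) [HasTensor K L] (a : sg (𝟙_ C) ⟶ K)
    (b : sg (𝟙_ C) ⟶ L) (h : homologyMap (tensorHom a b) 0 = 0) :
    homologyMap a 0 = 0 ∨ homologyMap b 0 = 0 := by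
  let e : (sg (𝟙_ C)).X 0 ≅ 𝟙_ C := singleObjXSelf (ComplexShape.up ℤ) 0 (𝟙_ C)
  have h1 := comp_pOpcycles_eq_zero (tensorHom a b) h
    (ιTensorObj (sg (𝟙_ C)) (sg (𝟙_ C)) 0 0 0 (by omega)) (by rw [tensor_sg_d, comp_zero])
  have h3 : (tensorObj K L).pOpcycles 0 ≫ (tensorObj K L).descOpcycles (phi K L 0) (-1)
      (by simp) (d_phi K L (-1) 0) = phi K L 0 := by simp
  have h2 : (ιTensorObj (sg (𝟙_ C)) (sg (𝟙_ C)) 0 0 0 (by omega) ≫ (tensorHom a b).f 0) ≫
      phi K L 0 = 0 := by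
    rw [← h3, ← Category.assoc, Category.assoc (ιTensorObj _ _ 0 0 0 _), h1, zero_comp]
  have h4 : ιTensorObj (sg (𝟙_ C)) (sg (𝟙_ C)) 0 0 0 (by omega) ≫ (tensorHom a b).f 0
      = (a.f 0 ⊗ₘ b.f 0) ≫ ιTensorObj K L 0 0 0 (by omega) := by
    rw [MonoidalCategory.tensorHom_def, Category.assoc]
    exact ι_mapBifunctorMap a b (curriedTensor C) (ComplexShape.up ℤ) 0 0 0 (by rfl)
  rw [h4, Category.assoc, ι_phi, pOp_zero, pOp_zero, MonoidalCategory.tensorHom_comp_tensorHom]
    at h2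
  have h5 : (e.inv ≫ a.f 0 ≫ K.pOpcycles 0) ⊗ₘ (e.inv ≫ b.f 0 ≫ L.pOpcycles 0) = 0 := by
    rw [← MonoidalCategory.tensorHom_comp_tensorHom, h2, comp_zero]
  by_cases ha : e.inv ≫ a.f 0 ≫ K.pOpcycles 0 = 0
  · left
    apply homologyMap_eq_zero
    exact (cancel_epi e.inv).1 (by rw [ha, comp_zero])
  · right
    apply homologyMap_eq_zero
    by_contra hb
    refine tensor_ne_zero _ _ ha (fun hb' => hb ?_) h5
    exact (cancel_epi e.inv).1 (by rw [hb', comp_zero])

end

section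
variable {C : Type u} [Category.{v} C] [Abelian C] [MonoidalCategory C] [MonoidalPreadditive C]
  [RigidCategory C]

theorem exists_lift (K : CochainComplex C ℤ) {A P : C} (a0 : A ⟶ K.X 0)
    (h : a0 ≫ K.pOpcycles 0 = 0) [Projective (A ⊗ P)] :
    ∃ ψ : A ⊗ P ⟶ K.X (-1) ⊗ P, ψ ≫ (K.d (-1) 0 ▷ P) = a0 ▷ P := by
  let S : ShortComplex C := ShortComplex.mk (K.d (-1) 0) (K.pOpcycles 0) (by simp)
  have hS : S.Exact := S.exact_of_g_is_cokernel (K.opcyclesIsCokernel (-1) 0 (by simp))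
  let d' : K.X (-1) ⟶ kernel (K.pOpcycles 0) :=
    kernel.lift (K.pOpcycles 0) (K.d (-1) 0) (by simp)
  have hd' : Epi d' := (ShortComplex.exact_iff_epi_kernel_lift S).1 hS
  let l : A ⟶ kernel (K.pOpcycles 0) := kernel.lift (K.pOpcycles 0) a0 h
  refine ⟨Projective.factorThru (l ▷ P) (d' ▷ P), ?_⟩
  have e1 : K.d (-1) 0 = d' ≫ kernel.ι _ := by simp [d']
  have e2 : a0 = l ≫ kernel.ι _ := by simp [l]
  rw [e1, e2, comp_whiskerRight, comp_whiskerRight, Projective.factorThru_comp_assoc]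

/-- the projection onto degree zero -/
noncomputable def prz (K : CochainComplex C ℤ) (i : ℤ) : K.X i ⟶ K.X 0 :=
  if h : i = 0 then (K.XIsoOfEq h).hom else 0

lemma prz_zero (K : CochainComplex C ℤ) : prz K 0 = 𝟙 _ := by simp [prz]

lemma isZero_tensor_X (A B : C) (n : ℤ) (hn : n ≠ 0) :
    IsZero ((tensorObj (sg A) (sg B)).X n) := by
  rw [IsZero.iff_id_eq_zero]
  apply mapBifunctor.hom_ext
  intro i j h
  have h' : i + j = n := h
  by_cases hi : i = 0
  · have hj : j ≠ 0 := by omega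
    have : IsZero ((sg A).X i ⊗ (sg B).X j) :=
      isZero_tensor_right (HomologicalComplex.isZero_single_obj_X _ _ _ _ hj)
    exact this.eq_of_src _ _
  · have : IsZero ((sg A).X i ⊗ (sg B).X j) :=
      isZero_tensor_left (HomologicalComplex.isZero_single_obj_X _ _ _ _ hi)
    exact this.eq_of_src _ _

theorem nullHomotopic (K : CochainComplex C ℤ) (a : sg (𝟙_ C) ⟶ K)
    (h : homologyMap a 0 = 0) (P : C) [Projective P] [HasTensor K (sg P)] :
    Nonempty (Homotopy (tensorHom a (𝟙 (sg P))) 0) := by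
  have hproj : Projective ((sg (𝟙_ C)).X 0 ⊗ (sg P).X 0) := by
    refine Projective.of_iso (P := P) ?_ inferInstance
    exact (((singleObjXSelf (ComplexShape.up ℤ) 0 (𝟙_ C)) ⊗ᵢ
      (singleObjXSelf (ComplexShape.up ℤ) 0 P)) ≪≫ λ_ P).symm
  have h0 : a.f 0 ≫ K.pOpcycles 0 = 0 := by
    have := comp_pOpcycles_eq_zero a h (𝟙 ((sg (𝟙_ C)).X 0)) (by rw [sg_d, comp_zero])
    simpa using this
  obtain ⟨ψ, hψ⟩ := exists_lift K (P := (sg P).X 0) (a.f 0) h0
  let T := tensorObj (sg (𝟙_ C)) (sg P)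
  let U := tensorObj K (sg P)
  let H : T.X 0 ⟶ U.X (-1) := mapBifunctorDesc (fun i j _ =>
    (prz (sg (𝟙_ C)) i ⊗ₘ prz (sg P) j) ≫ ψ ≫ ιTensorObj K (sg P) (-1) 0 (-1) (by omega))
  have hH : H ≫ U.d (-1) 0 = (tensorHom a (𝟙 (sg P))).f 0 := by
    apply mapBifunctor.hom_ext
    intro i j hij
    have hij' : i + j = 0 := hij
    by_cases hi : i = 0
    · subst hi
      obtain rfl : j = 0 := by omega
      have e1 : ιMapBifunctor (sg (𝟙_ C)) (sg P) (curriedTensor C) (ComplexShape.up ℤ) 0 0 0 hij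
          ≫ H = ψ ≫ ιTensorObj K (sg P) (-1) 0 (-1) (by omega) := by
        simp only [H, ι_mapBifunctorDesc, prz_zero]
        simp
      have e2 : ιTensorObj K (sg P) (-1) 0 (-1) (by omega) ≫ U.d (-1) 0
          = (K.d (-1) 0 ▷ (sg P).X 0) ≫ ιTensorObj K (sg P) 0 0 0 (by omega) := by
        rw [mapBifunctor.d_eq, Preadditive.comp_add,
          mapBifunctor.ι_D₁, mapBifunctor.ι_D₂]
        rw [mapBifunctor.d₁_eq K (sg P) (curriedTensor C) (ComplexShape.up ℤ)
          (show (ComplexShape.up ℤ).Rel (-1) 0 from rfl) 0 0 (by rfl),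
          mapBifunctor.d₂_eq K (sg P) (curriedTensor C) (ComplexShape.up ℤ) (-1)
          (show (ComplexShape.up ℤ).Rel 0 1 from rfl) 0 (by rfl)]
        rw [sg_d]
        simp only [Functor.map_zero, zero_comp, smul_zero, add_zero]
        have : ComplexShape.ε₁ (ComplexShape.up ℤ) (ComplexShape.up ℤ) (ComplexShape.up ℤ)
          ((-1 : ℤ), (0 : ℤ)) = 1 := rfl
        rw [this, one_smul]
        rfl
      rw [reassoc_of% e1, ι_mapBifunctorMap, e2, reassoc_of% hψ]
      simp only [HomologicalComplex.id_f, CategoryTheory.Functor.map_id, Category.id_comp]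
      rfl
    · have : IsZero ((sg (𝟙_ C)).X i ⊗ (sg P).X j) :=
        isZero_tensor_left (HomologicalComplex.isZero_single_obj_X _ _ _ _ hi)
      exact this.eq_of_src _ _
  refine ⟨{ hom := fun i j => if h : i = 0 ∧ j = -1 then
              (T.XIsoOfEq h.1).hom ≫ H ≫ (U.XIsoOfEq h.2.symm).hom else 0
            zero := ?_
            comm := ?_ }⟩
  · intro i j hij
    rw [dif_neg]
    rintro ⟨rfl, rfl⟩
    exact hij (by simp)
  · intro i
    by_cases hi : i = 0
    · subst hi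
      rw [dNext_eq _ (show (ComplexShape.up ℤ).Rel 0 1 from rfl),
        prevD_eq _ (show (ComplexShape.up ℤ).Rel (-1) 0 from rfl)]
      simp only [tensor_sg_d, zero_comp, zero_add, and_self, dite_true]
      rw [← hH]
      simp only [XIsoOfEq_rfl, Iso.refl_hom, Category.comp_id, Category.assoc, zero_f, add_zero,
        HomologicalComplex.zero_f]
      exact (Category.id_comp _).symm
    · exact (isZero_tensor_X _ _ i hi).eq_of_src _ _

end

end V11268.TT
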