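import Mathlib
import Pool.Agent.V11268.LucasFib

set_option autoImplicit false

namespace Pool.Agent.V11268.LucasTwoPow

open Polynomial IntermediateField Pool.Agent.V11268.LucasFib

theorem exists_z (θ : ℂ) : ∃ z : ℂ, z ≠ 0 ∧ z - z⁻¹ = θ := by
  obtain ⟨s, hs⟩ := IsAlgClosed.exists_pow_nat_eq (θ ^ 2 + 4) (n := 2) (by norm_num)
  have h1 : ((θ + s) / 2) * ((s - θ) / 2) = 1 := by linear_combination hs / 4
  have h0 : (θ + s) / 2 ≠ 0 := left_ne_zero_of_mul_eq_one h1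
  refine ⟨(θ + s) / 2, h0, ?_⟩
  have h2 : ((θ + s) / 2)⁻¹ = (s - θ) / 2 := by
    symm
    exact eq_inv_of_mul_eq_one_right h1
  rw [h2]; ring

theorem ext_aeval {p q : ℤ[X]} (h : ∀ θ : ℂ, aeval θ p = aeval θ q) : p = q := by
  have hinj : Function.Injective (algebraMap ℤ ℂ) := by
    intro a b hab
    simpa using hab
  apply Polynomial.map_injective _ hinj
  apply Polynomial.funext
  intro r
  rw [eval_map_algebraMap, eval_map_algebraMap]
  exact h r

theorem L_two_mul (m : ℕ) : L (2 * m) = L m ^ 2 - 2 * (-1) ^ m := by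
  apply ext_aeval
  intro θ
  obtain ⟨z, hz, rfl⟩ := exists_z θ
  rw [map_sub, map_mul, map_pow, map_pow, map_neg, map_one, map_ofNat, aeval_L z hz, aeval_L z hz]
  have h : z * (-z⁻¹) = -1 := by rw [mul_neg, mul_inv_cancel₀ hz]
  have h2 : z ^ m * (-z⁻¹) ^ m = (-1) ^ m := by rw [← mul_pow, h]
  rw [mul_comm 2 m, pow_mul, pow_mul]
  linear_combination -2 * h2

theorem F_add (m n : ℕ) : F (m + n + 1) = F m * F n + F (m + 1) * F (n + 1) := by
  induction n using Nat.twoStepInduction with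
  | zero => rw [F, F]; ring_nf
  | one => rw [show m + 1 + 1 = m + 2 from rfl, F, F, F, F, F]; ring
  | more n ih1 ih2 =>
    rw [show m + (n + 2) + 1 = (m + n + 1) + 2 by ring, F]
    rw [show m + (n + 1) + 1 = m + n + 1 + 1 by ring] at ih2
    have e1 : F (n + 2) = X * F (n + 1) + F n := by rw [F]
    have e2 : F (n + 2 + 1) = X * F (n + 2) + F (n + 1) := by
      rw [show n + 2 + 1 = (n + 1) + 2 from rfl, F]
    rw [ih1, ih2, e2, show n + 1 + 1 = n + 2 from rfl]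
    linear_combination (- F m) * e1

theorem L_succ (n : ℕ) : L (n + 1) = F n + F (n + 2) := by
  induction n using Nat.twoStepInduction with
  | zero => rw [L, F, F, F, F]; ring
  | one => simp only [L, F]; ring
  | more n ih1 ih2 =>
    rw [show n + 2 + 1 = (n + 1) + 2 from rfl, L, ih1, ih2, show n + 2 + 2 = (n + 2) + 2 from rfl, F,
      F]
    simp only [F]
    ring

theorem F_two_mul (m : ℕ) : F (2 * m) = F m * L m := by
  rcases Nat.eq_zero_or_pos m with rfl | hm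
  · rw [mul_zero, F, zero_mul]
  · obtain ⟨k, rfl⟩ := Nat.exists_eq_add_of_le' hm
    rw [show 2 * (k + 1) = k + (k + 1) + 1 by ring, F_add, L_succ]
    ring

theorem L_two_pow (j : ℕ) : ∃ G : ℤ[X], L (2 ^ (j + 1)) = X ^ (2 ^ (j + 1)) + C 2 * G ∧
    G.natDegree < 2 ^ (j + 1) ∧ G.coeff 0 = 1 := by
  induction j with
  | zero =>
    refine ⟨1, ?_, by simp, by simp⟩
    simp only [zero_add, pow_one, L, map_ofNat]
    ring
  | succ j ih =>
    obtain ⟨G, h1, h2, h3⟩ := ih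
    refine ⟨C 2 * (X ^ (2 ^ (j + 1)) * G + G ^ 2) - 1, ?_, ?_, ?_⟩
    · rw [pow_succ 2 (j + 1), mul_comm _ 2, L_two_mul, h1]
      have he : Even (2 ^ (j + 1)) := by
        rw [pow_succ]; exact Nat.even_mul.mpr (Or.inr even_two)
      rw [he.neg_one_pow]
      have : (C 2 : ℤ[X]) = 2 := rfl
      rw [this]; ring
    · have hlt : (C 2 * (X ^ (2 ^ (j + 1)) * G + G ^ 2) - 1 : ℤ[X]).natDegree ≤
          2 ^ (j + 1) + G.natDegree := by
        refine (natDegree_sub_le _ _).trans (max_le ?_ (by simp))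
        refine (natDegree_C_mul_le _ _).trans ?_
        refine (natDegree_add_le _ _).trans (max_le ?_ ?_)
        · exact natDegree_mul_le.trans (by simp)
        · exact natDegree_pow_le.trans (by omega)
      have : 2 ^ (j + 1 + 1) = 2 ^ (j + 1) + 2 ^ (j + 1) := by ring
      omega
    · rw [coeff_sub, coeff_C_mul, coeff_add, coeff_one_zero]
      have e1 : (X ^ (2 ^ (j + 1)) * G : ℤ[X]).coeff 0 = 0 := by
        rw [mul_coeff_zero, coeff_X_pow, if_neg (by positivity), zero_mul]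
      have e2 : (G ^ 2).coeff 0 = 1 := by rw [sq, mul_coeff_zero, h3]; norm_num
      rw [e1, e2]; norm_num

theorem L_monic (j : ℕ) : (L (2 ^ (j + 1))).Monic ∧ (L (2 ^ (j + 1))).natDegree = 2 ^ (j + 1) := by
  obtain ⟨G, h1, h2, -⟩ := L_two_pow j
  have hd : (C 2 * G : ℤ[X]).degree < ((2 ^ (j + 1) : ℕ) : WithBot ℕ) := by
    refine lt_of_le_of_lt degree_le_natDegree ?_
    exact_mod_cast lt_of_le_of_lt (natDegree_C_mul_le _ _) h2
  constructor
  · rw [h1]; exact monic_X_pow_add hd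
  · rw [h1]
    have := natDegree_X_pow (R := ℤ) (2 ^ (j + 1))
    rw [natDegree_add_eq_left_of_natDegree_lt, this]
    rw [this]
    exact lt_of_le_of_lt (natDegree_C_mul_le _ _) h2

theorem L_eisenstein (j : ℕ) : (L (2 ^ (j + 1))).IsEisensteinAt (Submodule.span ℤ {(2 : ℤ)}) := by
  obtain ⟨G, h1, h2, h3⟩ := L_two_pow j
  obtain ⟨hm, hd⟩ := L_monic j
  refine ⟨?_, ?_, ?_⟩
  · rw [hm.leadingCoeff]
    intro h
    have := Ideal.mem_span_singleton.mp h
    norm_num at this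
  · intro n hn
    rw [hd] at hn
    rw [h1, coeff_add, coeff_X_pow, if_neg (by omega), zero_add, coeff_C_mul]
    exact Ideal.mem_span_singleton.mpr (dvd_mul_right _ _)
  · rw [h1, coeff_add, coeff_X_pow, if_neg (by positivity), zero_add, coeff_C_mul, h3]
    change _ ∉ (Ideal.span {(2 : ℤ)}) ^ 2
    rw [Ideal.span_singleton_pow, Ideal.mem_span_singleton]
    norm_num

theorem L_irreducible (j : ℕ) : Irreducible (L (2 ^ (j + 1))) := by
  refine (L_eisenstein j).irreducible ?_ (L_monic j).1.isPrimitive ?_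
  · exact (Ideal.span_singleton_prime (by norm_num)).mpr Int.prime_two
  · rw [(L_monic j).2]; positivity

/-- Roots of `L (2 ^ j)`, `j ≥ 1`, generate the full ring of integers of their field. -/
theorem mem_adjoin_of_root (j : ℕ) (θ : ℂ) (hθ : aeval θ (L (2 ^ (j + 1))) = 0) :
    ∀ x ∈ ℚ⟮θ⟯, IsIntegral ℤ x → x ∈ Algebra.adjoin ℤ {θ} := by
  intro x hx hxint
  obtain ⟨z, hz, hzθ⟩ := exists_z θ
  have h1 : z ^ (2 ^ (j + 1)) + (-z⁻¹) ^ (2 ^ (j + 1)) = 0 := by
    rw [← aeval_L z hz, hzθ, hθ]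
  have he : Even (2 ^ (j + 1)) := by
    rw [pow_succ]; exact Nat.even_mul.mpr (Or.inr even_two)
  rw [he.neg_pow, inv_pow] at h1
  have hneg : z ^ (2 ^ (j + 2)) = -1 := by
    have h2 : z ^ (2 ^ (j + 1)) ≠ 0 := pow_ne_zero _ hz
    have h3 : z ^ (2 ^ (j + 2)) = z ^ (2 ^ (j + 1)) * z ^ (2 ^ (j + 1)) := by
      rw [← pow_add]; congr 1; ring
    rw [h3]
    have h4 : z ^ (2 ^ (j + 1)) * (z ^ (2 ^ (j + 1)))⁻¹ = 1 := mul_inv_cancel₀ h2
    linear_combination z ^ (2 ^ (j + 1)) * h1 - h4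
  have hprim : IsPrimitiveRoot z (2 ^ (j + 2 + 1)) := by
    have ho : orderOf z = 2 ^ (j + 2 + 1) := by
      refine orderOf_eq_prime_pow ?_ ?_
      · rw [hneg]; norm_num
      · rw [pow_succ 2 (j + 2), pow_mul, hneg]; norm_num
    rw [← ho]
    exact IsPrimitiveRoot.orderOf z
  have hzint : IsIntegral ℤ z := hprim.isIntegral (by positivity)
  obtain ⟨m, hm⟩ : ∃ m, m = 2 ^ (j + 2) - 1 := ⟨_, rfl⟩
  have hpos : 4 ≤ 2 ^ (j + 2) := by
    calc 4 = 2 ^ 2 := by norm_num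
      _ ≤ 2 ^ (j + 2) := Nat.pow_le_pow_right (by norm_num) (by omega)
  have hevN : Even (2 ^ (j + 2)) := by
    rw [pow_succ]; exact Nat.even_mul.mpr (Or.inr even_two)
  have hmodd : Odd m := by
    obtain ⟨k, hk⟩ := hevN
    exact ⟨k - 1, by omega⟩
  have hzm : z ^ m = -z⁻¹ := by
    have h2 : z ^ m * z = -1 := by
      rw [← pow_succ, hm, Nat.sub_add_cancel (by omega), hneg]
    have h3 : z * z⁻¹ = 1 := mul_inv_cancel₀ hz
    linear_combination z⁻¹ * h2 - z ^ m * h3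
  have hcop : Nat.Coprime m (2 ^ (j + 2 + 1)) :=
    Nat.Coprime.pow_right _ (Nat.coprime_two_right.mpr hmodd)
  -- `x` is an integral polynomial in `z`
  have hθz : θ ∈ ℚ⟮z⟯ := by
    rw [← hzθ]
    exact sub_mem (mem_adjoin_simple_self ℚ z) (inv_mem (mem_adjoin_simple_self ℚ z))
  have hxz : x ∈ ℚ⟮z⟯ := (adjoin_simple_le_iff.mpr hθz) hx
  have hp : ∃ p : ℤ[X], aeval z p = x := by
    have : IsCyclotomicExtension {2 ^ (j + 2 + 1)} ℚ ℚ⟮z⟯ := by
      change IsCyclotomicExtension {2 ^ (j + 2 + 1)} ℚ (ℚ⟮z⟯).toSubalgebra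
      rw [adjoin_simple_toSubalgebra_of_isAlgebraic hzint.tower_top.isAlgebraic]
      exact hprim.adjoin_isCyclotomicExtension ℚ
    have hgen : IsPrimitiveRoot (AdjoinSimple.gen ℚ z) (2 ^ (j + 2 + 1)) := by
      refine IsPrimitiveRoot.of_map_of_injective (f := algebraMap ℚ⟮z⟯ ℂ) ?_
        (algebraMap ℚ⟮z⟯ ℂ).injective
      rw [AdjoinSimple.algebraMap_gen]
      exact hprim
    have : NumberField ℚ⟮z⟯ := by
      have : FiniteDimensional ℚ ℚ⟮z⟯ := adjoin.finiteDimensional hzint.tower_top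
      exact { to_charZero := inferInstance, to_finiteDimensional := inferInstance }
    have hcl := IsCyclotomicExtension.Rat.isIntegralClosure_adjoin_singleton_of_prime_pow
      (p := 2) (k := j + 2 + 1) hgen
    have hxi : IsIntegral ℤ (⟨x, hxz⟩ : ℚ⟮z⟯) :=
      (isIntegral_algebraMap_iff (algebraMap ℚ⟮z⟯ ℂ).injective).mp hxint
    obtain ⟨⟨y, hymem⟩, hy⟩ := hcl.isIntegral_iff.mp hxi
    have hy2 := hymem
    rw [Algebra.adjoin_singleton_eq_range_aeval] at hy2
    obtain ⟨p, hp⟩ := hy2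
    refine ⟨p, ?_⟩
    have h2 : aeval (AdjoinSimple.gen ℚ z) p = (⟨x, hxz⟩ : ℚ⟮z⟯) := by
      rw [← hy]; exact hp
    have h3 := congrArg (algebraMap ℚ⟮z⟯ ℂ) h2
    rw [← aeval_algebraMap_apply, AdjoinSimple.algebraMap_gen] at h3
    exact h3
  obtain ⟨p, hp⟩ := hp
  have hθint : IsIntegral ℤ θ := by
    rw [← hzθ]
    exact hzint.sub (hprim.inv.isIntegral (by positivity))
  have hr : ∃ r : ℚ[X], aeval θ r = x := by
    have h2 : x ∈ (ℚ⟮θ⟯).toSubalgebra := hx
    rw [adjoin_simple_toSubalgebra_of_isAlgebraic hθint.tower_top.isAlgebraic,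
      Algebra.adjoin_singleton_eq_range_aeval] at h2
    obtain ⟨r, hr⟩ := h2
    exact ⟨r, hr⟩
  obtain ⟨r, hr⟩ := hr
  -- the conjugation `z ↦ - z⁻¹` fixes `x`
  have hx2 : aeval (-z⁻¹) p = x := by
    have hQ : aeval z (p.map (algebraMap ℤ ℚ) - r.comp (X + X ^ m)) = 0 := by
      rw [map_sub, aeval_map_algebraMap, hp, aeval_comp, map_add, map_pow, aeval_X, hzm,
        ← sub_eq_add_neg, hzθ, hr, sub_self]
    have hmin : minpoly ℚ (z ^ m) = minpoly ℚ z := by
      rw [minpoly.isIntegrallyClosed_eq_field_fractions' ℚ hzint,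
        minpoly.isIntegrallyClosed_eq_field_fractions' ℚ (hzint.pow m),
        ← hprim.minpoly_eq_pow_coprime hcop]
    have hdvd : minpoly ℚ (z ^ m) ∣ p.map (algebraMap ℤ ℚ) - r.comp (X + X ^ m) := by
      rw [hmin]; exact minpoly.dvd ℚ z hQ
    have h3 := aeval_eq_zero_of_dvd_aeval_eq_zero hdvd (minpoly.aeval ℚ (z ^ m))
    rw [map_sub, aeval_map_algebraMap, aeval_comp, map_add, map_pow, aeval_X] at h3
    have h4 : (z ^ m) ^ m = z := by
      rw [hzm, hmodd.neg_pow, inv_pow, hzm]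
      rw [inv_neg, inv_inv, neg_neg]
    rw [h4, hzm] at h3
    have h5 : -z⁻¹ + z = θ := by rw [← hzθ]; ring
    rw [h5, hr] at h3
    exact sub_eq_zero.mp h3
  have h2x : 2 * x ∈ Algebra.adjoin ℤ {θ} := by
    have h3 : 2 * x = aeval z p + aeval (-z⁻¹) p := by rw [hp, hx2]; ring
    rw [h3, aeval_eq_sum_range, aeval_eq_sum_range, ← Finset.sum_add_distrib]
    refine Subalgebra.sum_mem _ fun i _ => ?_
    rw [← smul_add, ← aeval_L z hz, hzθ]
    refine Subalgebra.smul_mem _ ?_ _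
    rw [Algebra.adjoin_singleton_eq_range_aeval]
    exact ⟨_, rfl⟩
  -- Eisenstein at `2`
  let B := adjoin.powerBasis (K := ℚ) (x := θ) hθint.tower_top
  have hBgen : B.gen = AdjoinSimple.gen ℚ θ := adjoin.powerBasis_gen _
  have hgenint : IsIntegral ℤ (AdjoinSimple.gen ℚ θ) := by
    refine (isIntegral_algebraMap_iff (algebraMap ℚ⟮θ⟯ ℂ).injective).mp ?_
    rw [AdjoinSimple.algebraMap_gen]
    exact hθint
  have hmin : minpoly ℤ (AdjoinSimple.gen ℚ θ) = L (2 ^ (j + 1)) := by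
    have hroot : aeval (AdjoinSimple.gen ℚ θ) (L (2 ^ (j + 1))) = 0 := by
      apply (algebraMap ℚ⟮θ⟯ ℂ).injective
      rw [← aeval_algebraMap_apply, AdjoinSimple.algebraMap_gen, hθ, map_zero]
    have hdvd := minpoly.isIntegrallyClosed_dvd hgenint hroot
    have hass := (L_irreducible j).dvd_iff.mp hdvd
    rcases hass with h | h
    · exact absurd h (minpoly.not_isUnit ℤ _)
    · exact (eq_of_monic_of_associated (L_monic j).1 (minpoly.monic hgenint) h).symm
  have hmem : ∀ y : ℚ⟮θ⟯, y ∈ Algebra.adjoin ℤ {AdjoinSimple.gen ℚ θ} ↔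
      (y : ℂ) ∈ Algebra.adjoin ℤ {θ} := by
    intro y
    rw [Algebra.adjoin_singleton_eq_range_aeval, Algebra.adjoin_singleton_eq_range_aeval]
    constructor
    · rintro ⟨q, hq⟩
      refine ⟨q, ?_⟩
      have h3 := congrArg (algebraMap ℚ⟮θ⟯ ℂ) hq
      change algebraMap ℚ⟮θ⟯ ℂ (aeval _ q) = _ at h3
      rw [← aeval_algebraMap_apply, AdjoinSimple.algebraMap_gen] at h3
      exact h3
    · rintro ⟨q, hq⟩
      refine ⟨q, ?_⟩
      apply (algebraMap ℚ⟮θ⟯ ℂ).injective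
      change algebraMap ℚ⟮θ⟯ ℂ (aeval _ q) = _
      rw [← aeval_algebraMap_apply, AdjoinSimple.algebraMap_gen]
      exact hq
  have hxi : IsIntegral ℤ (⟨x, hx⟩ : ℚ⟮θ⟯) :=
    (isIntegral_algebraMap_iff (algebraMap ℚ⟮θ⟯ ℂ).injective).mp hxint
  have hfin := mem_adjoin_of_smul_prime_smul_of_minpoly_isEisensteinAt (R := ℤ) (B := B)
    (p := (2 : ℤ)) Int.prime_two (by rw [hBgen]; exact hgenint) hxi
    (by
      rw [hBgen, hmem]
      have : (((2 : ℤ) • (⟨x, hx⟩ : ℚ⟮θ⟯) : ℚ⟮θ⟯) : ℂ) = 2 * x := by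
        simp
      rw [this]
      exact h2x)
    (by rw [hBgen, hmin]; exact L_eisenstein j)
  rw [hBgen, hmem] at hfin
  exact hfin

end Pool.Agent.V11268.LucasTwoPow
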