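import Pool.Agent.V11268.PerTower

set_option autoImplicit false

/-!
# Rational numbers of the form `c ^ (t ^ b)`

Let `c ≠ 1` be a positive real number, `t` a positive transcendental number and `b` rational.
If `b₁, b₂, b₃, b₄` are exponents with `b₁ + b₄ = b₂ + b₃`, `b₁ ≠ b₂`, `b₁ ≠ b₃`, for which the four
numbers `c ^ (t ^ bᵢ)` are rational, then the matrix of their logarithms is a counterexample to the
four exponentials conjecture for rational numbers (part (0)).  So this conjecture predicts that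
the exponents `b` with rational `c ^ (t ^ b)` form a Sidon set.  The other parts say what is true
without any hypothesis.
-/

namespace Pool.Agent.Results.MP_bbc1fa_nt.GeometricProgressions

open V11268.PerG
open scoped Pointwise

lemma rel {t : ℝ} (h0 : 0 < t) (ht : Transcendental ℚ (t : ℂ)) {k l : ℚ} (hkl : k ≠ l)
    {r s : ℚ} (h : (r : ℝ) * t ^ (k : ℝ) + s * t ^ (l : ℝ) = 0) : r = 0 ∧ s = 0 := by
  have hk : 0 < t ^ (k : ℝ) := Real.rpow_pos_of_pos h0 _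
  by_cases hs : s = 0
  · subst hs
    rw [Rat.cast_zero, zero_mul, add_zero] at h
    rcases mul_eq_zero.mp h with h1 | h1
    · exact ⟨by exact_mod_cast h1, rfl⟩
    · exact absurd h1 hk.ne'
  · exfalso
    refine rat_transc h0 ht (q := l - k) (sub_ne_zero.mpr hkl.symm) ?_
    have hs' : (s : ℝ) ≠ 0 := by exact_mod_cast hs
    have h1 : t ^ ((l - k : ℚ) : ℝ) = ((-r / s : ℚ) : ℝ) := by
      push_cast
      rw [Real.rpow_sub h0, div_eq_div_iff hk.ne' hs']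
      linarith
    rw [h1]
    have h2 : (((-r / s : ℚ) : ℝ) : ℂ) = algebraMap ℚ ℂ (-r / s) := by
      rw [eq_ratCast]
      push_cast
      rfl
    rw [h2]
    exact isAlgebraic_algebraMap _

theorem result (t c : ℝ) (h0 : 0 < t) (ht : Transcendental ℚ t) (hc : 0 < c) (hc1 : c ≠ 1) :
    -- (0) equal differences of exponents of rational numbers are counterexamples to the conjecture
    (∀ b₁ b₂ b₃ b₄ : ℚ, b₁ + b₄ = b₂ + b₃ → b₁ ≠ b₂ → b₁ ≠ b₃ → ∀ a₁ a₂ a₃ a₄ : ℚ,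
      (a₁ : ℝ) = c ^ (t ^ (b₁ : ℝ)) → (a₂ : ℝ) = c ^ (t ^ (b₂ : ℝ)) →
      (a₃ : ℝ) = c ^ (t ^ (b₃ : ℝ)) → (a₄ : ℝ) = c ^ (t ^ (b₄ : ℝ)) →
      (∀ r s : ℚ, (r : ℝ) * Real.log a₁ + s * Real.log a₃ = 0 ∧
        (r : ℝ) * Real.log a₂ + s * Real.log a₄ = 0 → r = 0 ∧ s = 0) ∧
      (∀ r s : ℚ, (r : ℝ) * Real.log a₁ + s * Real.log a₂ = 0 ∧
        (r : ℝ) * Real.log a₃ + s * Real.log a₄ = 0 → r = 0 ∧ s = 0) ∧
      Real.log a₁ * Real.log a₄ - Real.log a₂ * Real.log a₃ = 0) ∧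
    -- (1) every difference occurs at most twice
    (∀ h : ℚ, h ≠ 0 →
      {b : ℚ | IsAlgebraic ℚ (c ^ (t ^ (b : ℝ))) ∧
        IsAlgebraic ℚ (c ^ (t ^ ((b + h : ℚ) : ℝ)))}.Finite ∧
      {b : ℚ | IsAlgebraic ℚ (c ^ (t ^ (b : ℝ))) ∧
        IsAlgebraic ℚ (c ^ (t ^ ((b + h : ℚ) : ℝ)))}.ncard ≤ 2) ∧
    -- (2) sums with arbitrary finite sets, (3) sums
    (∀ A : Finset ℚ, (∀ b ∈ A, IsAlgebraic ℚ (c ^ (t ^ (b : ℝ)))) →
      (∀ X : Finset ℚ, X.Nonempty →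
        (A.card : ℝ) ^ 2 * X.card ≤ (A + X).card * (A.card + 2 * (X.card - 1))) ∧
      A.card ^ 2 ≤ 3 * (A + A).card) ∧
    -- (4) exponents in arithmetic progressions
    (∀ a h : ℚ, h ≠ 0 → ∀ N : ℕ,
      ({k : ℕ | 1 ≤ k ∧ k ≤ N ∧ IsAlgebraic ℚ (c ^ (t ^ ((a + k * h : ℚ) : ℝ)))}.ncard : ℝ) ≤
        Real.sqrt (2 * N) + Real.sqrt (Real.sqrt (2 * N)) + 1) := by
  have ht' : Transcendental ℚ (t : ℂ) := by
    intro h
    exact ht ((isAlgebraic_algebraMap_iff (R := ℚ) (S := ℝ) (A := ℂ)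
      Complex.ofReal_injective).mp h)
  have hlog : Real.log c ≠ 0 := Real.log_ne_zero_of_pos_of_ne_one hc hc1
  refine ⟨?_, ?_, ?_, ?_⟩
  · intro b₁ b₂ b₃ b₄ hb h12 h13 a₁ a₂ a₃ a₄ e1 e2 e3 e4
    rw [e1, e2, e3, e4, Real.log_rpow hc, Real.log_rpow hc, Real.log_rpow hc, Real.log_rpow hc]
    refine ⟨?_, ?_, ?_⟩
    · rintro r s ⟨h1, -⟩
      refine rel h0 ht' h13 (mul_right_cancel₀ hlog ?_)
      rw [zero_mul]
      linarith
    · rintro r s ⟨h1, -⟩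
      refine rel h0 ht' h12 (mul_right_cancel₀ hlog ?_)
      rw [zero_mul]
      linarith
    · have h1 : t ^ (b₁ : ℝ) * t ^ (b₄ : ℝ) = t ^ (b₂ : ℝ) * t ^ (b₃ : ℝ) := by
        rw [← Real.rpow_add h0, ← Real.rpow_add h0]
        congr 1
        exact_mod_cast hb
      linear_combination (Real.log c) ^ 2 * h1
  · intro h hh
    obtain ⟨h1, h2⟩ := tower_few (g := 0) Fin.elim0 h0 ht' hc hc1 hh
    have hsub : {b : ℚ | IsAlgebraic ℚ (c ^ (t ^ (b : ℝ))) ∧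
        IsAlgebraic ℚ (c ^ (t ^ ((b + h : ℚ) : ℝ)))} ⊆
        {b : ℚ | InP (g := 0) Fin.elim0 (c ^ (t ^ (b : ℝ))) ∧
          InP (g := 0) Fin.elim0 (c ^ (t ^ ((b + h : ℚ) : ℝ)))} := fun b hb =>
      ⟨inP_alg _ (Real.rpow_pos_of_pos hc _) hb.1, inP_alg _ (Real.rpow_pos_of_pos hc _) hb.2⟩
    refine ⟨h1.subset hsub, ?_⟩
    rw [Mg_zero] at h2
    exact (Set.ncard_le_ncard hsub h1).trans (by exact_mod_cast h2)
  · intro A hA
    have key : ∀ X : Finset ℚ, X.Nonempty →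
        (A.card : ℝ) ^ 2 * X.card ≤ (A + X).card * (A.card + 2 * (X.card - 1)) := by
      intro X hX
      have h1 := tower_energy (g := 0) Fin.elim0 h0 ht' hc hc1 A X hX
      have h2 : {b : ℚ | b ∈ A ∧ InP (g := 0) Fin.elim0 (c ^ (t ^ (b : ℝ)))} = (A : Set ℚ) := by
        ext b
        exact ⟨fun hb => hb.1, fun hb => ⟨hb, inP_alg _ (Real.rpow_pos_of_pos hc _) (hA b hb)⟩⟩
      rw [h2, Set.ncard_coe_finset, Mg_zero] at h1
      exact h1
    refine ⟨key, ?_⟩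
    rcases A.eq_empty_or_nonempty with hE | hE
    · rw [hE]
      simp
    · have h1 := key A hE
      have h2 : (0 : ℝ) < A.card := by exact_mod_cast hE.card_pos
      have h3 : (0 : ℝ) ≤ (A + A).card := Nat.cast_nonneg _
      have h4 : (A.card : ℝ) ^ 2 * A.card ≤ (3 * (A + A).card) * A.card := by nlinarith
      have h5 := le_of_mul_le_mul_right h4 h2
      exact_mod_cast h5
  · intro a h hh N
    have h1 := tower_ap (g := 0) Fin.elim0 h0 ht' hc hc1 a hh N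
    rw [Mg_zero] at h1
    refine le_trans ?_ h1
    have hfin : {k : ℕ | 1 ≤ k ∧ k ≤ N ∧
        InP (g := 0) Fin.elim0 (c ^ (t ^ ((a + k * h : ℚ) : ℝ)))}.Finite :=
      (Set.finite_Icc 1 N).subset (fun k hk => ⟨hk.1, hk.2.1⟩)
    have h2 : {k : ℕ | 1 ≤ k ∧ k ≤ N ∧ IsAlgebraic ℚ (c ^ (t ^ ((a + k * h : ℚ) : ℝ)))} ⊆
        {k : ℕ | 1 ≤ k ∧ k ≤ N ∧ InP (g := 0) Fin.elim0 (c ^ (t ^ ((a + k * h : ℚ) : ℝ)))} := by
      rintro k ⟨hk1, hk2, hk3⟩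
      exact ⟨hk1, hk2, inP_alg _ (Real.rpow_pos_of_pos hc _) hk3⟩
    exact_mod_cast Set.ncard_le_ncard h2 hfin

end Pool.Agent.Results.MP_bbc1fa_nt.GeometricProgressions
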