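import Pool.Agent.TH379.PER.E2

set_option autoImplicit false
set_option linter.unusedSectionVars false

namespace V11268.Per

open Module
open Pool.Agent.H301R2.SSE (QB mem_QB Lt Lt_rep Lt_mul Lt_alg Lt_log)
open Pool.Agent.TH379.PER

lemma indep_pair {θ : ℂ} (hθ : Transcendental ℚ θ) : LinearIndependent QB ![(1 : ℂ), θ] := by
  rw [LinearIndependent.pair_iff]
  intro s t h
  have hs : (s : ℂ) + (t : ℂ) * θ = 0 := by
    have h1 : (s : ℂ) * 1 + (t : ℂ) * θ = 0 := h
    simpa using h1
  by_cases ht : t = 0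
  · subst ht
    refine ⟨?_, rfl⟩
    have h2 : (s : ℂ) = 0 := by simpa using hs
    exact Subtype.ext h2
  · exfalso
    apply hθ
    have ht' : (t : ℂ) ≠ 0 := fun h => ht (Subtype.ext h)
    have h3 : θ = -(s : ℂ) / (t : ℂ) := by
      rw [eq_div_iff ht']
      linear_combination hs
    rw [h3]
    have h4 : IsAlgebraic ℚ (s : ℂ) := mem_QB.mp s.2
    have h5 : IsAlgebraic ℚ (t : ℂ) := mem_QB.mp t.2
    rw [div_eq_mul_inv]
    exact h4.neg.mul h5.inv

/-- multiplication by `θ` as a linear map over the algebraic numbers -/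
noncomputable def mulL (θ : ℂ) : ℂ →ₗ[QB] ℂ := LinearMap.mulLeft QB θ

lemma mulL_inj {θ : ℂ} (h : θ ≠ 0) : Function.Injective (mulL θ) := by
  intro a b hab
  exact mul_left_cancel₀ h hab

/-- finite dimensional version -/
theorem pair_fin {g : ℕ} (γ : Fin g → ℂ) {θ : ℂ} (hθ : Transcendental ℚ θ)
    (W : Submodule QB ℂ) [FiniteDimensional QB W]
    (h : ∀ z ∈ W, z ∈ Forms γ ∧ θ * z ∈ Forms γ) : finrank QB W ≤ 2 * g + 2 := by
  have hθ0 : θ ≠ 0 := by
    rintro rfl
    exact hθ isAlgebraic_zero
  let M := mulL θ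
  let W1 : Submodule QB ℂ := W.map M
  let V : Submodule QB ℂ := W ⊔ W1
  let V1 : Submodule QB ℂ := V.map M
  let Z : Submodule QB ℂ := V ⊔ V1
  have : FiniteDimensional QB W1 := inferInstanceAs (FiniteDimensional QB (W.map M))
  have : FiniteDimensional QB V := inferInstanceAs (FiniteDimensional QB ↥(W ⊔ W1))
  have : FiniteDimensional QB V1 := inferInstanceAs (FiniteDimensional QB (V.map M))
  have : FiniteDimensional QB Z := inferInstanceAs (FiniteDimensional QB ↥(V ⊔ V1))
  have : FiniteDimensional QB ↥(Submodule.span QB (Set.range γ)) :=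
    FiniteDimensional.span_of_finite QB (Set.finite_range _)
  have hΓ : finrank QB ↥(Submodule.span QB (Set.range γ)) ≤ g := by
    have h1 := finrank_range_le_card (R := QB) γ
    rwa [Fintype.card_fin, Set.finrank] at h1
  have hVF : V ≤ Forms γ := by
    refine sup_le (fun z hz => (h z hz).1) ?_
    rintro _ ⟨z, hz, rfl⟩
    exact (h z hz).2
  have hcore := core (d := 2) ![(1 : ℂ), θ] (indep_pair hθ) V Z
    (Submodule.span QB (Set.range γ)) (by
      intro i v hv
      fin_cases i
      · show (1 : ℂ) * v ∈ Z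
        rw [one_mul]
        exact Submodule.mem_sup_left hv
      · exact Submodule.mem_sup_right ⟨v, hv, rfl⟩) (hVF.trans (Forms_le γ))
  have hM := mulL_inj hθ0
  have e1 : finrank QB V1 = finrank QB V := (Submodule.equivMapOfInjective M hM V).finrank_eq.symm
  have e2 : finrank QB W1 = finrank QB W := (Submodule.equivMapOfInjective M hM W).finrank_eq.symm
  have e3 : finrank QB ↥(V ⊔ V1) + finrank QB ↥(V ⊓ V1) = finrank QB V + finrank QB V1 :=
    Submodule.finrank_sup_add_finrank_inf_eq V V1
  have hle : W1 ≤ V ⊓ V1 := le_inf le_sup_right (Submodule.map_mono le_sup_left)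
  have e4 : finrank QB W1 ≤ finrank QB ↥(V ⊓ V1) := Submodule.finrank_mono hle
  have e5 : finrank QB Z = finrank QB ↥(V ⊔ V1) := rfl
  omega

theorem pair_main {g : ℕ} (γ : Fin g → ℂ) {θ : ℂ} (hθ : Transcendental ℚ θ)
    (W : Submodule QB ℂ) (h : ∀ z ∈ W, z ∈ Forms γ ∧ θ * z ∈ Forms γ) :
    FiniteDimensional QB W ∧ finrank QB W ≤ 2 * g + 2 := by
  have hfin : FiniteDimensional QB W := by
    by_contra hinf
    obtain ⟨s, hs, hli⟩ := exists_finset_linearIndependent_of_le_rank (R := QB) (M := W)
      (n := 2 * g + 3) (by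
        have : Cardinal.aleph0 ≤ Module.rank QB W := by
          rw [← not_lt, rank_lt_aleph0_iff]
          exact hinf
        exact (Cardinal.natCast_lt_aleph0.le).trans this)
    let U : Submodule QB ℂ := Submodule.span QB (Set.range (fun w : s => ((w : W) : ℂ)))
    have hU : U ≤ W := by
      refine Submodule.span_le.mpr ?_
      rintro _ ⟨w, rfl⟩
      exact (w : W).2
    have : FiniteDimensional QB U := FiniteDimensional.span_of_finite QB (Set.finite_range _)
    have h1 := pair_fin γ hθ U (fun z hz => h z (hU hz))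
    have h2 : LinearIndependent QB (fun w : s => ((w : W) : ℂ)) :=
      hli.map' W.subtype W.ker_subtype
    have h3 : finrank QB U = Fintype.card s := finrank_span_eq_card h2
    rw [Fintype.card_coe, hs] at h3
    omega
  exact ⟨hfin, pair_fin γ hθ W h⟩

end V11268.Per
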