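import Pool.Agent.V11268.PerSpec

set_option autoImplicit false
set_option linter.unusedSectionVars false

namespace V11268.PerG

open Module
open Pool.Agent.H301R2.SSE (QB mem_QB Lt Lt_rep Lt_mul Lt_alg Lt_log)
open Pool.Agent.TH379.PER
open scoped Pointwise

section energy

variable {G : Type} [AddCommGroup G] [DecidableEq G]

lemma energy_le (S X : Finset G) (M : ℝ)
    (H : ∀ δ ∈ X - X, δ ≠ 0 → ((S.filter (fun a => a + δ ∈ S)).card : ℝ) ≤ M) :
    (Finset.addEnergy S X : ℝ) ≤ S.card * X.card + M * (X.card * (X.card - 1)) := by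
  classical
  unfold Finset.addEnergy
  set E : Finset ((G × G) × (G × G)) :=
    ((S ×ˢ S) ×ˢ X ×ˢ X).filter (fun x => x.1.1 + x.2.1 = x.1.2 + x.2.2) with hE
  have hmem : ∀ x ∈ E, x.1.1 ∈ S ∧ x.1.2 ∈ S ∧ x.2.1 ∈ X ∧ x.2.2 ∈ X ∧
      x.1.1 + x.2.1 = x.1.2 + x.2.2 := by
    intro x hx
    rw [hE, Finset.mem_filter, Finset.mem_product, Finset.mem_product, Finset.mem_product] at hx
    exact ⟨hx.1.1.1, hx.1.1.2, hx.1.2.1, hx.1.2.2, hx.2⟩
  have hmaps : ∀ x ∈ E, x.2 ∈ X ×ˢ X := by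
    intro x hx
    have := hmem x hx
    exact Finset.mem_product.mpr ⟨this.2.2.1, this.2.2.2.1⟩
  have h1 := Finset.card_eq_sum_card_fiberwise (f := fun x : (G × G) × (G × G) => x.2)
    (s := E) (t := X ×ˢ X) hmaps
  have hfib : ∀ p ∈ X ×ˢ X, (E.filter (fun x => x.2 = p)).card ≤
      (S.filter (fun a => a + (p.1 - p.2) ∈ S)).card := by
    intro p hp
    refine Finset.card_le_card_of_injOn (fun x => x.1.1) ?_ ?_
    · intro x hx
      obtain ⟨hx1, hx2⟩ := Finset.mem_filter.mp (Finset.mem_coe.mp hx)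
      obtain ⟨ha, hb, -, -, heq⟩ := hmem x hx1
      refine Finset.mem_coe.mpr (Finset.mem_filter.mpr ⟨ha, ?_⟩)
      have h2 : x.1.1 + (p.1 - p.2) = x.1.2 := by
        rw [← hx2, ← add_sub_assoc, heq, add_sub_cancel_right]
      show x.1.1 + (p.1 - p.2) ∈ S
      rw [h2]
      exact hb
    · intro x hx y hy hxy
      obtain ⟨hx1, hx2⟩ := Finset.mem_filter.mp (Finset.mem_coe.mp hx)
      obtain ⟨hy1, hy2⟩ := Finset.mem_filter.mp (Finset.mem_coe.mp hy)
      have h3 : x.1.1 = y.1.1 := hxy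
      have h4 : x.2 = y.2 := hx2.trans hy2.symm
      have h5 := (hmem x hx1).2.2.2.2
      have h6 := (hmem y hy1).2.2.2.2
      rw [h3, h4] at h5
      have h7 : x.1.2 = y.1.2 := by
        have := h5.symm.trans h6
        exact add_right_cancel this
      exact Prod.ext (Prod.ext h3 h7) h4
  have hdiag : ∀ p ∈ X.diag, ((E.filter (fun x => x.2 = p)).card : ℝ) ≤ S.card := by
    intro p hp
    have hp' := Finset.mem_diag.mp hp
    have h2 := hfib p (Finset.mem_product.mpr ⟨hp'.1, hp'.2 ▸ hp'.1⟩)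
    have h3 := h2.trans (Finset.card_filter_le S _)
    exact_mod_cast h3
  have hoff : ∀ p ∈ X.offDiag, ((E.filter (fun x => x.2 = p)).card : ℝ) ≤ M := by
    intro p hp
    have hp' := Finset.mem_offDiag.mp hp
    have h2 := hfib p (Finset.mem_product.mpr ⟨hp'.1, hp'.2.1⟩)
    have h3 := H (p.1 - p.2) (Finset.sub_mem_sub hp'.1 hp'.2.1) (sub_ne_zero.mpr hp'.2.2)
    have h4 : ((E.filter (fun x => x.2 = p)).card : ℝ) ≤
      ((S.filter (fun a => a + (p.1 - p.2) ∈ S)).card : ℝ) := by exact_mod_cast h2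
    exact h4.trans h3
  have h2 : (E.card : ℝ) = ∑ p ∈ X.diag, ((E.filter (fun x => x.2 = p)).card : ℝ) +
      ∑ p ∈ X.offDiag, ((E.filter (fun x => x.2 = p)).card : ℝ) := by
    rw [h1, ← Finset.diag_union_offDiag, Finset.sum_union (Finset.disjoint_diag_offDiag X)]
    push_cast
    rfl
  rw [h2]
  have h3 := Finset.sum_le_card_nsmul _ _ _ hdiag
  have h4 := Finset.sum_le_card_nsmul _ _ _ hoff
  rw [Finset.diag_card, nsmul_eq_mul] at h3
  rw [Finset.offDiag_card, nsmul_eq_mul] at h4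
  have h5 : ((X.card * X.card - X.card : ℕ) : ℝ) = X.card * (X.card - 1) := by
    rw [Nat.cast_sub (Nat.le_mul_self _)]
    push_cast
    ring
  rw [h5] at h4
  nlinarith [h3, h4]

/-- a set with few representations of each difference -/
lemma energy_abs (P : G → Prop) (B X : Finset G) (hX : X.Nonempty) (M : ℝ) (hM : 0 ≤ M)
    (H : ∀ δ ∈ X - X, δ ≠ 0 → ∀ T : Finset G, T ⊆ B → (∀ a ∈ T, P a ∧ P (a + δ)) →
      (T.card : ℝ) ≤ M) :
    ({b : G | b ∈ B ∧ P b}.ncard : ℝ) ^ 2 * X.card ≤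
      (B + X).card * ({b : G | b ∈ B ∧ P b}.ncard + M * (X.card - 1)) := by
  classical
  set S : Finset G := B.filter P with hS
  have hSS : {b : G | b ∈ B ∧ P b} = (S : Set G) := by
    ext b
    rw [hS, Finset.coe_filter]
  rw [hSS, Set.ncard_coe_finset]
  have h1 := Finset.le_card_add_mul_addEnergy S X
  have h2 := energy_le S X M (fun δ hδ h0 => H δ hδ h0 _
    (fun a ha => Finset.mem_of_mem_filter _ (Finset.mem_of_mem_filter _ ha))
    (fun a ha => ⟨(Finset.mem_filter.mp (Finset.mem_of_mem_filter _ ha)).2,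
        (Finset.mem_filter.mp (Finset.mem_filter.mp ha).2).2⟩))
  have h3 : (S + X).card ≤ (B + X).card :=
    Finset.card_le_card (Finset.add_subset_add_right (Finset.filter_subset _ _))
  have hx : (0 : ℝ) < X.card := by exact_mod_cast hX.card_pos
  have hx1 : (1 : ℝ) ≤ X.card := by exact_mod_cast hX.card_pos
  have h4 : (S.card : ℝ) ^ 2 * (X.card : ℝ) ^ 2 ≤ (S + X).card * (Finset.addEnergy S X : ℝ) := by
    exact_mod_cast h1
  have h5 : (S.card : ℝ) ^ 2 * (X.card : ℝ) ^ 2 ≤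
      (B + X).card * (S.card * X.card + M * (X.card * (X.card - 1))) := by
    refine h4.trans ?_
    refine mul_le_mul (by exact_mod_cast h3) h2 (Nat.cast_nonneg _) (Nat.cast_nonneg _)
  have h6 : ((S.card : ℝ) ^ 2 * X.card) * X.card ≤
      ((B + X).card * (S.card + M * (X.card - 1))) * X.card := by
    nlinarith [h5]
  exact le_of_mul_le_mul_right h6 hx

end energy

/-- closed form for intervals (as for Sidon sets) -/
lemma interval_closed {N s M : ℝ} (hN : 1 ≤ N) (hM : 1 ≤ M) (hs : 0 ≤ s)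
    (h : ∀ u : ℕ, 1 ≤ u → s ^ 2 * u ≤ (N + u - 1) * (s + M * (u - 1))) :
    s ≤ Real.sqrt (M * N) + Real.sqrt (Real.sqrt (M * N)) + 1 := by
  set a : ℝ := Real.sqrt (Real.sqrt (M * N)) with ha
  have hMN : 1 ≤ M * N := by nlinarith
  have ha2 : a ^ 2 = Real.sqrt (M * N) := Real.sq_sqrt (Real.sqrt_nonneg _)
  have ha4 : a ^ 4 = M * N := by
    have : a ^ 4 = (a ^ 2) ^ 2 := by ring
    rw [this, ha2, Real.sq_sqrt (by linarith)]
  have ha1 : 1 ≤ a := by
    rw [ha, Real.one_le_sqrt, Real.one_le_sqrt]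
    exact hMN
  rw [← ha2]
  by_contra hcon
  push Not at hcon
  set u : ℕ := ⌈a ^ 3 / M⌉₊ with hu
  have hM0 : 0 < M := by linarith
  have hpos : 0 < a ^ 3 / M := by positivity
  have hu1 : 1 ≤ u := Nat.one_le_ceil_iff.mpr hpos
  have hu2 : a ^ 3 / M ≤ u := Nat.le_ceil _
  have hu3 : (u : ℝ) < a ^ 3 / M + 1 := Nat.ceil_lt_add_one hpos.le
  have hu2' : a ^ 3 ≤ M * u := by
    rw [div_le_iff₀ hM0] at hu2
    linarith
  have hu3' : M * u < a ^ 3 + M := by
    have : M * (u : ℝ) < M * (a ^ 3 / M + 1) := mul_lt_mul_of_pos_left hu3 hM0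
    have h2 : M * (a ^ 3 / M + 1) = a ^ 3 + M := by field_simp
    linarith
  have hu0 : (1 : ℝ) ≤ u := by exact_mod_cast hu1
  have key := h u hu1
  -- divide by u
  have e1 : N ≤ a * u := by
    have : M * N ≤ M * (a * u) := by
      rw [← ha4]
      nlinarith
    exact le_of_mul_le_mul_left this hM0
  have e2 : (N + u - 1) * (s + M * (u - 1)) ≤ u * ((a + 1) * s + a ^ 4 + a ^ 3) := by
    have f1 : N * s ≤ a * u * s := mul_le_mul_of_nonneg_right e1 hs
    have f2 : u * (M * u) ≤ u * (a ^ 3 + M) := mul_le_mul_of_nonneg_left hu3'.le (by linarith)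
    have f3 : (N + u - 1) * (s + M * (u - 1)) =
      N * s + u * s - s + (M * N) * u + u * (M * u) - M * u - M * N - M * u + M := by ring
    rw [f3, ← ha4]
    have f4 : 0 ≤ M * u - M := by nlinarith
    nlinarith [f1, f2, f4, hs, ha4, mul_nonneg hs (by linarith : (0 : ℝ) ≤ u - 1)]
  have e3 : s ^ 2 ≤ (a + 1) * s + a ^ 4 + a ^ 3 := by
    have : (s ^ 2) * u ≤ ((a + 1) * s + a ^ 4 + a ^ 3) * u := by linarith
    exact le_of_mul_le_mul_right this (by linarith)
  have e4 : a ^ 2 < s - a - 1 := by linarith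
  have e5 : (a ^ 2 + a + 1) * a ^ 2 < s * (s - a - 1) := by
    have g1 : 0 < a ^ 2 := by positivity
    have g2 : a ^ 2 + a + 1 < s := hcon
    nlinarith
  nlinarith

end V11268.PerG
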