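import Pool.Agent.V11268.PerCore

set_option autoImplicit false
set_option linter.unusedSectionVars false

namespace V11268.Per

open Module
open Pool.Agent.H301R2.SSE (QB mem_QB Lt Lt_rep Lt_mul Lt_alg Lt_log)
open Pool.Agent.TH379.PER
open scoped Pointwise

lemma exp_transc {δ : ℂ} (hδ : IsAlgebraic ℚ δ) (h0 : δ ≠ 0) :
    Transcendental ℚ (Complex.exp δ) := by
  classical
  intro h
  have h1 := Pool.Agent.H340R2.LW.lindemann_weierstrass (ι := Fin 2) Finset.univ
    ![(0 : ℂ), δ] ![-Complex.exp δ, (1 : ℂ)] (by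
      intro a _
      fin_cases a
      · exact isAlgebraic_zero
      · exact hδ) (by
      intro a _
      fin_cases a
      · exact h.neg
      · exact isAlgebraic_one) (by
      intro a _ b _ hab
      fin_cases a <;> fin_cases b
      · rfl
      · exact absurd hab.symm h0
      · exact absurd hab h0
      · rfl) (by
      rw [Fin.sum_univ_two]
      simp) 1 (Finset.mem_univ _)
  simp at h1

lemma finrank_expSpan (T : Finset ℂ) (hT : ∀ a ∈ T, IsAlgebraic ℚ a) :
    finrank QB (expSpan T) = T.card := by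
  classical
  have h1 := finrank_span_eq_card (exp_indep T hT)
  have h2 : Set.range (fun a : T => Complex.exp (a : ℂ)) = Complex.exp '' (T : Set ℂ) := by
    ext z
    constructor
    · rintro ⟨a, rfl⟩
      exact ⟨a, a.2, rfl⟩
    · rintro ⟨a, ha, rfl⟩
      exact ⟨⟨a, ha⟩, rfl⟩
  rw [h2, Fintype.card_coe] at h1
  exact h1

lemma pairs_fin {g : ℕ} (γ : Fin g → ℂ) {δ : ℂ} (hδ : IsAlgebraic ℚ δ) (h0 : δ ≠ 0)
    (T : Finset ℂ) (hT : ∀ a ∈ T, IsAlgebraic ℚ a)
    (h1 : ∀ a ∈ T, Complex.exp a ∈ Forms γ) (h2 : ∀ a ∈ T, Complex.exp (a + δ) ∈ Forms γ) :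
    T.card ≤ 2 * g + 2 := by
  rw [← finrank_expSpan T hT]
  refine pair_fin γ (exp_transc hδ h0) (expSpan T) ?_
  intro z hz
  refine Submodule.span_induction
    (p := fun v _ => v ∈ Forms γ ∧ Complex.exp δ * v ∈ Forms γ) ?_ ?_ ?_ ?_ hz
  · rintro _ ⟨a, ha, rfl⟩
    refine ⟨h1 a ha, ?_⟩
    rw [← Complex.exp_add, add_comm]
    exact h2 a ha
  · exact ⟨Submodule.zero_mem _, by rw [mul_zero]; exact Submodule.zero_mem _⟩
  · intro v w _ _ hv hw
    exact ⟨Submodule.add_mem _ hv.1 hw.1, by rw [mul_add]; exact Submodule.add_mem _ hv.2 hw.2⟩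
  · intro c v _ hv
    exact ⟨Submodule.smul_mem _ c hv.1, by
      rw [mul_smul_comm]; exact Submodule.smul_mem _ c hv.2⟩

theorem pairs_main {g : ℕ} (γ : Fin g → ℂ) {δ : ℂ} (hδ : IsAlgebraic ℚ δ) (h0 : δ ≠ 0) :
    {α : ℂ | IsAlgebraic ℚ α ∧ Complex.exp α ∈ Forms γ ∧
      Complex.exp (α + δ) ∈ Forms γ}.Finite ∧
    {α : ℂ | IsAlgebraic ℚ α ∧ Complex.exp α ∈ Forms γ ∧
      Complex.exp (α + δ) ∈ Forms γ}.ncard ≤ 2 * g + 2 := by
  set S := {α : ℂ | IsAlgebraic ℚ α ∧ Complex.exp α ∈ Forms γ ∧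
      Complex.exp (α + δ) ∈ Forms γ} with hS
  have key : ∀ T : Finset ℂ, (T : Set ℂ) ⊆ S → T.card ≤ 2 * g + 2 := by
    intro T hT
    exact pairs_fin γ hδ h0 T (fun a ha => (hT ha).1) (fun a ha => (hT ha).2.1)
      (fun a ha => (hT ha).2.2)
  have hfin : S.Finite := by
    by_contra hinf
    obtain ⟨T, hT, hc⟩ := Set.Infinite.exists_subset_card_eq hinf (2 * g + 3)
    have := key T hT
    omega
  refine ⟨hfin, ?_⟩
  rw [Set.ncard_eq_toFinset_card S hfin]
  exact key _ (by simp)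

/-- the exponents `b ∈ B` with `e ^ b` in `Forms γ` -/
theorem sidon {g : ℕ} (γ : Fin g → ℂ) (B : Finset ℂ) (hB : ∀ b ∈ B, IsAlgebraic ℚ b) :
    {b : ℂ | b ∈ B ∧ Complex.exp b ∈ Forms γ}.ncard *
      ({b : ℂ | b ∈ B ∧ Complex.exp b ∈ Forms γ}.ncard - 1) ≤
      (2 * g + 2) * ((B - B).card - 1) := by
  classical
  set S : Finset ℂ := B.filter (fun b => Complex.exp b ∈ Forms γ) with hS
  have hSS : {b : ℂ | b ∈ B ∧ Complex.exp b ∈ Forms γ} = (S : Set ℂ) := by
    ext b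
    rw [hS, Finset.coe_filter]
  rw [hSS, Set.ncard_coe_finset]
  rcases B.eq_empty_or_nonempty with hE | hE
  · have : S = ∅ := by rw [hS, hE]; rfl
    rw [this]; simp
  have h0 : (0 : ℂ) ∈ B - B := by
    obtain ⟨b, hb⟩ := hE
    have := Finset.sub_mem_sub hb hb
    rwa [sub_self] at this
  have h1 : S.offDiag.card ≤ (2 * g + 2) * ((B - B).erase 0).card := by
    refine Finset.card_le_mul_card_image_of_maps_to (f := fun p : ℂ × ℂ => p.2 - p.1) ?_ _ ?_
    · intro p hp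
      rw [Finset.mem_offDiag] at hp
      refine Finset.mem_erase.mpr ⟨sub_ne_zero.mpr (Ne.symm hp.2.2), ?_⟩
      exact Finset.sub_mem_sub (Finset.mem_of_mem_filter _ hp.2.1)
        (Finset.mem_of_mem_filter _ hp.1)
    · intro δ hδ
      rw [Finset.mem_erase] at hδ
      obtain ⟨u, hu, v, hv, huv⟩ := Finset.mem_sub.mp hδ.2
      have hδa : IsAlgebraic ℚ δ := by
        rw [← huv]
        exact (hB u hu).sub (hB v hv)
      have h2 := pairs_fin γ hδa hδ.1 (S.filter (fun a => a + δ ∈ S))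
        (fun a ha => hB a (Finset.mem_of_mem_filter _ (Finset.mem_of_mem_filter _ ha)))
        (fun a ha => (Finset.mem_filter.mp (Finset.mem_of_mem_filter _ ha)).2)
        (fun a ha => (Finset.mem_filter.mp (Finset.mem_filter.mp ha).2).2)
      refine le_trans (Finset.card_le_card_of_injOn Prod.fst ?_ ?_) h2
      · intro p hp
        have hp' := Finset.mem_filter.mp (Finset.mem_coe.mp hp)
        have hp1 := Finset.mem_offDiag.mp hp'.1
        refine Finset.mem_coe.mpr (Finset.mem_filter.mpr ⟨hp1.1, ?_⟩)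
        rw [← hp'.2, add_sub_cancel]
        exact hp1.2.1
      · intro p hp q hq hpq
        have hp' := (Finset.mem_filter.mp (Finset.mem_coe.mp hp)).2
        have hq' := (Finset.mem_filter.mp (Finset.mem_coe.mp hq)).2
        refine Prod.ext hpq ?_
        have h3 : p.1 = q.1 := hpq
        have h4 : p.2 - p.1 = q.2 - q.1 := by rw [hp', hq']
        rw [h3] at h4
        exact sub_left_inj.mp h4
  rw [Finset.offDiag_card, Finset.card_erase_of_mem h0] at h1
  rwa [Nat.mul_sub_one]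

/-- counting with an auxiliary set of exponents -/
theorem count_main {g : ℕ} (γ : Fin g → ℂ) (A B : Finset ℂ) (hA : ∀ a ∈ A, IsAlgebraic ℚ a)
    (hB : ∀ b ∈ B, IsAlgebraic ℚ b) :
    A.card * {b : ℂ | b ∈ B ∧ Complex.exp b ∈ Forms γ}.ncard ≤
      (A + B).card + A.card * (A.card - 1) + A.card * g := by
  classical
  set S : Finset ℂ := B.filter (fun b => Complex.exp b ∈ Forms γ) with hS
  have hSS : {b : ℂ | b ∈ B ∧ Complex.exp b ∈ Forms γ} = (S : Set ℂ) := by
    ext b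
    rw [hS, Finset.coe_filter]
  rw [hSS, Set.ncard_coe_finset]
  have : FiniteDimensional QB ↥(expSpan B ⊓ Forms γ) :=
    Submodule.finiteDimensional_of_le inf_le_left
  have hle : expSpan S ≤ expSpan B ⊓ Forms γ := by
    refine Submodule.span_le.mpr ?_
    rintro _ ⟨b, hb, rfl⟩
    have hb' := Finset.mem_filter.mp (Finset.mem_coe.mp hb)
    exact ⟨Submodule.subset_span ⟨b, Finset.mem_coe.mpr hb'.1, rfl⟩, hb'.2⟩
  have h1 := Submodule.finrank_mono hle
  rw [finrank_expSpan S (fun b hb => hB b (Finset.mem_of_mem_filter _ hb))] at h1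
  exact (Nat.mul_le_mul_left _ h1).trans (exp_ineq γ A B hA)

/-- sets of exponents with few sums -/
theorem doubling {g : ℕ} (γ : Fin g → ℂ) (B : Finset ℂ) (hB : ∀ b ∈ B, IsAlgebraic ℚ b) :
    ({b : ℂ | b ∈ B ∧ Complex.exp b ∈ Forms γ}.ncard : ℝ) ≤
      2 * Real.sqrt ((B + B).card) + g := by
  classical
  rcases B.eq_empty_or_nonempty with hE | hE
  · have : {b : ℂ | b ∈ B ∧ Complex.exp b ∈ Forms γ} = ∅ := by
      rw [hE]; ext b; simp
    rw [this, Set.ncard_empty, Nat.cast_zero]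
    positivity
  set s := {b : ℂ | b ∈ B ∧ Complex.exp b ∈ Forms γ}.ncard with hs
  set N := (B + B).card with hN
  have hN0 : 0 < N := Finset.card_pos.mpr (hE.add hE)
  have hNle : N ≤ B.card * B.card := Finset.card_add_le
  have hsq : 0 < Real.sqrt N := Real.sqrt_pos.mpr (by exact_mod_cast hN0)
  have hd1 : 1 ≤ ⌈Real.sqrt N⌉₊ := Nat.one_le_ceil_iff.mpr hsq
  have hdB : ⌈Real.sqrt N⌉₊ ≤ B.card := by
    rw [Nat.ceil_le]
    refine Real.sqrt_le_iff.mpr ⟨Nat.cast_nonneg _, ?_⟩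
    rw [sq]
    exact_mod_cast hNle
  obtain ⟨A, hAB, hAc⟩ := Finset.exists_subset_card_eq hdB
  have h1 := count_main γ A B (fun a ha => hB a (hAB ha)) hB
  have h2 : (A + B).card ≤ N := Finset.card_le_card (Finset.add_subset_add_right hAB)
  rw [hAc] at h1
  set d := ⌈Real.sqrt N⌉₊ with hd
  have h3 : d * s ≤ N + d * (d - 1) + d * g := by
    refine h1.trans ?_
    omega
  have h4 : Real.sqrt N ≤ d := Nat.le_ceil _
  have h5 : (d : ℝ) < Real.sqrt N + 1 := Nat.ceil_lt_add_one hsq.le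
  have h6 : (d : ℝ) * s ≤ N + d * ((d : ℝ) - 1) + d * g := by
    have : ((d * s : ℕ) : ℝ) ≤ ((N + d * (d - 1) + d * g : ℕ) : ℝ) := by exact_mod_cast h3
    push_cast [Nat.cast_sub hd1] at this
    exact this
  have hd0 : (0 : ℝ) < d := by linarith
  have h7 : (N : ℝ) ≤ Real.sqrt N * d := by
    calc (N : ℝ) = Real.sqrt N * Real.sqrt N := (Real.mul_self_sqrt (Nat.cast_nonneg N)).symm
      _ ≤ Real.sqrt N * d := mul_le_mul_of_nonneg_left h4 hsq.le
  have h8 : (d : ℝ) * s ≤ d * (Real.sqrt N + (d - 1) + g) := by nlinarith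
  have h9 := le_of_mul_le_mul_left h8 hd0
  linarith

theorem runs {g : ℕ} (γ : Fin g → ℂ) {α δ : ℂ} (hα : IsAlgebraic ℚ α) (hδ : IsAlgebraic ℚ δ)
    (h0 : δ ≠ 0) : ∃ k : ℕ, k ≤ 2 * g + 3 ∧ Complex.exp (α + k * δ) ∉ Forms γ := by
  by_contra hcon
  push Not at hcon
  obtain ⟨hfin, hc⟩ := pairs_main γ hδ h0
  have h1 : ((Finset.range (2 * g + 3)).image (fun k : ℕ => α + (k : ℂ) * δ) : Set ℂ) ⊆
      {α : ℂ | IsAlgebraic ℚ α ∧ Complex.exp α ∈ Forms γ ∧
        Complex.exp (α + δ) ∈ Forms γ} := by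
    intro z hz
    rw [Finset.coe_image] at hz
    obtain ⟨k, hk, rfl⟩ := hz
    have hk' : k < 2 * g + 3 := Finset.mem_range.mp (Finset.mem_coe.mp hk)
    refine ⟨hα.add ((isAlgebraic_natCast k).mul hδ), hcon k (by omega), ?_⟩
    have h2 := hcon (k + 1) (by omega)
    have h3 : α + (k : ℂ) * δ + δ = α + ((k + 1 : ℕ) : ℂ) * δ := by push_cast; ring
    rw [h3]
    exact h2
  have h4 := Set.ncard_le_ncard h1 hfin
  rw [Set.ncard_coe_finset, Finset.card_image_of_injective _ (fun a b h =>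
    Nat.cast_injective (mul_right_cancel₀ h0 (add_left_cancel h))), Finset.card_range] at h4
  omega

lemma one_mem_Forms {g : ℕ} (γ : Fin g → ℂ) : (1 : ℂ) ∈ Forms γ := by
  refine Submodule.subset_span (Or.inl (Or.inl ⟨0, 1, 1, 1, isAlgebraic_zero, isAlgebraic_one,
    zero_le_one, ?_, ?_⟩))
  · intro x _
    rw [map_one]
    exact one_ne_zero
  · simp

end V11268.Per
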