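import Pool.Agent.TH379.PER.Three

set_option autoImplicit false
set_option linter.unusedSectionVars false

namespace V11268.PerG

open Module
open Pool.Agent.H301R2.SSE (QB mem_QB Lt Lt_rep Lt_mul Lt_alg Lt_log)
open Pool.Agent.TH379.PER
open scoped Pointwise

/-- multiplication by `θ` as a linear map over the algebraic numbers -/
noncomputable def mulL (θ : ℂ) : ℂ →ₗ[QB] ℂ := LinearMap.mulLeft QB θ

lemma mulL_inj {θ : ℂ} (h : θ ≠ 0) : Function.Injective (mulL θ) := by
  intro a b hab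
  exact mul_left_cancel₀ h hab

/-- `W + θ W + ... + θ ^ (j - 1) W` -/
noncomputable def U (θ : ℂ) (W : Submodule QB ℂ) : ℕ → Submodule QB ℂ
  | 0 => ⊥
  | j + 1 => W ⊔ (U θ W j).map (mulL θ)

lemma U_succ (θ : ℂ) (W : Submodule QB ℂ) (j : ℕ) :
    U θ W (j + 1) = W ⊔ (U θ W j).map (mulL θ) := rfl

lemma U_one (θ : ℂ) (W : Submodule QB ℂ) : U θ W 1 = W := by
  rw [U_succ]
  show W ⊔ (⊥ : Submodule QB ℂ).map (mulL θ) = W
  rw [Submodule.map_bot, sup_bot_eq]

lemma U_le_succ (θ : ℂ) (W : Submodule QB ℂ) (n : ℕ) : U θ W n ≤ U θ W (n + 1) := by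
  induction n with
  | zero => exact bot_le
  | succ n ih => exact sup_le_sup_left (Submodule.map_mono ih) _

lemma U_mono (θ : ℂ) (W : Submodule QB ℂ) : Monotone (U θ W) :=
  monotone_nat_of_le_succ (U_le_succ θ W)

lemma U_fin (θ : ℂ) (W : Submodule QB ℂ) [FiniteDimensional QB W] (j : ℕ) :
    FiniteDimensional QB (U θ W j) := by
  induction j with
  | zero => exact inferInstanceAs (FiniteDimensional QB (⊥ : Submodule QB ℂ))
  | succ j ih => exact inferInstanceAs (FiniteDimensional QB ↥(W ⊔ (U θ W j).map (mulL θ)))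

lemma U_concave {θ : ℂ} (h0 : θ ≠ 0) (W : Submodule QB ℂ) [FiniteDimensional QB W] (j : ℕ) :
    finrank QB (U θ W (j + 2)) + finrank QB (U θ W j) ≤ 2 * finrank QB (U θ W (j + 1)) := by
  have hM := mulL_inj h0
  have := U_fin θ W j
  have := U_fin θ W (j + 1)
  have : FiniteDimensional QB ↥((U θ W (j + 1)).map (mulL θ)) := inferInstance
  have h1 : U θ W (j + 2) = U θ W (j + 1) ⊔ (U θ W (j + 1)).map (mulL θ) := by
    refine le_antisymm ?_ ?_
    · rw [U_succ θ W (j + 1)]
      refine sup_le (le_sup_of_le_left ?_) le_sup_right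
      rw [U_succ θ W j]
      exact le_sup_left
    · exact sup_le (U_le_succ θ W (j + 1)) (by rw [U_succ θ W (j + 1)]; exact le_sup_right)
  have h2 := Submodule.finrank_sup_add_finrank_inf_eq (U θ W (j + 1))
    ((U θ W (j + 1)).map (mulL θ))
  have h3 : finrank QB ↥((U θ W (j + 1)).map (mulL θ)) = finrank QB (U θ W (j + 1)) :=
    (Submodule.equivMapOfInjective _ hM _).finrank_eq.symm
  have h4 : finrank QB ↥((U θ W j).map (mulL θ)) = finrank QB (U θ W j) :=
    (Submodule.equivMapOfInjective _ hM _).finrank_eq.symm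
  have h5 : (U θ W j).map (mulL θ) ≤ U θ W (j + 1) ⊓ (U θ W (j + 1)).map (mulL θ) :=
    le_inf (by rw [U_succ θ W j]; exact le_sup_right) (Submodule.map_mono (U_le_succ θ W j))
  have : FiniteDimensional QB ↥(U θ W (j + 1) ⊓ (U θ W (j + 1)).map (mulL θ)) :=
    Submodule.finiteDimensional_of_le inf_le_left
  have h6 := Submodule.finrank_mono h5
  rw [← h1] at h2
  omega

lemma U_diff {θ : ℂ} (h0 : θ ≠ 0) (W : Submodule QB ℂ) [FiniteDimensional QB W] (j : ℕ) :
    finrank QB (U θ W (j + 2)) + finrank QB (U θ W 1) ≤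
      finrank QB (U θ W (j + 1)) + finrank QB (U θ W 2) := by
  induction j with
  | zero =>
    show finrank QB (U θ W 2) + finrank QB (U θ W 1) ≤
      finrank QB (U θ W 1) + finrank QB (U θ W 2)
    omega
  | succ j ih =>
    have h1 := U_concave h0 W (j + 1)
    have e1 : j + 1 + 2 = j + 3 := rfl
    have e2 : j + 1 + 1 = j + 2 := rfl
    rw [e1, e2] at *
    omega

lemma U_bound {θ : ℂ} (h0 : θ ≠ 0) (W : Submodule QB ℂ) [FiniteDimensional QB W] (m : ℕ) :
    finrank QB (U θ W (m + 2)) + m * finrank QB (U θ W 1) ≤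
      (m + 1) * finrank QB (U θ W 2) := by
  induction m with
  | zero => simp
  | succ m ih =>
    have h1 := U_diff h0 W (m + 1)
    have e1 : m + 1 + 2 = m + 3 := rfl
    have e2 : m + 1 + 1 = m + 2 := rfl
    rw [e1, e2] at *
    have h2 : (m + 1) * finrank QB (U θ W 1) = m * finrank QB (U θ W 1) + finrank QB (U θ W 1) := by
      ring
    have h3 : (m + 2) * finrank QB (U θ W 2) = (m + 1) * finrank QB (U θ W 2) +
      finrank QB (U θ W 2) := by ring
    omega

lemma U_pow (θ : ℂ) (W : Submodule QB ℂ) (i j : ℕ) {v : ℂ} (hv : v ∈ U θ W j) :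
    θ ^ i * v ∈ U θ W (i + j) := by
  induction i with
  | zero => simpa using hv
  | succ i ih =>
    have h1 : θ ^ (i + 1) * v = θ * (θ ^ i * v) := by ring
    have h2 : i + 1 + j = (i + j) + 1 := by ring
    rw [h1, h2, U_succ]
    exact Submodule.mem_sup_right ⟨_, ih, rfl⟩

/-- finite dimensional version -/
theorem gen_fin {g : ℕ} (γ : Fin g → ℂ) {θ : ℂ} (hθ : Transcendental ℚ θ)
    (W : Submodule QB ℂ) [FiniteDimensional QB W]
    (h : ∀ z ∈ W, z ∈ Forms γ ∧ θ * z ∈ Forms γ) (m : ℕ) :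
    m * finrank QB W ≤ (m + 1) * (m + g) := by
  have hθ0 : θ ≠ 0 := by
    rintro rfl
    exact hθ isAlgebraic_zero
  have := U_fin θ W 2
  have := U_fin θ W (m + 2)
  have : FiniteDimensional QB ↥(Submodule.span QB (Set.range γ)) :=
    FiniteDimensional.span_of_finite QB (Set.finite_range _)
  have hΓ : finrank QB ↥(Submodule.span QB (Set.range γ)) ≤ g := by
    have h1 := finrank_range_le_card (R := QB) γ
    rwa [Fintype.card_fin, Set.finrank] at h1
  have hVF : U θ W 2 ≤ Forms γ := by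
    rw [U_succ θ W 1, U_one]
    refine sup_le (fun z hz => (h z hz).1) ?_
    rintro _ ⟨z, hz, rfl⟩
    exact (h z hz).2
  have hcore := core (d := m + 1) (fun i => θ ^ (i : ℕ)) (pow_indep hθ (m + 1)) (U θ W 2)
    (U θ W (m + 2)) (Submodule.span QB (Set.range γ)) (by
      intro i v hv
      have h1 := U_pow θ W (i : ℕ) 2 hv
      exact U_mono θ W (by have := i.isLt; omega) h1) (hVF.trans (Forms_le γ))
  have h2 := U_bound hθ0 W m
  rw [U_one] at h2
  have h3 := Nat.mul_le_mul_left (m + 1) hΓ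
  rw [Nat.add_sub_cancel] at hcore
  have h4 : (m + 1) * (m + g) = (m + 1) * m + (m + 1) * g := by ring
  omega

theorem gen_main {g : ℕ} (γ : Fin g → ℂ) {θ : ℂ} (hθ : Transcendental ℚ θ)
    (W : Submodule QB ℂ) (h : ∀ z ∈ W, z ∈ Forms γ ∧ θ * z ∈ Forms γ) :
    FiniteDimensional QB W ∧ ∀ m : ℕ, m * finrank QB W ≤ (m + 1) * (m + g) := by
  have hfin : FiniteDimensional QB W := by
    by_contra hinf
    obtain ⟨s, hs, hli⟩ := exists_finset_linearIndependent_of_le_rank (R := QB) (M := W)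
      (n := 2 * g + 3) (by
        have : Cardinal.aleph0 ≤ Module.rank QB W := by
          rw [← not_lt, rank_lt_aleph0_iff]
          exact hinf
        exact (Cardinal.natCast_lt_aleph0.le).trans this)
    let V : Submodule QB ℂ := Submodule.span QB (Set.range (fun w : s => ((w : W) : ℂ)))
    have hU : V ≤ W := by
      refine Submodule.span_le.mpr ?_
      rintro _ ⟨w, rfl⟩
      exact (w : W).2
    have : FiniteDimensional QB V := FiniteDimensional.span_of_finite QB (Set.finite_range _)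
    have h1 := gen_fin γ hθ V (fun z hz => h z (hU hz)) 1
    have h2 : LinearIndependent QB (fun w : s => ((w : W) : ℂ)) :=
      hli.map' W.subtype W.ker_subtype
    have h3 : finrank QB V = Fintype.card s := finrank_span_eq_card h2
    rw [Fintype.card_coe, hs] at h3
    omega
  exact ⟨hfin, fun m => gen_fin γ hθ W h m⟩

/-! ### Characters -/

section chars

variable {G : Type} [AddCommGroup G] [DecidableEq G] {χ : G → ℂ} {Good : G → Prop}

lemma scaled_indep {z₀ : ℂ} (hz : z₀ ≠ 0)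
    (hli : ∀ A : Finset G, (∀ a ∈ A, Good a) → LinearIndependent QB (fun a : A => χ a))
    (A : Finset G) (hA : ∀ a ∈ A, Good a) :
    LinearIndependent QB (fun a : A => z₀ * χ a) :=
  (hli A hA).map' (mulL z₀) (LinearMap.ker_eq_bot.mpr (mulL_inj hz))

theorem few_fin {g : ℕ} (γ : Fin g → ℂ) (hadd : ∀ a b, χ (a + b) = χ a * χ b)
    (hli : ∀ A : Finset G, (∀ a ∈ A, Good a) → LinearIndependent QB (fun a : A => χ a))
    {z₀ : ℂ} (hz : z₀ ≠ 0) {δ : G} (hδ : Transcendental ℚ (χ δ)) (T : Finset G)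
    (hT : ∀ a ∈ T, Good a) (h1 : ∀ a ∈ T, z₀ * χ a ∈ Forms γ)
    (h2 : ∀ a ∈ T, z₀ * χ (a + δ) ∈ Forms γ) (m : ℕ) :
    m * T.card ≤ (m + 1) * (m + g) := by
  have hind := scaled_indep hz hli T hT
  have h3 := finrank_span_eq_card hind
  rw [Fintype.card_coe] at h3
  have : FiniteDimensional QB (Submodule.span QB (Set.range (fun a : T => z₀ * χ a))) :=
    FiniteDimensional.span_of_finite QB (Set.finite_range _)
  rw [← h3]
  refine gen_fin γ hδ _ ?_ m
  intro z hz'
  refine Submodule.span_induction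
    (p := fun v _ => v ∈ Forms γ ∧ χ δ * v ∈ Forms γ) ?_ ?_ ?_ ?_ hz'
  · rintro _ ⟨a, rfl⟩
    refine ⟨h1 a a.2, ?_⟩
    have h4 := h2 a a.2
    rw [hadd] at h4
    have h5 : χ δ * (z₀ * χ (a : G)) = z₀ * (χ (a : G) * χ δ) := by ring
    show χ δ * (z₀ * χ (a : G)) ∈ Forms γ
    rw [h5]
    exact h4
  · exact ⟨Submodule.zero_mem _, by rw [mul_zero]; exact Submodule.zero_mem _⟩
  · intro v w _ _ hv hw
    exact ⟨Submodule.add_mem _ hv.1 hw.1, by rw [mul_add]; exact Submodule.add_mem _ hv.2 hw.2⟩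
  · intro c v _ hv
    exact ⟨Submodule.smul_mem _ c hv.1, by
      rw [mul_smul_comm]; exact Submodule.smul_mem _ c hv.2⟩

theorem few_main {g : ℕ} (γ : Fin g → ℂ) (hadd : ∀ a b, χ (a + b) = χ a * χ b)
    (hli : ∀ A : Finset G, (∀ a ∈ A, Good a) → LinearIndependent QB (fun a : A => χ a))
    {z₀ : ℂ} (hz : z₀ ≠ 0) {δ : G} (hδ : Transcendental ℚ (χ δ)) :
    {a : G | Good a ∧ z₀ * χ a ∈ Forms γ ∧ z₀ * χ (a + δ) ∈ Forms γ}.Finite ∧
    ∀ m : ℕ, m * {a : G | Good a ∧ z₀ * χ a ∈ Forms γ ∧ z₀ * χ (a + δ) ∈ Forms γ}.ncard ≤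
      (m + 1) * (m + g) := by
  set S := {a : G | Good a ∧ z₀ * χ a ∈ Forms γ ∧ z₀ * χ (a + δ) ∈ Forms γ} with hS
  have key : ∀ T : Finset G, (T : Set G) ⊆ S → ∀ m : ℕ, m * T.card ≤ (m + 1) * (m + g) := by
    intro T hT
    exact few_fin γ hadd hli hz hδ T (fun a ha => (hT ha).1) (fun a ha => (hT ha).2.1)
      (fun a ha => (hT ha).2.2)
  have hfin : S.Finite := by
    by_contra hinf
    obtain ⟨T, hT, hc⟩ := Set.Infinite.exists_subset_card_eq hinf (2 * g + 3)
    have := key T hT 1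
    omega
  refine ⟨hfin, fun m => ?_⟩
  rw [Set.ncard_eq_toFinset_card S hfin]
  exact key _ (by simp) m

/-- counting pairs by differences -/
lemma sidon_abs (P : G → Prop) (B : Finset G) (m K : ℕ)
    (H : ∀ δ ∈ B - B, δ ≠ 0 → ∀ T : Finset G, T ⊆ B → (∀ a ∈ T, P a ∧ P (a + δ)) →
      m * T.card ≤ K) :
    m * ({b : G | b ∈ B ∧ P b}.ncard * ({b : G | b ∈ B ∧ P b}.ncard - 1)) ≤
      K * ((B - B).card - 1) := by
  classical
  set S : Finset G := B.filter P with hS
  have hSS : {b : G | b ∈ B ∧ P b} = (S : Set G) := by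
    ext b
    rw [hS, Finset.coe_filter]
  rw [hSS, Set.ncard_coe_finset]
  rcases B.eq_empty_or_nonempty with hE | hE
  · have : S = ∅ := by rw [hS, hE]; rfl
    rw [this]; simp
  have h0 : (0 : G) ∈ B - B := by
    obtain ⟨b, hb⟩ := hE
    have := Finset.sub_mem_sub hb hb
    rwa [sub_self] at this
  have hmaps : ∀ p ∈ S.offDiag, p.2 - p.1 ∈ (B - B).erase 0 := by
    intro p hp
    rw [Finset.mem_offDiag] at hp
    refine Finset.mem_erase.mpr ⟨sub_ne_zero.mpr (Ne.symm hp.2.2), ?_⟩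
    exact Finset.sub_mem_sub (Finset.mem_of_mem_filter _ hp.2.1)
      (Finset.mem_of_mem_filter _ hp.1)
  have h1 := Finset.card_eq_sum_card_fiberwise (f := fun p : G × G => p.2 - p.1)
    (s := S.offDiag) (t := (B - B).erase 0) (fun p hp => hmaps p hp)
  have h2 : ∀ δ ∈ (B - B).erase 0,
      m * (S.offDiag.filter (fun p : G × G => p.2 - p.1 = δ)).card ≤ K := by
    intro δ hδ
    rw [Finset.mem_erase] at hδ
    refine le_trans (Nat.mul_le_mul_left m ?_) (H δ hδ.2 hδ.1 (S.filter (fun a => a + δ ∈ S))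
      (fun a ha => Finset.mem_of_mem_filter _ (Finset.mem_of_mem_filter _ ha))
      (fun a ha => ⟨(Finset.mem_filter.mp (Finset.mem_of_mem_filter _ ha)).2,
        (Finset.mem_filter.mp (Finset.mem_filter.mp ha).2).2⟩))
    refine Finset.card_le_card_of_injOn Prod.fst ?_ ?_
    · intro p hp
      have hp' := Finset.mem_filter.mp (Finset.mem_coe.mp hp)
      have hp1 := Finset.mem_offDiag.mp hp'.1
      refine Finset.mem_coe.mpr (Finset.mem_filter.mpr ⟨hp1.1, ?_⟩)
      rw [← hp'.2, add_sub_cancel]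
      exact hp1.2.1
    · intro p hp q hq hpq
      have hp' := (Finset.mem_filter.mp (Finset.mem_coe.mp hp)).2
      have hq' := (Finset.mem_filter.mp (Finset.mem_coe.mp hq)).2
      refine Prod.ext hpq ?_
      have h3 : p.1 = q.1 := hpq
      have h4 : p.2 - p.1 = q.2 - q.1 := by rw [hp', hq']
      rw [h3] at h4
      exact sub_left_inj.mp h4
  have h5 : S.card * (S.card - 1) = S.offDiag.card := by
    rw [Finset.offDiag_card, Nat.mul_sub_one]
  rw [h5, h1, Finset.mul_sum, ← Finset.card_erase_of_mem h0]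
  refine (Finset.sum_le_card_nsmul _ _ K h2).trans ?_
  rw [smul_eq_mul, mul_comm]

theorem sidon_main {g : ℕ} (γ : Fin g → ℂ) (hadd : ∀ a b, χ (a + b) = χ a * χ b)
    (hsub : ∀ a b, Good a → Good b → Good (a - b))
    (hli : ∀ A : Finset G, (∀ a ∈ A, Good a) → LinearIndependent QB (fun a : A => χ a))
    (htr : ∀ δ, Good δ → δ ≠ 0 → Transcendental ℚ (χ δ))
    {z₀ : ℂ} (hz : z₀ ≠ 0) (B : Finset G) (hB : ∀ b ∈ B, Good b) (m : ℕ) :
    m * ({b : G | b ∈ B ∧ z₀ * χ b ∈ Forms γ}.ncard *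
      ({b : G | b ∈ B ∧ z₀ * χ b ∈ Forms γ}.ncard - 1)) ≤
      (m + 1) * (m + g) * ((B - B).card - 1) := by
  refine sidon_abs (fun b => z₀ * χ b ∈ Forms γ) B m _ ?_
  intro δ hδ h0 T hT h
  obtain ⟨u, hu, v, hv, huv⟩ := Finset.mem_sub.mp hδ
  have hg : Good δ := by
    rw [← huv]
    exact hsub u v (hB u hu) (hB v hv)
  exact few_fin γ hadd hli hz (htr δ hg h0) T (fun a ha => hB a (hT ha))
    (fun a ha => (h a ha).1) (fun a ha => (h a ha).2) m

/-- counting with an auxiliary set of exponents -/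
theorem count_main {g : ℕ} (γ : Fin g → ℂ) (hadd : ∀ a b, χ (a + b) = χ a * χ b)
    (hli : ∀ A : Finset G, (∀ a ∈ A, Good a) → LinearIndependent QB (fun a : A => χ a))
    {z₀ : ℂ} (hz : z₀ ≠ 0) (A B : Finset G) (hA : ∀ a ∈ A, Good a) (hB : ∀ b ∈ B, Good b) :
    A.card * {b : G | b ∈ B ∧ z₀ * χ b ∈ Forms γ}.ncard ≤
      (A + B).card + A.card * (A.card - 1) + A.card * g := by
  classical
  set S : Finset G := B.filter (fun b => z₀ * χ b ∈ Forms γ) with hS
  have hSS : {b : G | b ∈ B ∧ z₀ * χ b ∈ Forms γ} = (S : Set G) := by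
    ext b
    rw [hS, Finset.coe_filter]
  rw [hSS, Set.ncard_coe_finset]
  set V : Submodule QB ℂ := Submodule.span QB (Set.range (fun a : S => z₀ * χ a)) with hV
  set Z : Submodule QB ℂ := Submodule.span QB ((fun c => z₀ * χ c) '' ((A + B : Finset G) : Set G))
    with hZ
  have : FiniteDimensional QB V := FiniteDimensional.span_of_finite QB (Set.finite_range _)
  have : FiniteDimensional QB Z :=
    FiniteDimensional.span_of_finite QB ((A + B).finite_toSet.image _)
  have : FiniteDimensional QB ↥(Submodule.span QB (Set.range γ)) :=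
    FiniteDimensional.span_of_finite QB (Set.finite_range _)
  have hΓ : finrank QB ↥(Submodule.span QB (Set.range γ)) ≤ g := by
    have h1 := finrank_range_le_card (R := QB) γ
    rwa [Fintype.card_fin, Set.finrank] at h1
  have hVc : finrank QB V = S.card := by
    have h1 := finrank_span_eq_card
      (scaled_indep hz hli S (fun b hb => hB b (Finset.mem_of_mem_filter _ hb)))
    rwa [Fintype.card_coe] at h1
  have hZc : finrank QB Z ≤ (A + B).card := by
    have h1 := finrank_span_finset_le_card (R := QB) ((A + B).image (fun c => z₀ * χ c))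
    rw [Set.finrank, Finset.coe_image] at h1
    exact h1.trans Finset.card_image_le
  have hVF : V ≤ Forms γ := by
    refine Submodule.span_le.mpr ?_
    rintro _ ⟨a, rfl⟩
    exact (Finset.mem_filter.mp a.2).2
  have h1 := core (d := A.card) (fun i => χ ((A.equivFin.symm i : A) : G))
    ((hli A hA).comp _ A.equivFin.symm.injective) V Z
    (Submodule.span QB (Set.range γ)) ?_ (hVF.trans (Forms_le γ))
  · have h3 := Nat.mul_le_mul_left A.card hΓ
    rw [hVc] at h1
    omega
  · intro i v hv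
    refine Submodule.span_induction
      (p := fun v _ => χ ((A.equivFin.symm i : A) : G) * v ∈ Z) ?_ ?_ ?_ ?_ hv
    · rintro _ ⟨b, rfl⟩
      refine Submodule.subset_span ⟨((A.equivFin.symm i : A) : G) + (b : G), ?_, ?_⟩
      · exact Finset.mem_coe.mpr (Finset.add_mem_add (A.equivFin.symm i).2
          (Finset.mem_of_mem_filter _ b.2))
      · show z₀ * χ (((A.equivFin.symm i : A) : G) + (b : G)) =
          χ ((A.equivFin.symm i : A) : G) * (z₀ * χ (b : G))
        rw [hadd]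
        ring
    · rw [mul_zero]; exact Submodule.zero_mem _
    · intro v w _ _ h h'
      rw [mul_add]; exact Submodule.add_mem _ h h'
    · intro c v _ h
      rw [mul_smul_comm]
      exact Submodule.smul_mem _ c h

/-- sets of exponents with few sums -/
theorem doubling_main {g : ℕ} (γ : Fin g → ℂ) (hadd : ∀ a b, χ (a + b) = χ a * χ b)
    (hli : ∀ A : Finset G, (∀ a ∈ A, Good a) → LinearIndependent QB (fun a : A => χ a))
    {z₀ : ℂ} (hz : z₀ ≠ 0) (B : Finset G) (hB : ∀ b ∈ B, Good b) :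
    ({b : G | b ∈ B ∧ z₀ * χ b ∈ Forms γ}.ncard : ℝ) ≤
      2 * Real.sqrt ((B + B).card) + g := by
  classical
  rcases B.eq_empty_or_nonempty with hE | hE
  · have : {b : G | b ∈ B ∧ z₀ * χ b ∈ Forms γ} = ∅ := by
      rw [hE]; ext b; simp
    rw [this, Set.ncard_empty, Nat.cast_zero]
    positivity
  set s := {b : G | b ∈ B ∧ z₀ * χ b ∈ Forms γ}.ncard with hs
  set N := (B + B).card with hN
  have hN0 : 0 < N := Finset.card_pos.mpr (hE.add hE)
  have hNle : N ≤ B.card * B.card := Finset.card_add_le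
  have hsq : 0 < Real.sqrt N := Real.sqrt_pos.mpr (by exact_mod_cast hN0)
  have hd1 : 1 ≤ ⌈Real.sqrt N⌉₊ := Nat.one_le_ceil_iff.mpr hsq
  have hdB : ⌈Real.sqrt N⌉₊ ≤ B.card := by
    rw [Nat.ceil_le]
    refine Real.sqrt_le_iff.mpr ⟨Nat.cast_nonneg _, ?_⟩
    rw [sq]
    exact_mod_cast hNle
  obtain ⟨A, hAB, hAc⟩ := Finset.exists_subset_card_eq hdB
  have h1 := count_main γ hadd hli hz A B (fun a ha => hB a (hAB ha)) hB
  have h2 : (A + B).card ≤ N := Finset.card_le_card (Finset.add_subset_add_right hAB)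
  rw [hAc] at h1
  set d := ⌈Real.sqrt N⌉₊ with hd
  have h3 : d * s ≤ N + d * (d - 1) + d * g := by
    refine h1.trans ?_
    omega
  have h4 : Real.sqrt N ≤ d := Nat.le_ceil _
  have h5 : (d : ℝ) < Real.sqrt N + 1 := Nat.ceil_lt_add_one hsq.le
  have h6 : (d : ℝ) * s ≤ N + d * ((d : ℝ) - 1) + d * g := by
    have : ((d * s : ℕ) : ℝ) ≤ ((N + d * (d - 1) + d * g : ℕ) : ℝ) := by exact_mod_cast h3
    push_cast [Nat.cast_sub hd1] at this
    exact this
  have hd0 : (0 : ℝ) < d := by linarith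
  have h7 : (N : ℝ) ≤ Real.sqrt N * d := by
    calc (N : ℝ) = Real.sqrt N * Real.sqrt N := (Real.mul_self_sqrt (Nat.cast_nonneg N)).symm
      _ ≤ Real.sqrt N * d := mul_le_mul_of_nonneg_left h4 hsq.le
  have h8 : (d : ℝ) * s ≤ d * (Real.sqrt N + (d - 1) + g) := by nlinarith
  have h9 := le_of_mul_le_mul_left h8 hd0
  linarith

end chars

end V11268.PerG
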