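import Pool.Agent.V11268.PerTower
import Pool.Agent.TH379.HF.Core

set_option autoImplicit false
set_option linter.unusedSectionVars false

namespace V11268.PerG

open Module
open Pool.Agent.H301R2.SSE (QB mem_QB Lt Lt_rep Lt_mul Lt_alg Lt_log)
open Pool.Agent.TH379.PER
open Pool.Agent.TH379.HF (VV finrank_VV)

lemma forms_le {g : ℕ} (γ : Fin g → ℂ) :
    Forms γ ≤ Forms (Fin.elim0 : Fin 0 → ℂ) ⊔ Submodule.span QB (Set.range γ) := by
  refine Submodule.span_le.mpr ?_
  rintro z (hz | hz)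
  · exact Submodule.mem_sup_left (Submodule.subset_span (Or.inl hz))
  · exact Submodule.mem_sup_right (Submodule.subset_span hz)

theorem rank_few {g : ℕ} (γ : Fin g → ℂ) {θ : ℂ} (hθ : Transcendental ℚ θ)
    (V : Submodule QB ℂ) [FiniteDimensional QB V]
    (hV : ∀ v ∈ V, v ∈ Forms (Fin.elim0 : Fin 0 → ℂ))
    (hθV : ∀ v ∈ V, θ * v ∈ Forms γ) : finrank QB V ≤ g + 2 := by
  set F0 : Submodule QB ℂ := Forms (Fin.elim0 : Fin 0 → ℂ) with hF0
  let q : ℂ →ₗ[QB] (ℂ ⧸ F0) := F0.mkQ
  let φ : V →ₗ[QB] (ℂ ⧸ F0) := q ∘ₗ (mulL θ) ∘ₗ V.subtype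
  have : FiniteDimensional QB ↥(Submodule.span QB (Set.range γ)) :=
    FiniteDimensional.span_of_finite QB (Set.finite_range _)
  have hr : LinearMap.range φ ≤ (Submodule.span QB (Set.range γ)).map q := by
    rintro _ ⟨v, rfl⟩
    have h1 := hθV v v.2
    obtain ⟨x, hx, y, hy, hxy⟩ := Submodule.mem_sup.mp (forms_le γ h1)
    refine ⟨y, hy, ?_⟩
    show q y = q (θ * v)
    have hx0 : q x = 0 := (Submodule.Quotient.mk_eq_zero F0).mpr hx
    rw [← hxy, map_add, hx0, zero_add]
  have hrg : finrank QB (LinearMap.range φ) ≤ g := by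
    refine (Submodule.finrank_mono hr).trans ((Submodule.finrank_map_le _ _).trans ?_)
    have h1 := finrank_range_le_card (R := QB) γ
    rwa [Fintype.card_fin, Set.finrank] at h1
  have hk : finrank QB (LinearMap.ker φ) ≤ 2 := by
    have h1 : finrank QB ((LinearMap.ker φ).map V.subtype) = finrank QB (LinearMap.ker φ) :=
      Submodule.finrank_map_subtype_eq _ _
    rw [← h1]
    have h2 := gen_fin (Fin.elim0 : Fin 0 → ℂ) hθ ((LinearMap.ker φ).map V.subtype) (by
      rintro _ ⟨v, hv, rfl⟩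
      refine ⟨hV v v.2, ?_⟩
      have h3 : q (θ * v) = 0 := LinearMap.mem_ker.mp hv
      exact (Submodule.Quotient.mk_eq_zero F0).mp h3) 1
    omega
  have h := LinearMap.finrank_range_add_finrank_ker φ
  omega

lemma log_mem0 {g : ℕ} (γ : Fin g → ℂ) {z : ℂ} (h : IsAlgebraic ℚ (Complex.exp z)) :
    z ∈ Forms γ := Submodule.subset_span (Or.inl (Or.inr h))

/-- at most `g + 2` multiplicatively independent bases -/
theorem bases_few {g : ℕ} (γ : Fin g → ℂ) {θ : ℂ} (hθ : Transcendental ℚ θ) {N : ℕ}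
    (l : Fin N → ℂ) (halg : ∀ j, IsAlgebraic ℚ (Complex.exp (l j)))
    (hli : LinearIndependent ℚ l) (h : ∀ j, θ * l j ∈ Forms γ) : N ≤ g + 2 := by
  have : FiniteDimensional QB (Submodule.span QB (Set.range l)) :=
    FiniteDimensional.span_of_finite QB (Set.finite_range _)
  have : FiniteDimensional QB (Submodule.span QB ({1} : Set ℂ)) :=
    FiniteDimensional.span_of_finite QB (Set.finite_singleton _)
  have h1 := finrank_VV l halg hli
  have h2 : finrank QB (VV l) ≤ finrank QB (Submodule.span QB ({1} : Set ℂ)) +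
      finrank QB (Submodule.span QB (Set.range l)) := by
    rw [VV, Submodule.span_union]
    exact Submodule.finrank_add_le_finrank_add_finrank _ _
  have h3 : finrank QB (Submodule.span QB ({1} : Set ℂ)) ≤ 1 := by
    have := finrank_span_le_card (R := QB) ({1} : Set ℂ)
    simpa using this
  have h4 := rank_few γ hθ (Submodule.span QB (Set.range l)) (by
    intro v hv
    refine (Submodule.span_le.mpr ?_ : Submodule.span QB (Set.range l) ≤
      Forms (Fin.elim0 : Fin 0 → ℂ)) hv
    rintro _ ⟨j, rfl⟩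
    exact log_mem0 _ (halg j)) (by
    intro v hv
    refine Submodule.span_induction (p := fun v _ => θ * v ∈ Forms γ) ?_ ?_ ?_ ?_ hv
    · rintro _ ⟨j, rfl⟩
      exact h j
    · rw [mul_zero]
      exact Submodule.zero_mem _
    · intro v w _ _ hv hw
      rw [mul_add]
      exact Submodule.add_mem _ hv hw
    · intro c v _ hv
      rw [mul_smul_comm]
      exact Submodule.smul_mem _ c hv)
  omega

lemma pi_mem {g : ℕ} (γ : Fin g → ℂ) : (Real.pi : ℂ) ∈ Forms γ := by
  have h1 : (Real.pi : ℂ) * Complex.I ∈ Forms γ := by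
    apply log_mem0
    rw [Complex.exp_pi_mul_I]
    exact isAlgebraic_one.neg
  have hI : IsAlgebraic ℚ (-Complex.I) := by
    have h2 : IsAlgebraic ℚ (Complex.I ^ 2) := by
      rw [Complex.I_sq]
      exact isAlgebraic_one.neg
    exact (h2.of_pow (by norm_num)).neg
  have h3 := Submodule.smul_mem (Forms γ) (⟨-Complex.I, mem_QB.mpr hI⟩ : QB) h1
  have h4 : (⟨-Complex.I, mem_QB.mpr hI⟩ : QB) • ((Real.pi : ℂ) * Complex.I) = (Real.pi : ℂ) := by
    rw [Algebra.smul_def]
    show -Complex.I * ((Real.pi : ℂ) * Complex.I) = (Real.pi : ℂ)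
    linear_combination (-(Real.pi : ℂ)) * Complex.I_sq
  rw [h4] at h3
  exact h3

/-- at most `g + 1` bases for `θ` itself in `Forms γ` -/
theorem bases_few' {g : ℕ} (γ : Fin g → ℂ) {θ : ℂ} (hθ : Transcendental ℚ θ)
    (hθm : θ ∈ Forms γ) {N : ℕ}
    (l : Fin N → ℂ) (halg : ∀ j, IsAlgebraic ℚ (Complex.exp (l j)))
    (hli : LinearIndependent ℚ l) (h : ∀ j, θ * l j ∈ Forms γ) : N ≤ g + 1 := by
  have h1 := finrank_VV l halg hli
  have h4 := rank_few γ hθ (VV l) (by
    intro v hv
    refine (Submodule.span_le.mpr ?_ : VV l ≤ Forms (Fin.elim0 : Fin 0 → ℂ)) hv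
    rintro z (hz | ⟨j, rfl⟩)
    · rw [Set.mem_singleton_iff] at hz
      rw [hz]
      exact one_mem_Forms _
    · exact log_mem0 _ (halg j)) (by
    intro v hv
    refine Submodule.span_induction (p := fun v _ => θ * v ∈ Forms γ) ?_ ?_ ?_ ?_ hv
    · rintro z (hz | ⟨j, rfl⟩)
      · rw [Set.mem_singleton_iff] at hz
        rw [hz, mul_one]
        exact hθm
      · exact h j
    · rw [mul_zero]
      exact Submodule.zero_mem _
    · intro v w _ _ hv hw
      rw [mul_add]
      exact Submodule.add_mem _ hv hw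
    · intro c v _ hv
      rw [mul_smul_comm]
      exact Submodule.smul_mem _ c hv)
  omega

end V11268.PerG
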