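import Pool.Agent.V11268.PerEnergy

set_option autoImplicit false
set_option linter.unusedSectionVars false

namespace V11268.PerG

open Module
open Pool.Agent.H301R2.SSE (QB mem_QB Lt Lt_rep Lt_mul Lt_alg Lt_log)
open Pool.Agent.TH379.PER
open scoped Pointwise

/-- the smaller one of `2 g + 2` and `g + 2 √g + 2` -/
noncomputable def Mg (g : ℕ) : ℝ := min (2 * g + 2) (g + 2 * Real.sqrt g + 2)

lemma Mg_ge (g : ℕ) : 2 ≤ Mg g := by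
  refine le_min ?_ ?_
  · have : (0 : ℝ) ≤ g := Nat.cast_nonneg g
    linarith
  · have : (0 : ℝ) ≤ g := Nat.cast_nonneg g
    have h2 := Real.sqrt_nonneg (g : ℝ)
    linarith

lemma Mg_zero : Mg 0 = 2 := by
  simp [Mg]

lemma le_Mg {g x : ℕ} (h : ∀ m : ℕ, m * x ≤ (m + 1) * (m + g)) : (x : ℝ) ≤ Mg g := by
  obtain ⟨h1, h2⟩ := closed_form h
  exact le_min (by exact_mod_cast h1) h2

section chars

variable {G : Type} [AddCommGroup G] [DecidableEq G] {χ : G → ℂ} {Good : G → Prop}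

theorem energy_main {g : ℕ} (γ : Fin g → ℂ) (hadd : ∀ a b, χ (a + b) = χ a * χ b)
    (hsub : ∀ a b, Good a → Good b → Good (a - b))
    (hli : ∀ A : Finset G, (∀ a ∈ A, Good a) → LinearIndependent QB (fun a : A => χ a))
    (htr : ∀ δ, Good δ → δ ≠ 0 → Transcendental ℚ (χ δ))
    {z₀ : ℂ} (hz : z₀ ≠ 0) (B X : Finset G) (hX : X.Nonempty) (hB : ∀ b ∈ B, Good b)
    (hXg : ∀ b ∈ X, Good b) :
    ({b : G | b ∈ B ∧ z₀ * χ b ∈ Forms γ}.ncard : ℝ) ^ 2 * X.card ≤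
      (B + X).card * ({b : G | b ∈ B ∧ z₀ * χ b ∈ Forms γ}.ncard + Mg g * (X.card - 1)) := by
  refine energy_abs (fun b => z₀ * χ b ∈ Forms γ) B X hX (Mg g)
    (by linarith [Mg_ge g]) ?_
  intro δ hδ h0 T hT h
  obtain ⟨u, hu, v, hv, huv⟩ := Finset.mem_sub.mp hδ
  have hg : Good δ := by
    rw [← huv]
    exact hsub u v (hXg u hu) (hXg v hv)
  exact le_Mg (fun m => few_fin γ hadd hli hz (htr δ hg h0) T (fun a ha => hB a (hT ha))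
    (fun a ha => (h a ha).1) (fun a ha => (h a ha).2) m)

end chars

lemma ncard_nat_int (N : ℕ) (Q : ℤ → Prop) :
    {n : ℕ | 1 ≤ n ∧ n ≤ N ∧ Q n}.ncard = {n : ℤ | n ∈ Finset.Icc (1 : ℤ) N ∧ Q n}.ncard := by
  rw [← Set.ncard_image_of_injective {n : ℕ | 1 ≤ n ∧ n ≤ N ∧ Q n}
    (f := fun n : ℕ => (n : ℤ)) Nat.cast_injective]
  congr 1
  ext n
  constructor
  · rintro ⟨k, ⟨h1, h2, h3⟩, rfl⟩
    refine ⟨Finset.mem_Icc.mpr ⟨?_, ?_⟩, h3⟩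
    · show (1 : ℤ) ≤ (k : ℤ)
      exact_mod_cast h1
    · show (k : ℤ) ≤ N
      exact_mod_cast h2
  · rintro ⟨h1, h2⟩
    obtain ⟨h3, h4⟩ := Finset.mem_Icc.mp h1
    have h5 : (n.toNat : ℤ) = n := Int.toNat_of_nonneg (by omega)
    refine ⟨n.toNat, ⟨by omega, by omega, ?_⟩, h5⟩
    rw [h5]
    exact h2

theorem ap_main {g : ℕ} (γ : Fin g → ℂ) {z₀ : ℂ} (hz : z₀ ≠ 0) {t : ℂ}
    (ht : Transcendental ℚ t) (N : ℕ) :
    ({n : ℕ | 1 ≤ n ∧ n ≤ N ∧ z₀ * t ^ n ∈ Forms γ}.ncard : ℝ) ≤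
      Real.sqrt (Mg g * N) + Real.sqrt (Real.sqrt (Mg g * N)) + 1 := by
  classical
  have ht0 : t ≠ 0 := by
    rintro rfl
    exact ht isAlgebraic_zero
  have e1 : {n : ℕ | 1 ≤ n ∧ n ≤ N ∧ z₀ * t ^ n ∈ Forms γ} =
      {n : ℕ | 1 ≤ n ∧ n ≤ N ∧ (fun k : ℤ => z₀ * t ^ k ∈ Forms γ) n} := by
    ext n
    simp only [Set.mem_ofPred_eq, zpow_natCast]
  rw [e1, ncard_nat_int N (fun k : ℤ => z₀ * t ^ k ∈ Forms γ)]
  rcases Nat.eq_zero_or_pos N with h0 | h0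
  · subst h0
    have e2 : {n : ℤ | n ∈ Finset.Icc (1 : ℤ) ((0 : ℕ) : ℤ) ∧
        (fun k : ℤ => z₀ * t ^ k ∈ Forms γ) n} = ∅ := by
      ext n
      simp
    rw [e2, Set.ncard_empty]
    refine le_trans (le_of_eq Nat.cast_zero) ?_
    positivity
  refine interval_closed (by exact_mod_cast h0) (by linarith [Mg_ge g]) (Nat.cast_nonneg _) ?_
  intro u hu
  have h1 := energy_main (χ := fun n : ℤ => t ^ n) (Good := fun _ => True) γ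
    (fun a b => zpow_add₀ ht0 a b) (fun _ _ _ _ => trivial) (fun A _ => zpow_indep ht A)
    (fun _ _ h0 => zpow_transc ht h0) hz (Finset.Icc (1 : ℤ) N) (Finset.Icc (0 : ℤ) ((u : ℤ) - 1))
    ⟨0, Finset.mem_Icc.mpr ⟨le_refl _, by omega⟩⟩ (fun _ _ => trivial) (fun _ _ => trivial)
  have h2 : (Finset.Icc (0 : ℤ) ((u : ℤ) - 1)).card = u := by
    rw [Int.card_Icc]
    omega
  rw [h2] at h1
  have h3 : (Finset.Icc (1 : ℤ) N + Finset.Icc (0 : ℤ) ((u : ℤ) - 1)).card ≤ N + u - 1 := by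
    have h4 : Finset.Icc (1 : ℤ) N + Finset.Icc (0 : ℤ) ((u : ℤ) - 1) ⊆
        Finset.Icc (1 : ℤ) ((N : ℤ) + u - 1) := by
      intro x hx
      obtain ⟨y, hy, z, hz', rfl⟩ := Finset.mem_add.mp hx
      obtain ⟨h5, h6⟩ := Finset.mem_Icc.mp hy
      obtain ⟨h7, h8⟩ := Finset.mem_Icc.mp hz'
      refine Finset.mem_Icc.mpr ⟨by omega, by omega⟩
    refine (Finset.card_le_card h4).trans ?_
    rw [Int.card_Icc]
    omega
  have h4 : ((Finset.Icc (1 : ℤ) N + Finset.Icc (0 : ℤ) ((u : ℤ) - 1)).card : ℝ) ≤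
      (N : ℝ) + u - 1 := by
    have : ((Finset.Icc (1 : ℤ) N + Finset.Icc (0 : ℤ) ((u : ℤ) - 1)).card : ℝ) ≤
        ((N + u - 1 : ℕ) : ℝ) := by exact_mod_cast h3
    rw [Nat.cast_sub (by omega)] at this
    push_cast at this
    exact this
  refine h1.trans (mul_le_mul_of_nonneg_right h4 ?_)
  have h5 : (1 : ℝ) ≤ u := by exact_mod_cast hu
  have h6 := Mg_ge g
  have h7 : (0 : ℝ) ≤ ({b : ℤ | b ∈ Finset.Icc (1 : ℤ) N ∧ z₀ * t ^ b ∈ Forms γ}.ncard : ℝ) :=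
    Nat.cast_nonneg _
  nlinarith

/-! ### rational powers of a positive transcendental number -/

lemma rat_common (A : Finset ℚ) : ∃ D : ℕ, 0 < D ∧ ∀ a ∈ A, ∃ n : ℤ, a * D = n := by
  refine ⟨∏ a ∈ A, a.den, Finset.prod_pos (fun a _ => a.den_pos), ?_⟩
  intro a ha
  obtain ⟨k, hk⟩ := Finset.dvd_prod_of_mem (fun a : ℚ => a.den) ha
  refine ⟨a.num * k, ?_⟩
  rw [hk]
  push_cast
  have h1 : a * (a.den : ℚ) = a.num := Rat.mul_den_eq_num a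
  rw [← mul_assoc, h1]

lemma root_zpow {t : ℝ} (h0 : 0 < t) {D : ℕ} (hD : 0 < D) {a : ℚ} {n : ℤ} (h : a * D = n) :
    ((t ^ (a : ℝ) : ℝ) : ℂ) = (((t ^ ((1 : ℝ) / D) : ℝ) : ℂ)) ^ n := by
  have hD' : (D : ℝ) ≠ 0 := by positivity
  have h1 : (a : ℝ) = (1 / D : ℝ) * n := by
    have h2 : (a : ℝ) * D = n := by exact_mod_cast h
    field_simp
    linarith
  rw [← Complex.ofReal_zpow]
  congr 1
  rw [h1, Real.rpow_mul h0.le, Real.rpow_intCast]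

lemma root_transc {t : ℝ} (h0 : 0 < t) (ht : Transcendental ℚ (t : ℂ)) {D : ℕ} (hD : 0 < D) :
    Transcendental ℚ (((t ^ ((1 : ℝ) / D) : ℝ) : ℂ)) := by
  intro h
  apply ht
  have h1 := h.pow D
  rw [← Complex.ofReal_pow, ← Real.rpow_natCast, ← Real.rpow_mul h0.le,
    one_div_mul_cancel (by positivity), Real.rpow_one] at h1
  exact h1

lemma rat_indep {t : ℝ} (h0 : 0 < t) (ht : Transcendental ℚ (t : ℂ)) (A : Finset ℚ) :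
    LinearIndependent QB (fun a : A => ((t ^ (((a : ℚ)) : ℝ) : ℝ) : ℂ)) := by
  classical
  obtain ⟨D, hD, hA⟩ := rat_common A
  choose! n hn using hA
  have hinj : ∀ a ∈ A, ∀ b ∈ A, n a = n b → a = b := by
    intro a ha b hb hab
    have h1 := hn a ha
    have h2 := hn b hb
    rw [← hab, ← h1] at h2
    exact (mul_right_cancel₀ (by positivity : (D : ℚ) ≠ 0) h2).symm
  have h1 := (zpow_indep (root_transc h0 ht hD) (A.image n)).comp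
    (fun a : A => (⟨n a, Finset.mem_image_of_mem n a.2⟩ : A.image n)) (by
      intro a b hab
      exact Subtype.ext (hinj a a.2 b b.2 (congrArg Subtype.val hab)))
  convert h1 using 1
  funext a
  exact root_zpow h0 hD (hn a a.2)

lemma rat_transc {t : ℝ} (h0 : 0 < t) (ht : Transcendental ℚ (t : ℂ)) {q : ℚ} (hq : q ≠ 0) :
    Transcendental ℚ (((t ^ (q : ℝ) : ℝ) : ℂ)) := by
  obtain ⟨D, hD, hA⟩ := rat_common {q}
  obtain ⟨n, hn⟩ := hA q (Finset.mem_singleton_self q)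
  rw [root_zpow h0 hD hn]
  refine zpow_transc (root_transc h0 ht hD) ?_
  rintro rfl
  rw [Int.cast_zero] at hn
  rcases mul_eq_zero.mp hn with h | h
  · exact hq h
  · exact hD.ne' (by exact_mod_cast h)

lemma rat_add {t : ℝ} (h0 : 0 < t) (a b : ℚ) :
    ((t ^ (((a + b : ℚ)) : ℝ) : ℝ) : ℂ) = ((t ^ ((a : ℚ) : ℝ) : ℝ) : ℂ) * ((t ^ ((b : ℚ) : ℝ) : ℝ) : ℂ) := by
  rw [← Complex.ofReal_mul]
  congr 1
  push_cast
  rw [Real.rpow_add h0]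

theorem rat_few {g : ℕ} (γ : Fin g → ℂ) {z₀ : ℂ} (hz : z₀ ≠ 0) {t : ℝ} (h0 : 0 < t)
    (ht : Transcendental ℚ (t : ℂ)) {h : ℚ} (hh : h ≠ 0) :
    {b : ℚ | z₀ * ((t ^ ((b : ℚ) : ℝ) : ℝ) : ℂ) ∈ Forms γ ∧
      z₀ * ((t ^ (((b + h : ℚ)) : ℝ) : ℝ) : ℂ) ∈ Forms γ}.Finite ∧
    ({b : ℚ | z₀ * ((t ^ ((b : ℚ) : ℝ) : ℝ) : ℂ) ∈ Forms γ ∧
      z₀ * ((t ^ (((b + h : ℚ)) : ℝ) : ℝ) : ℂ) ∈ Forms γ}.ncard : ℝ) ≤ Mg g := by
  classical
  have h1 := few_main (χ := fun b : ℚ => ((t ^ ((b : ℚ) : ℝ) : ℝ) : ℂ)) (Good := fun _ => True) γ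
    (fun a b => rat_add h0 a b) (fun A _ => rat_indep h0 ht A) hz (δ := h)
    (rat_transc h0 ht hh)
  simp only [true_and] at h1
  exact ⟨h1.1, le_Mg h1.2⟩

theorem rat_energy {g : ℕ} (γ : Fin g → ℂ) {z₀ : ℂ} (hz : z₀ ≠ 0) {t : ℝ} (h0 : 0 < t)
    (ht : Transcendental ℚ (t : ℂ)) (B X : Finset ℚ) (hX : X.Nonempty) :
    ({b : ℚ | b ∈ B ∧ z₀ * ((t ^ ((b : ℚ) : ℝ) : ℝ) : ℂ) ∈ Forms γ}.ncard : ℝ) ^ 2 * X.card ≤
      (B + X).card * ({b : ℚ | b ∈ B ∧ z₀ * ((t ^ ((b : ℚ) : ℝ) : ℝ) : ℂ) ∈ Forms γ}.ncard +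
        Mg g * (X.card - 1)) :=
  energy_main (χ := fun b : ℚ => ((t ^ ((b : ℚ) : ℝ) : ℝ) : ℂ)) (Good := fun _ => True) γ
    (fun a b => rat_add h0 a b) (fun _ _ _ _ => trivial) (fun A _ => rat_indep h0 ht A)
    (fun _ _ hδ => rat_transc h0 ht hδ) hz B X hX (fun _ _ => trivial) (fun _ _ => trivial)

theorem rat_ap {g : ℕ} (γ : Fin g → ℂ) {z₀ : ℂ} (hz : z₀ ≠ 0) {t : ℝ} (h0 : 0 < t)
    (ht : Transcendental ℚ (t : ℂ)) (a : ℚ) {h : ℚ} (hh : h ≠ 0) (N : ℕ) :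
    ({k : ℕ | 1 ≤ k ∧ k ≤ N ∧ z₀ * ((t ^ (((a + k * h : ℚ)) : ℝ) : ℝ) : ℂ) ∈ Forms γ}.ncard : ℝ) ≤
      Real.sqrt (Mg g * N) + Real.sqrt (Real.sqrt (Mg g * N)) + 1 := by
  have hta : ((t ^ ((a : ℚ) : ℝ) : ℝ) : ℂ) ≠ 0 := by
    exact_mod_cast (Real.rpow_pos_of_pos h0 _).ne'
  have h1 := ap_main γ (mul_ne_zero hz hta) (rat_transc h0 ht hh) N
  have h2 : ∀ k : ℕ, z₀ * ((t ^ (((a + k * h : ℚ)) : ℝ) : ℝ) : ℂ) =
      z₀ * ((t ^ ((a : ℚ) : ℝ) : ℝ) : ℂ) * (((t ^ (h : ℝ) : ℝ) : ℂ)) ^ k := by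
    intro k
    rw [rat_add h0, ← Complex.ofReal_pow, ← Real.rpow_natCast, ← Real.rpow_mul h0.le, mul_assoc]
    push_cast
    rw [mul_comm (h : ℝ) (k : ℝ)]
  simp only [h2]
  exact h1

end V11268.PerG
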