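import Pool.Agent.V11268.PerGen

set_option autoImplicit false
set_option linter.unusedSectionVars false

namespace V11268.PerG

open Module
open Pool.Agent.H301R2.SSE (QB mem_QB Lt Lt_rep Lt_mul Lt_alg Lt_log)
open Pool.Agent.TH379.PER
open scoped Pointwise

/-! ### Exponentials of algebraic numbers -/

lemma exp_transc {δ : ℂ} (hδ : IsAlgebraic ℚ δ) (h0 : δ ≠ 0) :
    Transcendental ℚ (Complex.exp δ) := by
  classical
  intro h
  have h1 := Pool.Agent.H340R2.LW.lindemann_weierstrass (ι := Fin 2) Finset.univ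
    ![(0 : ℂ), δ] ![-Complex.exp δ, (1 : ℂ)] (by
      intro a _
      fin_cases a
      · exact isAlgebraic_zero
      · exact hδ) (by
      intro a _
      fin_cases a
      · exact h.neg
      · exact isAlgebraic_one) (by
      intro a _ b _ hab
      fin_cases a <;> fin_cases b
      · rfl
      · exact absurd hab.symm h0
      · exact absurd hab h0
      · rfl) (by
      rw [Fin.sum_univ_two]
      simp) 1 (Finset.mem_univ _)
  simp at h1

theorem exp_few {g : ℕ} (γ : Fin g → ℂ) {z₀ : ℂ} (hz : z₀ ≠ 0) {δ : ℂ} (hδ : IsAlgebraic ℚ δ)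
    (h0 : δ ≠ 0) :
    {α : ℂ | IsAlgebraic ℚ α ∧ z₀ * Complex.exp α ∈ Forms γ ∧
      z₀ * Complex.exp (α + δ) ∈ Forms γ}.Finite ∧
    ∀ m : ℕ, m * {α : ℂ | IsAlgebraic ℚ α ∧ z₀ * Complex.exp α ∈ Forms γ ∧
      z₀ * Complex.exp (α + δ) ∈ Forms γ}.ncard ≤ (m + 1) * (m + g) := by
  classical
  exact few_main (χ := Complex.exp) (Good := fun a => IsAlgebraic ℚ a) γ Complex.exp_add
    exp_indep hz (exp_transc hδ h0)

theorem exp_sidon {g : ℕ} (γ : Fin g → ℂ) {z₀ : ℂ} (hz : z₀ ≠ 0) (B : Finset ℂ)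
    (hB : ∀ b ∈ B, IsAlgebraic ℚ b) (m : ℕ) :
    m * ({b : ℂ | b ∈ B ∧ z₀ * Complex.exp b ∈ Forms γ}.ncard *
      ({b : ℂ | b ∈ B ∧ z₀ * Complex.exp b ∈ Forms γ}.ncard - 1)) ≤
      (m + 1) * (m + g) * ((B - B).card - 1) :=
  sidon_main (χ := Complex.exp) (Good := fun a => IsAlgebraic ℚ a) γ Complex.exp_add
    (fun _ _ ha hb => ha.sub hb) exp_indep (fun _ hδ h0 => exp_transc hδ h0) hz B hB m

theorem exp_doubling {g : ℕ} (γ : Fin g → ℂ) {z₀ : ℂ} (hz : z₀ ≠ 0) (B : Finset ℂ)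
    (hB : ∀ b ∈ B, IsAlgebraic ℚ b) :
    ({b : ℂ | b ∈ B ∧ z₀ * Complex.exp b ∈ Forms γ}.ncard : ℝ) ≤
      2 * Real.sqrt ((B + B).card) + g :=
  doubling_main (χ := Complex.exp) (Good := fun a => IsAlgebraic ℚ a) γ Complex.exp_add
    exp_indep hz B hB

theorem exp_runs {g : ℕ} (γ : Fin g → ℂ) {z₀ : ℂ} (hz : z₀ ≠ 0) {α δ : ℂ}
    (hα : IsAlgebraic ℚ α) (hδ : IsAlgebraic ℚ δ) (h0 : δ ≠ 0) (m K : ℕ)
    (hK : (m + 1) * (m + g) < m * K) :
    ∃ k : ℕ, k ≤ K ∧ z₀ * Complex.exp (α + k * δ) ∉ Forms γ := by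
  by_contra hcon
  push Not at hcon
  obtain ⟨hfin, hc⟩ := exp_few γ hz hδ h0
  have h1 : ((Finset.range K).image (fun k : ℕ => α + (k : ℂ) * δ) : Set ℂ) ⊆
      {α : ℂ | IsAlgebraic ℚ α ∧ z₀ * Complex.exp α ∈ Forms γ ∧
        z₀ * Complex.exp (α + δ) ∈ Forms γ} := by
    intro z hz
    rw [Finset.coe_image] at hz
    obtain ⟨k, hk, rfl⟩ := hz
    have hk' : k < K := Finset.mem_range.mp (Finset.mem_coe.mp hk)
    refine ⟨hα.add ((isAlgebraic_natCast k).mul hδ), hcon k (by omega), ?_⟩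
    have h2 := hcon (k + 1) (by omega)
    have h3 : α + (k : ℂ) * δ + δ = α + ((k + 1 : ℕ) : ℂ) * δ := by push_cast; ring
    rw [h3]
    exact h2
  have h4 := Set.ncard_le_ncard h1 hfin
  rw [Set.ncard_coe_finset, Finset.card_image_of_injective _ (fun a b h =>
    Nat.cast_injective (mul_right_cancel₀ h0 (add_left_cancel h))), Finset.card_range] at h4
  have h5 := (Nat.mul_le_mul_left m h4).trans (hc m)
  omega

lemma one_mem_Forms {g : ℕ} (γ : Fin g → ℂ) : (1 : ℂ) ∈ Forms γ := by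
  refine Submodule.subset_span (Or.inl (Or.inl ⟨0, 1, 1, 1, isAlgebraic_zero, isAlgebraic_one,
    zero_le_one, ?_, ?_⟩))
  · intro x _
    rw [map_one]
    exact one_ne_zero
  · simp

/-- the two closed forms of the bound -/
lemma closed_form {g x : ℕ} (h : ∀ m : ℕ, m * x ≤ (m + 1) * (m + g)) :
    x ≤ 2 * g + 2 ∧ (x : ℝ) ≤ g + 2 * Real.sqrt g + 2 := by
  have h1 := h 1
  have h1' : x ≤ 2 * g + 2 := by omega
  refine ⟨h1', ?_⟩
  rcases Nat.eq_zero_or_pos g with h0 | h0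
  · subst h0
    have h2 : (x : ℝ) ≤ 2 := by exact_mod_cast h1'
    simpa using h2
  · have hs : 0 < Real.sqrt g := Real.sqrt_pos.mpr (by exact_mod_cast h0)
    set m := ⌈Real.sqrt g⌉₊ with hm
    have h2 : Real.sqrt g ≤ m := Nat.le_ceil _
    have h3 : (m : ℝ) < Real.sqrt g + 1 := Nat.ceil_lt_add_one hs.le
    have h4 : (m : ℝ) * x ≤ (m + 1) * (m + g) := by exact_mod_cast h m
    have hm0 : (0 : ℝ) < m := by linarith
    have h5 : (g : ℝ) ≤ Real.sqrt g * m := by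
      calc (g : ℝ) = Real.sqrt g * Real.sqrt g := (Real.mul_self_sqrt (Nat.cast_nonneg g)).symm
        _ ≤ Real.sqrt g * m := mul_le_mul_of_nonneg_left h2 hs.le
    have h6 : (m : ℝ) * x ≤ m * (m + 1 + g + Real.sqrt g) := by nlinarith
    have h7 := le_of_mul_le_mul_left h6 hm0
    linarith

/-! ### Integral powers of a transcendental number -/

lemma zpow_indep {t : ℂ} (ht : Transcendental ℚ t) (A : Finset ℤ) :
    LinearIndependent QB (fun a : A => t ^ (a : ℤ)) := by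
  classical
  have ht0 : t ≠ 0 := by
    rintro rfl
    exact ht isAlgebraic_zero
  obtain ⟨N, hN⟩ : ∃ N : ℕ, ∀ a ∈ A, a.natAbs < N :=
    ⟨A.sup Int.natAbs + 1, fun a ha => Nat.lt_succ_of_le (Finset.le_sup (f := Int.natAbs) ha)⟩
  have h1 := (pow_indep ht (2 * N)).comp
    (fun a : A => (⟨((a : ℤ) + N).toNat, by
      have := hN a a.2
      omega⟩ : Fin (2 * N))) (by
      intro a b hab
      have h2 : ((a : ℤ) + N).toNat = ((b : ℤ) + N).toNat := congrArg Fin.val hab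
      have h3 := hN a a.2
      have h4 := hN b b.2
      apply Subtype.ext
      omega)
  have h2 : (fun a : A => mulL (t ^ N) (t ^ (a : ℤ))) =
      (fun k : Fin (2 * N) => t ^ (k : ℕ)) ∘ (fun a : A => (⟨((a : ℤ) + N).toNat, by
      have := hN a a.2
      omega⟩ : Fin (2 * N))) := by
    funext a
    show t ^ N * t ^ (a : ℤ) = t ^ ((a : ℤ) + N).toNat
    have h3 := hN a a.2
    have h4 : (((a : ℤ) + N).toNat : ℤ) = (a : ℤ) + N := Int.toNat_of_nonneg (by omega)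
    rw [← zpow_natCast t N, ← zpow_natCast t (((a : ℤ) + N).toNat), h4, ← zpow_add₀ ht0,
      add_comm]
  rw [← h2] at h1
  exact LinearIndependent.of_comp (mulL (t ^ N)) h1

lemma zpow_transc {t : ℂ} (ht : Transcendental ℚ t) {n : ℤ} (hn : n ≠ 0) :
    Transcendental ℚ (t ^ n) := by
  intro h
  have h1 : IsAlgebraic ℚ (t ^ n.natAbs) := by
    rcases Int.natAbs_eq n with h2 | h2
    · rw [h2, zpow_natCast] at h
      exact h
    · rw [h2, zpow_neg, zpow_natCast] at h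
      have h3 := h.inv
      rwa [inv_inv] at h3
  exact ht (IsAlgebraic.of_pow (Int.natAbs_pos.mpr hn) h1)

theorem pow_few {g : ℕ} (γ : Fin g → ℂ) {z₀ : ℂ} (hz : z₀ ≠ 0) {t : ℂ}
    (ht : Transcendental ℚ t) {h : ℤ} (h0 : h ≠ 0) :
    {n : ℤ | z₀ * t ^ n ∈ Forms γ ∧ z₀ * t ^ (n + h) ∈ Forms γ}.Finite ∧
    ∀ m : ℕ, m * {n : ℤ | z₀ * t ^ n ∈ Forms γ ∧ z₀ * t ^ (n + h) ∈ Forms γ}.ncard ≤
      (m + 1) * (m + g) := by
  have ht0 : t ≠ 0 := by
    rintro rfl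
    exact ht isAlgebraic_zero
  have h1 := few_main (χ := fun n : ℤ => t ^ n) (Good := fun _ => True) γ
    (fun a b => zpow_add₀ ht0 a b) (fun A _ => zpow_indep ht A) hz (δ := h) (zpow_transc ht h0)
  simpa only [true_and] using h1

theorem pow_sidon {g : ℕ} (γ : Fin g → ℂ) {z₀ : ℂ} (hz : z₀ ≠ 0) {t : ℂ}
    (ht : Transcendental ℚ t) (B : Finset ℤ) (m : ℕ) :
    m * ({b : ℤ | b ∈ B ∧ z₀ * t ^ b ∈ Forms γ}.ncard *
      ({b : ℤ | b ∈ B ∧ z₀ * t ^ b ∈ Forms γ}.ncard - 1)) ≤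
      (m + 1) * (m + g) * ((B - B).card - 1) := by
  have ht0 : t ≠ 0 := by
    rintro rfl
    exact ht isAlgebraic_zero
  exact sidon_main (χ := fun n : ℤ => t ^ n) (Good := fun _ => True) γ
    (fun a b => zpow_add₀ ht0 a b) (fun _ _ _ _ => trivial) (fun A _ => zpow_indep ht A)
    (fun _ _ h0 => zpow_transc ht h0) hz B (fun _ _ => trivial) m

theorem pow_doubling {g : ℕ} (γ : Fin g → ℂ) {z₀ : ℂ} (hz : z₀ ≠ 0) {t : ℂ}
    (ht : Transcendental ℚ t) (B : Finset ℤ) :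
    ({b : ℤ | b ∈ B ∧ z₀ * t ^ b ∈ Forms γ}.ncard : ℝ) ≤
      2 * Real.sqrt ((B + B).card) + g := by
  have ht0 : t ≠ 0 := by
    rintro rfl
    exact ht isAlgebraic_zero
  exact doubling_main (χ := fun n : ℤ => t ^ n) (Good := fun _ => True) γ
    (fun a b => zpow_add₀ ht0 a b) (fun A _ => zpow_indep ht A) hz B (fun _ _ => trivial)

/-- mixed monomials -/
theorem mixed {g : ℕ} (γ : Fin g → ℂ) {t u v : ℂ} (ht : Transcendental ℚ t) (hu : u ≠ 0)
    (hv : v ≠ 0) (A B C : Finset ℤ) :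
    ({p : ℤ × ℤ × ℤ | p.1 ∈ A ∧ p.2.1 ∈ B ∧ p.2.2 ∈ C ∧
      t ^ p.1 * (u ^ p.2.1 * v ^ p.2.2) ∈ Forms γ}.ncard : ℝ) ≤
      B.card * C.card * (2 * Real.sqrt ((A + A).card) + g) := by
  classical
  set S : Finset (ℤ × ℤ × ℤ) := (A ×ˢ (B ×ˢ C)).filter
    (fun p => t ^ p.1 * (u ^ p.2.1 * v ^ p.2.2) ∈ Forms γ) with hS
  have hSS : {p : ℤ × ℤ × ℤ | p.1 ∈ A ∧ p.2.1 ∈ B ∧ p.2.2 ∈ C ∧
      t ^ p.1 * (u ^ p.2.1 * v ^ p.2.2) ∈ Forms γ} = (S : Set (ℤ × ℤ × ℤ)) := by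
    ext p
    simp only [hS, Finset.coe_filter, Finset.mem_product, Set.mem_ofPred_eq]
    tauto
  rw [hSS, Set.ncard_coe_finset]
  have h1 := Finset.card_eq_sum_card_fiberwise (f := fun p : ℤ × ℤ × ℤ => p.2)
    (s := S) (t := B ×ˢ C) (fun p hp =>
      (Finset.mem_product.mp (Finset.mem_of_mem_filter _ (Finset.mem_coe.mp hp))).2)
  have h2 : ∀ q ∈ B ×ˢ C, ((S.filter (fun p : ℤ × ℤ × ℤ => p.2 = q)).card : ℝ) ≤
      2 * Real.sqrt ((A + A).card) + g := by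
    intro q _
    have hz : u ^ q.1 * v ^ q.2 ≠ 0 := mul_ne_zero (zpow_ne_zero _ hu) (zpow_ne_zero _ hv)
    refine le_trans ?_ (pow_doubling γ hz ht A)
    have h3 : {b : ℤ | b ∈ A ∧ u ^ q.1 * v ^ q.2 * t ^ b ∈ Forms γ} =
        ((A.filter (fun b => u ^ q.1 * v ^ q.2 * t ^ b ∈ Forms γ) : Finset ℤ) : Set ℤ) := by
      ext b
      rw [Finset.coe_filter]
    rw [h3, Set.ncard_coe_finset]
    have h4 : (S.filter (fun p : ℤ × ℤ × ℤ => p.2 = q)).card ≤
        (A.filter (fun b => u ^ q.1 * v ^ q.2 * t ^ b ∈ Forms γ)).card := by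
      refine Finset.card_le_card_of_injOn Prod.fst ?_ ?_
      · intro p hp
        have hp' := Finset.mem_filter.mp (Finset.mem_coe.mp hp)
        have hp1 := Finset.mem_filter.mp hp'.1
        refine Finset.mem_coe.mpr (Finset.mem_filter.mpr
          ⟨(Finset.mem_product.mp hp1.1).1, ?_⟩)
        rw [← hp'.2, mul_comm]
        exact hp1.2
      · intro p hp p' hp' hpp
        have e1 := (Finset.mem_filter.mp (Finset.mem_coe.mp hp)).2
        have e2 := (Finset.mem_filter.mp (Finset.mem_coe.mp hp')).2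
        exact Prod.ext hpp (e1.trans e2.symm)
    exact_mod_cast h4
  rw [h1]
  push_cast
  refine (Finset.sum_le_card_nsmul _ _ _ h2).trans (le_of_eq ?_)
  rw [Finset.card_product, nsmul_eq_mul]
  push_cast
  ring

lemma euler_ne : (Real.eulerMascheroniConstant : ℂ) ≠ 0 := by
  have h1 := Real.one_half_lt_eulerMascheroniConstant
  have h2 : Real.eulerMascheroniConstant ≠ 0 := by
    intro h
    rw [h] at h1
    norm_num at h1
  exact_mod_cast h2

lemma inv_pi_transc : Transcendental ℚ (1 / (Real.pi : ℂ)) := by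
  intro h
  have h1 := h.inv
  rw [one_div, inv_inv] at h1
  exact Pool.Agent.H340R2.LW.transcendental_pi_complex h1

lemma inv_pi_ne : (1 / (Real.pi : ℂ)) ≠ 0 := by
  rw [one_div]
  exact inv_ne_zero (by exact_mod_cast Real.pi_ne_zero)

end V11268.PerG
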