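import Pool.Agent.V11268.PerRat

set_option autoImplicit false
set_option linter.unusedSectionVars false

namespace V11268.PerG

open Module
open Pool.Agent.TH379.PER
open scoped Pointwise

/-- the natural logarithm of the real number `x` belongs to `Forms γ` -/
def InP {g : ℕ} (γ : Fin g → ℂ) (x : ℝ) : Prop := ((Real.log x : ℝ) : ℂ) ∈ Forms γ

lemma inP_alg {g : ℕ} (γ : Fin g → ℂ) {x : ℝ} (hx : 0 < x) (h : IsAlgebraic ℚ x) : InP γ x := by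
  refine Submodule.subset_span (Or.inl (Or.inr ?_))
  show IsAlgebraic ℚ (Complex.exp ((Real.log x : ℝ) : ℂ))
  rw [← Complex.ofReal_exp, Real.exp_log hx]
  exact h.algebraMap

lemma inP_rpow {g : ℕ} (γ : Fin g → ℂ) {c : ℝ} (hc : 0 < c) (y : ℝ) :
    InP γ (c ^ y) ↔ ((Real.log c : ℝ) : ℂ) * (y : ℂ) ∈ Forms γ := by
  unfold InP
  rw [Real.log_rpow hc, mul_comm, Complex.ofReal_mul]

lemma log_ne {c : ℝ} (hc : 0 < c) (hc1 : c ≠ 1) : ((Real.log c : ℝ) : ℂ) ≠ 0 := by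
  exact_mod_cast Real.log_ne_zero_of_pos_of_ne_one hc hc1

theorem tower_few {g : ℕ} (γ : Fin g → ℂ) {t : ℝ} (h0 : 0 < t) (ht : Transcendental ℚ (t : ℂ))
    {c : ℝ} (hc : 0 < c) (hc1 : c ≠ 1) {h : ℚ} (hh : h ≠ 0) :
    {b : ℚ | InP γ (c ^ (t ^ (b : ℝ))) ∧ InP γ (c ^ (t ^ ((b + h : ℚ) : ℝ)))}.Finite ∧
    ({b : ℚ | InP γ (c ^ (t ^ (b : ℝ))) ∧ InP γ (c ^ (t ^ ((b + h : ℚ) : ℝ)))}.ncard : ℝ) ≤
      Mg g := by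
  simp only [inP_rpow γ hc]
  exact rat_few γ (log_ne hc hc1) h0 ht hh

theorem tower_energy {g : ℕ} (γ : Fin g → ℂ) {t : ℝ} (h0 : 0 < t)
    (ht : Transcendental ℚ (t : ℂ)) {c : ℝ} (hc : 0 < c) (hc1 : c ≠ 1) (B X : Finset ℚ)
    (hX : X.Nonempty) :
    ({b : ℚ | b ∈ B ∧ InP γ (c ^ (t ^ (b : ℝ)))}.ncard : ℝ) ^ 2 * X.card ≤
      (B + X).card * ({b : ℚ | b ∈ B ∧ InP γ (c ^ (t ^ (b : ℝ)))}.ncard +
        Mg g * (X.card - 1)) := by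
  simp only [inP_rpow γ hc]
  exact rat_energy γ (log_ne hc hc1) h0 ht B X hX

theorem tower_doubling {g : ℕ} (γ : Fin g → ℂ) {t : ℝ} (h0 : 0 < t)
    (ht : Transcendental ℚ (t : ℂ)) {c : ℝ} (hc : 0 < c) (hc1 : c ≠ 1) (B : Finset ℚ) :
    ({b : ℚ | b ∈ B ∧ InP γ (c ^ (t ^ (b : ℝ)))}.ncard : ℝ) ≤
      2 * Real.sqrt ((B + B).card) + g := by
  simp only [inP_rpow γ hc]
  exact doubling_main (χ := fun b : ℚ => ((t ^ ((b : ℚ) : ℝ) : ℝ) : ℂ)) (Good := fun _ => True) γ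
    (fun a b => rat_add h0 a b) (fun A _ => rat_indep h0 ht A) (log_ne hc hc1) B
    (fun _ _ => trivial)

theorem tower_ap {g : ℕ} (γ : Fin g → ℂ) {t : ℝ} (h0 : 0 < t) (ht : Transcendental ℚ (t : ℂ))
    {c : ℝ} (hc : 0 < c) (hc1 : c ≠ 1) (a : ℚ) {h : ℚ} (hh : h ≠ 0) (N : ℕ) :
    ({k : ℕ | 1 ≤ k ∧ k ≤ N ∧ InP γ (c ^ (t ^ ((a + k * h : ℚ) : ℝ)))}.ncard : ℝ) ≤
      Real.sqrt (Mg g * N) + Real.sqrt (Real.sqrt (Mg g * N)) + 1 := by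
  simp only [inP_rpow γ hc]
  exact rat_ap γ (log_ne hc hc1) h0 ht a hh N

theorem tower_alg {t : ℝ} (h0 : 0 < t) (ht : Transcendental ℚ (t : ℂ))
    {c : ℝ} (hc : 0 < c) (hc1 : c ≠ 1) (N : ℕ) :
    ({k : ℕ | 1 ≤ k ∧ k ≤ N ∧ IsAlgebraic ℚ (c ^ (t ^ (k : ℝ)))}.ncard : ℝ) ≤
      Real.sqrt (2 * N) + Real.sqrt (Real.sqrt (2 * N)) + 1 := by
  have h1 := tower_ap (g := 0) Fin.elim0 h0 ht hc hc1 0 one_ne_zero N
  rw [Mg_zero] at h1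
  refine le_trans ?_ h1
  have hfin : {k : ℕ | 1 ≤ k ∧ k ≤ N ∧
      InP (g := 0) Fin.elim0 (c ^ (t ^ ((0 + k * 1 : ℚ) : ℝ)))}.Finite :=
    (Set.finite_Icc 1 N).subset (fun k hk => ⟨hk.1, hk.2.1⟩)
  have h2 : {k : ℕ | 1 ≤ k ∧ k ≤ N ∧ IsAlgebraic ℚ (c ^ (t ^ (k : ℝ)))} ⊆
      {k : ℕ | 1 ≤ k ∧ k ≤ N ∧ InP (g := 0) Fin.elim0 (c ^ (t ^ ((0 + k * 1 : ℚ) : ℝ)))} := by
    rintro k ⟨hk1, hk2, hk3⟩
    refine ⟨hk1, hk2, ?_⟩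
    have h3 : ((0 + k * 1 : ℚ) : ℝ) = (k : ℝ) := by push_cast; ring
    rw [h3]
    exact inP_alg _ (Real.rpow_pos_of_pos hc _) hk3
  exact_mod_cast Set.ncard_le_ncard h2 hfin

theorem exp_energy {g : ℕ} (γ : Fin g → ℂ) {z₀ : ℂ} (hz : z₀ ≠ 0) (B X : Finset ℂ)
    (hB : ∀ b ∈ B, IsAlgebraic ℚ b) (hX : X.Nonempty) (hX1 : ∀ b ∈ X, IsAlgebraic ℚ b) :
    ({b : ℂ | b ∈ B ∧ z₀ * Complex.exp b ∈ Forms γ}.ncard : ℝ) ^ 2 * X.card ≤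
      (B + X).card * ({b : ℂ | b ∈ B ∧ z₀ * Complex.exp b ∈ Forms γ}.ncard +
        Mg g * (X.card - 1)) :=
  energy_main (χ := Complex.exp) (Good := fun a => IsAlgebraic ℚ a) γ Complex.exp_add
    (fun _ _ ha hb => ha.sub hb) exp_indep (fun _ hδ h0 => exp_transc hδ h0) hz B X hX hB hX1

theorem exp_ap {g : ℕ} (γ : Fin g → ℂ) {z₀ : ℂ} (hz : z₀ ≠ 0) {α δ : ℂ}
    (hδ : IsAlgebraic ℚ δ) (h0 : δ ≠ 0) (N : ℕ) :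
    ({k : ℕ | 1 ≤ k ∧ k ≤ N ∧ z₀ * Complex.exp (α + k * δ) ∈ Forms γ}.ncard : ℝ) ≤
      Real.sqrt (Mg g * N) + Real.sqrt (Real.sqrt (Mg g * N)) + 1 := by
  have h1 := ap_main γ (mul_ne_zero hz (Complex.exp_ne_zero α)) (exp_transc hδ h0) N
  have h2 : ∀ k : ℕ, z₀ * Complex.exp (α + k * δ) =
      z₀ * Complex.exp α * (Complex.exp δ) ^ k := by
    intro k
    rw [Complex.exp_add, Complex.exp_nat_mul, mul_assoc]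
  simp only [h2]
  exact h1

end V11268.PerG
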